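import Mathlib
import Pool.Agent.H117R2.UC.Defs

/-!
# Union-closed constant, task T08: from the kernels to one coordinate
-/

set_option autoImplicit false

namespace Pool.Agent.H724R2.UCT08
open Real Finset Pool.Agent.H117R2.UC

theorem fact {ι : Type*} (N : Finset ι) (w f g : ι → ℝ) :
    ∑ i ∈ N, ∑ j ∈ N, w i * w j * (f i * g j) = (∑ i ∈ N, w i * f i) * ∑ j ∈ N, w j * g j := by
  rw [Finset.sum_mul_sum]
  refine Finset.sum_congr rfl fun i _ => Finset.sum_congr rfl fun j _ => ?_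
  ring

theorem hb_nonneg {x : ℝ} (h0 : 0 ≤ x) (h1 : x ≤ 1) : 0 ≤ hb x := by
  unfold hb
  exact add_nonneg (negMulLog_nonneg h0 h1) (negMulLog_nonneg (by linarith) (by linarith))

theorem nml_lower {x : ℝ} (h0 : 0 ≤ x) : x * (1 - x) ≤ negMulLog x := by
  rcases eq_or_lt_of_le h0 with h | h
  · rw [← h]; simp
  · have := Real.log_le_sub_one_of_pos h
    unfold negMulLog
    nlinarith

theorem hb_lower {x : ℝ} (h0 : 0 ≤ x) (h1 : x ≤ 1) : 2 * (x * (1 - x)) ≤ hb x := by
  unfold hb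
  have e1 := nml_lower h0
  have e2 := nml_lower (x := 1 - x) (by linarith)
  nlinarith

theorem pw {x : ℝ} (h0 : 0 ≤ x) (h1 : x ≤ 1) : 0 < 17 / 16 * hb x - 433 / 10000 * xiH x := by
  have e1 := hb_lower h0 h1
  unfold xiH
  have h2 : 0 ≤ x * (1 - x) := mul_nonneg h0 (by linarith)
  have h3 : 0 ≤ x * (1 - x) * (1 - x) := mul_nonneg h2 (by linarith)
  nlinarith

theorem single
    (TA_nonneg : ∀ {x y : ℝ}, 0 ≤ x → x ≤ 1 → 0 ≤ y → y ≤ 1 → 0 ≤ TA x y)
    (TB : ∀ {x y : ℝ}, 0 ≤ x → x ≤ 1 → 0 ≤ y → y ≤ 1 →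
      1771 / 2000 * (x * hb y + y * hb x) ≤ hb (x * y) + 1 / 4 * (hb x * om y + hb y * om x))
    {ι : Type*} (N : Finset ι) (w x : ι → ℝ) (hw : ∀ i ∈ N, 0 ≤ w i)
    (hx0 : ∀ i ∈ N, 0 ≤ x i) (hx1 : ∀ i ∈ N, x i ≤ 1)
    (hmean : 617 / 1000 * ∑ i ∈ N, w i < ∑ i ∈ N, w i * x i) :
    ∃ σ : ℝ, (σ = 0 ∨ σ = 1) ∧
      17 / 16 * (∑ i ∈ N, w i) * (∑ i ∈ N, w i * hb (x i)) ≤
        ∑ i ∈ N, ∑ j ∈ N, w i * w j * (hb (x i * x j) + σ * (433 / 10000) * Gk (x i) (x j)) ∧
      (0 < ∑ i ∈ N, w i * hb (x i) →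
        17 / 16 * (∑ i ∈ N, w i) * (∑ i ∈ N, w i * hb (x i)) <
          ∑ i ∈ N, ∑ j ∈ N, w i * w j * (hb (x i * x j) + σ * (433 / 10000) * Gk (x i) (x j))) := by
  set W := ∑ i ∈ N, w i with hW
  set X := ∑ i ∈ N, w i * x i with hX
  set H := ∑ i ∈ N, w i * hb (x i) with hH
  set Om := ∑ i ∈ N, w i * om (x i) with hOm
  set Ξ := ∑ i ∈ N, w i * xiH (x i) with hΞ
  set Nn := ∑ i ∈ N, w i * nH (x i) with hNn
  have hW0 : 0 ≤ W := Finset.sum_nonneg hw
  have hH0 : 0 ≤ H := Finset.sum_nonneg fun i hi =>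
    mul_nonneg (hw i hi) (hb_nonneg (hx0 i hi) (hx1 i hi))
  have hN0 : 0 ≤ Nn := Finset.sum_nonneg fun i hi => by
    refine mul_nonneg (hw i hi) ?_
    unfold nH
    split_ifs <;> norm_num
  have hWpos : 0 < W := by
    rcases eq_or_lt_of_le hW0 with h | h
    · exfalso
      have h1 : ∀ i ∈ N, w i = 0 := (Finset.sum_eq_zero_iff_of_nonneg hw).1 h.symm
      have h2 : X = 0 := Finset.sum_eq_zero fun i hi => by rw [h1 i hi, zero_mul]
      rw [← h, h2] at hmean
      simp at hmean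
    · exact h
  have hW1 : ∑ i ∈ N, w i * (1 : ℝ) = W := by simp [hW]
  by_cases hc : 3 / 50 * W ≤ Om
  · -- large spread
    have hsum : 0 ≤ ∑ i ∈ N, ∑ j ∈ N, w i * w j * TA (x i) (x j) :=
      Finset.sum_nonneg fun i hi => Finset.sum_nonneg fun j hj =>
        mul_nonneg (mul_nonneg (hw i hi) (hw j hj))
          (TA_nonneg (hx0 i hi) (hx1 i hi) (hx0 j hj) (hx1 j hj))
    have hid : ∑ i ∈ N, ∑ j ∈ N, w i * w j * TA (x i) (x j) =
        (∑ i ∈ N, ∑ j ∈ N, w i * w j * (hb (x i * x j) + 1 * (433 / 10000) * Gk (x i) (x j)))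
        - 2125 / 2468 * (X * H + H * X) + 433 / 10000 * ((X * Ξ + Ξ * X -
          617 / 1000 * (W * Ξ + Ξ * W)) / (1234 / 1000)) -
          433 / 10000 * ((Om * Nn + Nn * Om - 3 / 50 * (W * Nn + Nn * W)) / 2) := by
      have e : ∀ i j, w i * w j * TA (x i) (x j) =
          w i * w j * (hb (x i * x j) + 1 * (433 / 10000) * Gk (x i) (x j))
          - 2125 / 2468 * (w i * w j * (x i * hb (x j)) + w i * w j * (hb (x i) * x j))
          + 433 / 10000 * ((w i * w j * (x i * xiH (x j)) + w i * w j * (xiH (x i) * x j) -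
            617 / 1000 * (w i * w j * (1 * xiH (x j)) + w i * w j * (xiH (x i) * 1))) /
              (1234 / 1000)) -
          433 / 10000 * ((w i * w j * (om (x i) * nH (x j)) + w i * w j * (nH (x i) * om (x j)) -
            3 / 50 * (w i * w j * (1 * nH (x j)) + w i * w j * (nH (x i) * 1))) / 2) := by
        intro i j
        unfold TA AH
        ring
      simp_rw [e]
      simp only [Finset.sum_add_distrib, Finset.sum_sub_distrib, ← Finset.mul_sum,
        ← Finset.sum_div]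
      rw [fact N w x (fun j => hb (x j)), fact N w (fun i => hb (x i)) x,
        fact N w x (fun j => xiH (x j)), fact N w (fun i => xiH (x i)) x,
        fact N w (fun _ => 1) (fun j => xiH (x j)), fact N w (fun i => xiH (x i)) (fun _ => 1),
        fact N w (fun i => om (x i)) (fun j => nH (x j)),
        fact N w (fun i => nH (x i)) (fun j => om (x j)),
        fact N w (fun _ => 1) (fun j => nH (x j)), fact N w (fun i => nH (x i)) (fun _ => 1), hW1]
    have hstrict : 17 / 16 * W * H <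
        ∑ i ∈ N, ∑ j ∈ N, w i * w j * (hb (x i * x j) + 1 * (433 / 10000) * Gk (x i) (x j)) := by
      have hP : 0 < 17 / 16 * H - 433 / 10000 * Ξ := by
        have e1 : 17 / 16 * H - 433 / 10000 * Ξ =
            ∑ i ∈ N, w i * (17 / 16 * hb (x i) - 433 / 10000 * xiH (x i)) := by
          rw [hH, hΞ, Finset.mul_sum, Finset.mul_sum, ← Finset.sum_sub_distrib]
          refine Finset.sum_congr rfl fun i _ => ?_
          ring
        rw [e1]
        obtain ⟨i, hi, hwi⟩ : ∃ i ∈ N, 0 < w i := by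
          by_contra hcon
          push Not at hcon
          have : W ≤ 0 := Finset.sum_nonpos hcon
          linarith
        exact Finset.sum_pos' (fun i hi => mul_nonneg (hw i hi) (pw (hx0 i hi) (hx1 i hi)).le)
          ⟨i, hi, mul_pos hwi (pw (hx0 i hi) (hx1 i hi))⟩
      have hA : 0 < (X - 617 / 1000 * W) * (17 / 16 * H - 433 / 10000 * Ξ) :=
        mul_pos (by linarith) hP
      have hB : 0 ≤ (Om - 3 / 50 * W) * Nn := mul_nonneg (by linarith) hN0
      rw [hid] at hsum
      nlinarith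
    exact ⟨1, Or.inr rfl, hstrict.le, fun _ => hstrict⟩
  · -- small spread
    push Not at hc
    have hsum : ∑ i ∈ N, ∑ j ∈ N, w i * w j *
        (1771 / 2000 * (x i * hb (x j) + x j * hb (x i))) ≤ ∑ i ∈ N, ∑ j ∈ N, w i * w j *
        (hb (x i * x j) + 1 / 4 * (hb (x i) * om (x j) + hb (x j) * om (x i))) :=
      Finset.sum_le_sum fun i hi => Finset.sum_le_sum fun j hj =>
        mul_le_mul_of_nonneg_left (TB (hx0 i hi) (hx1 i hi) (hx0 j hj) (hx1 j hj))
          (mul_nonneg (hw i hi) (hw j hj))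
    have e1 : ∑ i ∈ N, ∑ j ∈ N, w i * w j * (1771 / 2000 * (x i * hb (x j) + x j * hb (x i))) =
        1771 / 2000 * (X * H + H * X) := by
      have e : ∀ i j, w i * w j * (1771 / 2000 * (x i * hb (x j) + x j * hb (x i))) =
          1771 / 2000 * (w i * w j * (x i * hb (x j)) + w i * w j * (hb (x i) * x j)) := by
        intro i j
        ring
      simp_rw [e]
      simp only [Finset.sum_add_distrib, ← Finset.mul_sum]
      rw [fact N w x (fun j => hb (x j)), fact N w (fun i => hb (x i)) x]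
    have e2 : ∑ i ∈ N, ∑ j ∈ N, w i * w j *
        (hb (x i * x j) + 1 / 4 * (hb (x i) * om (x j) + hb (x j) * om (x i))) =
        (∑ i ∈ N, ∑ j ∈ N, w i * w j * (hb (x i * x j) + 0 * (433 / 10000) * Gk (x i) (x j))) +
          1 / 4 * (H * Om + Om * H) := by
      have e : ∀ i j, w i * w j *
          (hb (x i * x j) + 1 / 4 * (hb (x i) * om (x j) + hb (x j) * om (x i))) =
          w i * w j * (hb (x i * x j) + 0 * (433 / 10000) * Gk (x i) (x j)) +
          1 / 4 * (w i * w j * (hb (x i) * om (x j)) + w i * w j * (om (x i) * hb (x j))) := by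
        intro i j
        ring
      simp_rw [e]
      simp only [Finset.sum_add_distrib, ← Finset.mul_sum]
      rw [fact N w (fun i => hb (x i)) (fun j => om (x j)),
        fact N w (fun i => om (x i)) (fun j => hb (x j))]
    rw [e1, e2] at hsum
    refine ⟨0, Or.inl rfl, ?_, ?_⟩
    · have h1 : 0 ≤ (X - 617 / 1000 * W) * H := mul_nonneg (by linarith) hH0
      have h2 : 0 ≤ (3 / 50 * W - Om) * H := mul_nonneg (by linarith) hH0
      have h3 : 0 ≤ W * H := mul_nonneg hW0 hH0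
      nlinarith
    · intro hHp
      have h1 : 0 < (X - 617 / 1000 * W) * H := mul_pos (by linarith) hHp
      have h2 : 0 < (3 / 50 * W - Om) * H := mul_pos (by linarith) hHp
      have h3 : 0 < W * H := mul_pos hWpos hHp
      nlinarith

end Pool.Agent.H724R2.UCT08
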