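import Mathlib
import Pool.Agent.H326R2.Pi.Stmts

/-! Task T9 of h326 (irrationality measure of `π`): the coefficient of `π`. -/

open Polynomial

namespace Pool.Agent.H724R2.PiT9

open Pool.Agent.H326R2.Pi

/-- homogenised evaluation -/
lemma Hom_eval (P a y : ℚ[X]) (d : ℕ) (hd : P.natDegree ≤ d) (x : ℚ) (hx : y.eval x ≠ 0) :
    (Hom a y d P).eval x = P.eval (a.eval x / y.eval x) * (y.eval x) ^ d := by
  rw [Polynomial.eval_eq_sum_range' (Nat.lt_succ_of_le hd), Finset.sum_mul, Hom,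
    Polynomial.eval_finsetSum]
  apply Finset.sum_congr rfl
  intro j hj
  have hj' : j ≤ d := by
    have := Finset.mem_range.mp hj; omega
  rw [div_pow]
  have : (y.eval x) ^ d = (y.eval x) ^ j * (y.eval x) ^ (d - j) := by rw [← pow_add]; congr 1; omega
  rw [this]
  simp only [eval_mul, eval_C, eval_pow]
  field_simp

/-- numerator in the `x`-plane -/
noncomputable def Num (n : ℕ) : ℚ[X] := (X ^ 2 - 2 * X + 2) ^ (3 * n) * (X ^ 2 - 3 * X + 2) ^ (5 * n)

lemma natDegree_PP (n : ℕ) : (PP ℚ n).natDegree ≤ 8 * n := by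
  unfold PP
  refine natDegree_mul_le.trans ?_
  have h1 : ((X - 2 : ℚ[X]) ^ (3 * n)).natDegree ≤ 3 * n * 1 := by
    refine natDegree_pow_le.trans ?_
    have : (X - 2 : ℚ[X]).natDegree ≤ 1 := by compute_degree
    gcongr
  have h2 : ((X - 3 : ℚ[X]) ^ (5 * n)).natDegree ≤ 5 * n * 1 := by
    refine natDegree_pow_le.trans ?_
    have : (X - 3 : ℚ[X]).natDegree ≤ 1 := by compute_degree
    gcongr
  omega

lemma natDegree_rhs (n : ℕ) (k : ℚ) :
    (PP ℚ n - C k * (X ^ 2 - 8) ^ (2 * n)).natDegree ≤ 8 * n := by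
  refine (natDegree_sub_le _ _).trans (max_le (natDegree_PP n) ?_)
  refine (natDegree_C_mul_le _ _).trans ?_
  have h1 : ((X ^ 2 - 8 : ℚ[X]) ^ (2 * n)).natDegree ≤ 2 * n * 2 := by
    refine natDegree_pow_le.trans ?_
    have : (X ^ 2 - 8 : ℚ[X]).natDegree ≤ 2 := by compute_degree
    gcongr
  omega

lemma Hom_rhs (n : ℕ) (k : ℚ) :
    Hom (X ^ 2 + 2) X (8 * n) (PP ℚ n - C k * (X ^ 2 - 8) ^ (2 * n)) =
      Num n - C k * (X ^ 2 - 2) ^ (4 * n) * X ^ (4 * n) := by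
  apply Polynomial.eq_of_infinite_eval_eq
  apply Set.Infinite.mono (s := {x : ℚ | x ≠ 0})
  · intro x hx
    have hx0 : x ≠ 0 := hx
    simp only [Set.mem_ofPred_eq]
    rw [Hom_eval _ _ _ _ (natDegree_rhs n k) x (by simpa using hx0)]
    simp only [PP, Num, eval_sub, eval_mul, eval_pow, eval_X, eval_ofNat, eval_C, eval_add]
    have p1 : x ^ (8 * n) = x ^ (3 * n) * x ^ (5 * n) := by rw [← pow_add]; congr 1; ring
    have p2 : x ^ (8 * n) = (x ^ 2) ^ (2 * n) * x ^ (4 * n) := by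
      rw [← pow_mul, ← pow_add]; congr 1; ring
    have p3 : ((x ^ 2 - 2) ^ (4 * n) : ℚ) = ((x ^ 2 - 2) ^ 2) ^ (2 * n) := by
      rw [← pow_mul]; congr 1; ring
    have q1 : ((x ^ 2 + 2) / x - 2) * x = x ^ 2 - 2 * x + 2 := by field_simp; ring
    have q2 : ((x ^ 2 + 2) / x - 3) * x = x ^ 2 - 3 * x + 2 := by field_simp; ring
    have q3 : (((x ^ 2 + 2) / x) ^ 2 - 8) * x ^ 2 = (x ^ 2 - 2) ^ 2 := by field_simp; ring
    calc (((x ^ 2 + 2) / x - 2) ^ (3 * n) * ((x ^ 2 + 2) / x - 3) ^ (5 * n) -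
          k * (((x ^ 2 + 2) / x) ^ 2 - 8) ^ (2 * n)) * x ^ (8 * n)
        = (((x ^ 2 + 2) / x - 2) ^ (3 * n) * ((x ^ 2 + 2) / x - 3) ^ (5 * n)) * x ^ (8 * n) -
          k * (((x ^ 2 + 2) / x) ^ 2 - 8) ^ (2 * n) * x ^ (8 * n) := by ring
      _ = (((x ^ 2 + 2) / x - 2) ^ (3 * n) * ((x ^ 2 + 2) / x - 3) ^ (5 * n)) * (x ^ (3 * n) * x ^ (5 * n)) -
          k * (((x ^ 2 + 2) / x) ^ 2 - 8) ^ (2 * n) * ((x ^ 2) ^ (2 * n) * x ^ (4 * n)) := by
          rw [← p1, ← p2]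
      _ = (((x ^ 2 + 2) / x - 2) * x) ^ (3 * n) * (((x ^ 2 + 2) / x - 3) * x) ^ (5 * n) -
          k * ((((x ^ 2 + 2) / x) ^ 2 - 8) * x ^ 2) ^ (2 * n) * x ^ (4 * n) := by
          rw [mul_pow, mul_pow, mul_pow]; ring
      _ = _ := by rw [q1, q2, q3, p3]
  · exact (Set.finite_singleton (0 : ℚ)).infinite_compl

lemma geo2_mul (R : Type*) [CommRing R] :
    geo2 R * (1 - 2 * PowerSeries.X ^ 2) = 1 := by
  ext i
  have h2 : geo2 R * (1 - 2 * PowerSeries.X ^ 2) = geo2 R - (2 : ℕ) • (geo2 R * PowerSeries.X ^ 2) := by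
    rw [nsmul_eq_mul]; push_cast; ring
  rw [h2, map_sub, map_nsmul]
  rcases lt_or_ge i 2 with hi | hi
  · rw [PowerSeries.coeff_mul_X_pow', if_neg (by omega)]
    interval_cases i
    · simp [geo2]
    · simp [geo2]
  · obtain ⟨j, rfl⟩ := Nat.exists_eq_add_of_le hi
    rw [PowerSeries.coeff_mul_X_pow', if_pos hi]
    have e0 : 2 + j - 2 = j := by omega
    rw [e0, PowerSeries.coeff_one, if_neg (by omega)]
    simp only [geo2, PowerSeries.coeff_mk]
    by_cases hj : Even j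
    · have hj2 : Even (2 + j) := by rw [Nat.even_add]; simp [hj]
      rw [if_pos hj, if_pos hj2]
      have e1 : (2 + j) / 2 = j / 2 + 1 := by omega
      rw [e1, pow_succ, nsmul_eq_mul]
      push_cast
      ring
    · have hj2 : ¬ Even (2 + j) := by rw [Nat.even_add]; simp [hj]
      rw [if_neg hj, if_neg hj2]
      simp

lemma geo2_map {R S : Type*} [CommRing R] [CommRing S] (f : R →+* S) :
    PowerSeries.map f (geo2 R) = geo2 S := by
  ext i
  simp only [geo2, PowerSeries.coeff_map, PowerSeries.coeff_mk]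
  split_ifs
  · rw [map_pow, map_ofNat]
  · simp

lemma GG_map {R S : Type*} [CommRing R] [CommRing S] (f : R →+* S) (n : ℕ) :
    PowerSeries.map f (GG R n) = GG S n := by
  rw [GG, GG, map_mul, map_pow, geo2_map]
  congr 1
  rw [← Polynomial.polynomial_map_coe]
  simp

lemma coeff_GG (n : ℕ) : PowerSeries.coeff (4 * n) (GG ℚ n) = (kk n : ℚ) := by
  rw [← GG_map (Int.castRingHom ℚ), PowerSeries.coeff_map]; rfl

/-- the inverse of `X² - 2` -/
noncomputable def be : PowerSeries ℚ := ((X ^ 2 - 2 : ℚ[X]) : PowerSeries ℚ)⁻¹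

lemma coe_b : ((X ^ 2 - 2 : ℚ[X]) : PowerSeries ℚ) = PowerSeries.X ^ 2 - 2 := by
  rw [Polynomial.coe_sub, Polynomial.coe_pow, Polynomial.coe_X,
    show (2 : ℚ[X]) = C 2 from rfl, Polynomial.coe_C]
  rfl

lemma b_mul_be : (PowerSeries.X ^ 2 - 2 : PowerSeries ℚ) * be = 1 := by
  unfold be
  rw [← coe_b]
  apply PowerSeries.mul_inv_cancel
  rw [coe_b]
  simp only [map_sub, map_pow, PowerSeries.constantCoeff_X, map_ofNat]
  norm_num

lemma two_coe : ((2 : ℚ[X]) : PowerSeries ℚ) = 2 := by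
  rw [show (2 : ℚ[X]) = C 2 from rfl, Polynomial.coe_C]; rfl

lemma deriv_be : PowerSeries.derivative ℚ be = -(2 * PowerSeries.X) * be ^ 2 := by
  have h := congrArg (PowerSeries.derivative ℚ) b_mul_be
  have hb : PowerSeries.derivative ℚ (PowerSeries.X ^ 2 - 2 : PowerSeries ℚ) = 2 * PowerSeries.X := by
    rw [← coe_b, PowerSeries.derivative_coe]
    simp only [derivative_sub, derivative_X_pow, derivative_ofNat]
    rw [sub_zero]
    simp [map_ofNat, two_coe]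
  rw [Derivation.leibniz, hb] at h
  simp only [smul_eq_mul, Derivation.map_one_eq_zero] at h
  have hb2 := b_mul_be
  linear_combination be * h - (PowerSeries.derivative ℚ be) * hb2

lemma coeNat (j : ℕ) : (((j : ℕ) : ℚ[X]) : PowerSeries ℚ) = (j : PowerSeries ℚ) :=
  map_natCast (Polynomial.coeToPowerSeries.ringHom) j

lemma main_id (hH : S_hom) (n : ℕ) (hn : 0 < n) (k : ℤ) (Ψ : ℚ[X]) (hS : Sol n k Ψ)
    (hd : Ψ.natDegree ≤ 8 * n - 1) :
    PowerSeries.coeff (4 * n) ((Num n : PowerSeries ℚ) * be ^ (4 * n)) = (k : ℚ) := by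
  set F : ℚ[X] := Hom (X ^ 2 + 2) X (8 * n - 1) Ψ with hF
  have h1 := hH ℚ (X ^ 2 + 2) X (X ^ 2 - 2) (by ring)
    (by
      have c2 : (C (2 : ℚ)) = (2 : ℚ[X]) := map_ofNat C 2
      simp only [derivative_add, derivative_X_pow, derivative_ofNat, derivative_X, Nat.cast_ofNat, c2]
      ring)
    (2 * n) (8 * n - 1) Ψ hd
  have e0 : 8 * n - 1 + 1 = 8 * n := by omega
  rw [e0, hS, Hom_rhs, ← hF] at h1
  simp only [derivative_X, mul_one, one_mul] at h1
  -- transfer to power series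
  have h2 := congrArg (fun P : ℚ[X] => (P : PowerSeries ℚ)) h1
  obtain ⟨m, hm⟩ : ∃ m, 4 * n = m + 1 := ⟨4 * n - 1, by omega⟩
  set f : PowerSeries ℚ := (F : PowerSeries ℚ) with hf
  have hf' : ((derivative F : ℚ[X]) : PowerSeries ℚ) = PowerSeries.derivative ℚ f := by
    rw [hf, PowerSeries.derivative_coe]
  have c8 : (((8 * n - 1 : ℕ) : ℚ[X]) : PowerSeries ℚ) = 2 * (m : PowerSeries ℚ) + 1 := by
    have : 8 * n - 1 = 2 * m + 1 := by omega
    rw [this, coeNat]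
    push_cast
    ring
  have c4 : ((2 * (((2 * n : ℕ) : ℚ[X])) - 1 : ℚ[X]) : PowerSeries ℚ) = (m : PowerSeries ℚ) := by
    have : (2 * (((2 * n : ℕ) : ℚ[X])) - 1 : ℚ[X]) = (m : ℚ[X]) := by
      have : 2 * (2 * n) = m + 1 := by omega
      have h3 : ((2 * (2 * n) : ℕ) : ℚ[X]) = ((m + 1 : ℕ) : ℚ[X]) := by rw [this]
      push_cast at h3 ⊢
      linear_combination h3
    rw [this, coeNat]
  have h3 : (PowerSeries.X ^ 2 - 2) * (PowerSeries.X * PowerSeries.derivative ℚ f -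
      (2 * (m : PowerSeries ℚ) + 1) * f) =
      (Num n : PowerSeries ℚ) - PowerSeries.C (k : ℚ) * (PowerSeries.X ^ 2 - 2) ^ (4 * n) * PowerSeries.X ^ (4 * n)
      + (m : PowerSeries ℚ) * (PowerSeries.X ^ 2 + 2) * f := by
    have h4 := h2
    simp only [Polynomial.coe_mul, Polynomial.coe_sub, Polynomial.coe_add, Polynomial.coe_pow,
      Polynomial.coe_X, Polynomial.coe_C] at h4
    simp only [Polynomial.coe_mul, Polynomial.coe_sub, Polynomial.coe_one] at c4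
    have two : ((2 : ℚ[X]) : PowerSeries ℚ) = 2 := by
      rw [show (2 : ℚ[X]) = C 2 from rfl, Polynomial.coe_C]; rfl
    rw [hf', c8, ← hf, two] at h4
    rw [two] at c4
    rw [Polynomial.coe_one] at h4
    rw [c4] at h4
    exact h4
  set B : PowerSeries ℚ := f * be ^ m with hB
  have hBd : PowerSeries.derivative ℚ B = PowerSeries.derivative ℚ f * be ^ m -
      (m : PowerSeries ℚ) * (2 * PowerSeries.X) * f * be ^ (m + 1) := by
    rw [hB, Derivation.leibniz, Derivation.leibniz_pow, deriv_be]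
    simp only [smul_eq_mul, nsmul_eq_mul]
    rcases Nat.eq_zero_or_pos m with h0 | h0
    · subst h0; simp
    · obtain ⟨m', rfl⟩ : ∃ m', m = m' + 1 := ⟨m - 1, by omega⟩
      simp only [Nat.add_sub_cancel]
      ring
  have hG : (Num n : PowerSeries ℚ) * be ^ (4 * n) =
      PowerSeries.C (k : ℚ) * PowerSeries.X ^ (4 * n) + PowerSeries.X * PowerSeries.derivative ℚ B -
        ((4 * n : ℕ) : PowerSeries ℚ) * B := by
    have hb := b_mul_be
    have hbp : (PowerSeries.X ^ 2 - 2 : PowerSeries ℚ) ^ (4 * n) * be ^ (4 * n) = 1 := by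
      rw [← mul_pow, hb, one_pow]
    rw [hBd, hB]
    have h5 : (Num n : PowerSeries ℚ) = (PowerSeries.X ^ 2 - 2) * (PowerSeries.X * PowerSeries.derivative ℚ f -
      (2 * (m : PowerSeries ℚ) + 1) * f) + PowerSeries.C (k : ℚ) * (PowerSeries.X ^ 2 - 2) ^ (4 * n) *
        PowerSeries.X ^ (4 * n) - (m : PowerSeries ℚ) * (PowerSeries.X ^ 2 + 2) * f := by
      rw [h3]; ring
    rw [h5]
    have e1 : PowerSeries.C (k : ℚ) * (PowerSeries.X ^ 2 - 2) ^ (4 * n) * PowerSeries.X ^ (4 * n) * be ^ (4 * n)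
        = PowerSeries.C (k : ℚ) * PowerSeries.X ^ (4 * n) := by
      linear_combination (PowerSeries.C (k : ℚ) * PowerSeries.X ^ (4 * n)) * hbp
    have e2 : (be : PowerSeries ℚ) ^ (4 * n) = be ^ m * be := by rw [hm, pow_succ]
    have hmm : (m : PowerSeries ℚ) + 1 = ((4 * n : ℕ) : PowerSeries ℚ) := by rw [hm]; push_cast; ring
    rw [sub_mul, add_mul, e1, e2, ← hmm, pow_succ]
    linear_combination (be ^ m * (PowerSeries.X * PowerSeries.derivative ℚ f -
      (2 * (m : PowerSeries ℚ) + 1) * f) + (m : PowerSeries ℚ) * f * be ^ m) * hb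
  rw [hG, map_sub, map_add, PowerSeries.coeff_C_mul, PowerSeries.coeff_X_pow, if_pos rfl]
  have h6 : PowerSeries.coeff (4 * n) (PowerSeries.X * PowerSeries.derivative ℚ B) =
      ((4 * n : ℕ) : ℚ) * PowerSeries.coeff (4 * n) B := by
    rw [hm, PowerSeries.coeff_succ_X_mul, PowerSeries.coeff_derivative]
    push_cast
    ring
  have h7 : PowerSeries.coeff (4 * n) (((4 * n : ℕ) : PowerSeries ℚ) * B) =
      ((4 * n : ℕ) : ℚ) * PowerSeries.coeff (4 * n) B := by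
    rw [← nsmul_eq_mul, map_nsmul, nsmul_eq_mul]
  rw [h6, h7]
  ring

lemma rescale_be : PowerSeries.rescale (-2 : ℚ) be = PowerSeries.C (-1 / 2 : ℚ) * geo2 ℚ := by
  have h := congrArg (PowerSeries.rescale (-2 : ℚ)) b_mul_be
  rw [map_mul, map_sub, map_pow, PowerSeries.rescale_X, map_one, map_ofNat] at h
  have hg := geo2_mul ℚ
  have e : (PowerSeries.C (-2 : ℚ) * PowerSeries.X) ^ 2 - 2 = PowerSeries.C (-2 : ℚ) * (1 - 2 * PowerSeries.X ^ 2) := by
    have e1 : (PowerSeries.C (-2 : ℚ)) = (-2 : PowerSeries ℚ) := by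
      rw [map_neg, map_ofNat]
    rw [e1]
    ring
  rw [e] at h
  have e2 : (PowerSeries.C (-1 / 2 : ℚ)) * PowerSeries.C (-2 : ℚ) = 1 := by
    rw [← map_mul]; norm_num
  linear_combination (-(PowerSeries.rescale (-2 : ℚ) be)) * hg + PowerSeries.C (-1 / 2 : ℚ) * geo2 ℚ * h
    - (geo2 ℚ * (1 - 2 * PowerSeries.X ^ 2) * PowerSeries.rescale (-2 : ℚ) be) * e2

lemma rescale_Num (n : ℕ) : PowerSeries.rescale (-2 : ℚ) (Num n : PowerSeries ℚ) =
    PowerSeries.C ((2 : ℚ) ^ (8 * n)) *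
      (((1 + 2 * X + 2 * X ^ 2) ^ (3 * n) * (1 + 3 * X + 2 * X ^ 2) ^ (5 * n) : ℚ[X]) : PowerSeries ℚ) := by
  have two : ((2 : ℚ[X]) : PowerSeries ℚ) = 2 := by
    rw [show (2 : ℚ[X]) = C 2 from rfl, Polynomial.coe_C]; rfl
  have three : ((3 : ℚ[X]) : PowerSeries ℚ) = 3 := by
    rw [show (3 : ℚ[X]) = C 3 from rfl, Polynomial.coe_C]; rfl
  unfold Num
  simp only [Polynomial.coe_mul, Polynomial.coe_sub, Polynomial.coe_add, Polynomial.coe_pow,
      Polynomial.coe_X, Polynomial.coe_one, two, three]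
  simp only [map_mul, map_pow, map_add, map_sub, PowerSeries.rescale_X, map_ofNat]
  have e1 : (PowerSeries.C (-2 : ℚ)) = (-2 : PowerSeries ℚ) := by
    rw [map_neg, map_ofNat]
  have p1 : ((PowerSeries.C (-2 : ℚ) * PowerSeries.X) ^ 2 - 2 * (PowerSeries.C (-2 : ℚ) * PowerSeries.X) + 2) =
    2 * (1 + 2 * PowerSeries.X + 2 * PowerSeries.X ^ 2) := by rw [e1]; ring
  have p2 : ((PowerSeries.C (-2 : ℚ) * PowerSeries.X) ^ 2 - 3 * (PowerSeries.C (-2 : ℚ) * PowerSeries.X) + 2) =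
    2 * (1 + 3 * PowerSeries.X + 2 * PowerSeries.X ^ 2) := by rw [e1]; ring
  rw [p1, p2, mul_pow, mul_pow]
  have p3 : (2 : PowerSeries ℚ) ^ (8 * n) = 2 ^ (3 * n) * 2 ^ (5 * n) := by
    rw [← pow_add]; congr 1; ring
  rw [p3]
  ring

theorem T9 (hH : S_hom) : S_k := by
  intro n hn k Ψ hS hd
  have h1 := main_id hH n hn k Ψ hS hd
  have h2 : PowerSeries.coeff (4 * n) (PowerSeries.rescale (-2 : ℚ) ((Num n : PowerSeries ℚ) * be ^ (4 * n))) =
      (-2 : ℚ) ^ (4 * n) * (k : ℚ) := by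
    rw [PowerSeries.coeff_rescale, h1]
  have h3 : PowerSeries.rescale (-2 : ℚ) ((Num n : PowerSeries ℚ) * be ^ (4 * n)) =
      PowerSeries.C ((2 : ℚ) ^ (8 * n) * (-1 / 2) ^ (4 * n)) * GG ℚ n := by
    rw [map_mul, map_pow, rescale_be, rescale_Num, GG, mul_pow, map_mul]
    simp only [map_pow]
    ring
  rw [h3, PowerSeries.coeff_C_mul, coeff_GG] at h2
  have h4 : (2 : ℚ) ^ (8 * n) * (-1 / 2) ^ (4 * n) = 16 ^ n := by
    rw [pow_mul, pow_mul, ← mul_pow]; norm_num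
  have h5 : (-2 : ℚ) ^ (4 * n) = 16 ^ n := by
    rw [pow_mul]; norm_num
  rw [h4, h5] at h2
  have h6 : (kk n : ℚ) = (k : ℚ) := mul_left_cancel₀ (pow_ne_zero _ (by norm_num)) h2
  exact_mod_cast h6.symm

end Pool.Agent.H724R2.PiT9
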