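import Mathlib
import Pool.Agent.H410R2.ACIface

/-!
Equidistribution of a product of local factors (Chinese remainder theorem), task AC2.
-/

set_option autoImplicit false

open Finset

namespace Pool.Agent.H724R2.ACEqui

open Pool.Agent.H410R2.AC

theorem crt_sum {a b : ℕ} (h : Nat.Coprime a b) (ha : 0 < a) (hb : 0 < b) (f g : ℕ → ℝ)
    (hf : ∀ m, f m = f (m % a)) (hg : ∀ m, g m = g (m % b)) :
    ∑ m ∈ range (a * b), f m * g m = (∑ x ∈ range a, f x) * ∑ y ∈ range b, g y := by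
  rw [Finset.sum_mul_sum, ← Finset.sum_product']
  refine Finset.sum_nbij' (fun m => (m % a, m % b))
    (fun q => (Nat.chineseRemainder h q.1 q.2 : ℕ)) ?_ ?_ ?_ ?_ ?_
  · intro m _
    simp only [Finset.mem_product, Finset.mem_range]
    exact ⟨Nat.mod_lt _ ha, Nat.mod_lt _ hb⟩
  · rintro ⟨x, y⟩ _
    simp only [Finset.mem_range]
    exact Nat.chineseRemainder_lt_mul h _ _ ha.ne' hb.ne'
  · intro m hm
    simp only [Finset.mem_range] at hm
    have h1 := (Nat.chineseRemainder h (m % a) (m % b)).2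
    have h2 : (Nat.chineseRemainder h (m % a) (m % b) : ℕ) ≡ m [MOD a] :=
      h1.1.trans (Nat.mod_modEq m a)
    have h3 : (Nat.chineseRemainder h (m % a) (m % b) : ℕ) ≡ m [MOD b] :=
      h1.2.trans (Nat.mod_modEq m b)
    have h4 := (Nat.modEq_and_modEq_iff_modEq_mul h).mp ⟨h2, h3⟩
    exact Nat.ModEq.eq_of_lt_of_lt h4 (Nat.chineseRemainder_lt_mul h _ _ ha.ne' hb.ne') hm
  · rintro ⟨x, y⟩ hxy
    simp only [Finset.mem_product, Finset.mem_range] at hxy
    have h1 := (Nat.chineseRemainder h x y).2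
    have h2 : (Nat.chineseRemainder h x y : ℕ) % a = x := by
      have := h1.1
      unfold Nat.ModEq at this
      rw [this, Nat.mod_eq_of_lt hxy.1]
    have h3 : (Nat.chineseRemainder h x y : ℕ) % b = y := by
      have := h1.2
      unfold Nat.ModEq at this
      rw [this, Nat.mod_eq_of_lt hxy.2]
    simp only [h2, h3]
  · intro m _
    simp only
    rw [← hf, ← hg]

theorem prod_periodic (D : Finset ℕ) (h : ℕ → ℕ → ℝ) (hper : ∀ p ∈ D, ∀ m, h p m = h p (m % p))
    (n : ℕ) (hn : ∀ p ∈ D, p ∣ n) (m : ℕ) : ∏ p ∈ D, h p m = ∏ p ∈ D, h p (m % n) := by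
  refine Finset.prod_congr rfl fun p hp => ?_
  rw [hper p hp m, hper p hp (m % n), Nat.mod_mod_of_dvd _ (hn p hp)]

theorem block_sum (D : Finset ℕ) (hD : ∀ p ∈ D, p.Prime) (h : ℕ → ℕ → ℝ)
    (hper : ∀ p ∈ D, ∀ m, h p m = h p (m % p)) :
    ∑ m ∈ range (∏ p ∈ D, p), ∏ p ∈ D, h p m = ∏ p ∈ D, ∑ x ∈ range p, h p x := by
  induction D using Finset.induction_on with
  | empty => simp
  | insert q D hq ih =>
    rw [Finset.prod_insert hq, Finset.prod_insert hq]
    have hD' : ∀ p ∈ D, p.Prime := fun p hp => hD p (Finset.mem_insert_of_mem hp)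
    have hqp := hD q (Finset.mem_insert_self _ _)
    have hcop : Nat.Coprime q (∏ p ∈ D, p) := by
      apply Nat.Coprime.prod_right
      intro p hp
      rw [Nat.coprime_primes hqp (hD' p hp)]
      rintro rfl
      exact hq hp
    have e : ∀ m, ∏ p ∈ insert q D, h p m = h q m * ∏ p ∈ D, h p m := fun m =>
      Finset.prod_insert hq
    simp only [e]
    rw [crt_sum hcop hqp.pos (Finset.prod_pos fun p hp => (hD' p hp).pos) (h q)
      (fun m => ∏ p ∈ D, h p m) (hper q (Finset.mem_insert_self _ _))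
      (fun m => prod_periodic D h (fun p hp => hper p (Finset.mem_insert_of_mem hp)) _
        (fun p hp => Finset.dvd_prod_of_mem _ hp) m)]
    rw [ih hD' (fun p hp => hper p (Finset.mem_insert_of_mem hp))]

theorem per_sum {n : ℕ} (f : ℕ → ℝ) (hf : ∀ m, f m = f (m % n)) (k r : ℕ) :
    ∑ m ∈ range (n * k + r), f m = k * ∑ x ∈ range n, f x + ∑ m ∈ range r, f m := by
  induction k with
  | zero => simp
  | succ k ih =>
    have e : n * (k + 1) + r = n + (n * k + r) := by ring
    rw [e, Finset.sum_range_add]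
    have e2 : ∀ m, f (n + m) = f m := by
      intro m
      rw [hf (n + m), hf m, Nat.add_mod_left]
    simp only [e2]
    rw [ih]
    push_cast
    ring

theorem per_bound {n : ℕ} (hn : 0 < n) (f : ℕ → ℝ) (hf : ∀ m, f m = f (m % n)) {M : ℝ}
    (hM : ∀ m, |f m| ≤ M) (X : ℕ) :
    |∑ m ∈ range X, f m - X * ((∑ x ∈ range n, f x) / n)| ≤ 2 * (n * M) := by
  have hM0 : 0 ≤ M := (abs_nonneg _).trans (hM 0)
  have hn' : (0 : ℝ) < n := by exact_mod_cast hn
  have h1 := per_sum f hf (X / n) (X % n)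
  rw [Nat.div_add_mod] at h1
  have h2 : |∑ m ∈ range (X % n), f m| ≤ n * M := by
    refine (Finset.abs_sum_le_sum_abs _ _).trans ?_
    refine (Finset.sum_le_sum fun m _ => hM m).trans ?_
    rw [Finset.sum_const, card_range, nsmul_eq_mul]
    apply mul_le_mul_of_nonneg_right _ hM0
    exact_mod_cast (Nat.mod_lt X hn).le
  have h3 : |∑ x ∈ range n, f x| ≤ n * M := by
    refine (Finset.abs_sum_le_sum_abs _ _).trans ?_
    refine (Finset.sum_le_sum fun m _ => hM m).trans ?_
    rw [Finset.sum_const, card_range, nsmul_eq_mul]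
  have h4 : (X : ℝ) = n * (X / n : ℕ) + (X % n : ℕ) := by
    exact_mod_cast (Nat.div_add_mod X n).symm
  have h5 : ∑ m ∈ range X, f m - X * ((∑ x ∈ range n, f x) / n) =
      ∑ m ∈ range (X % n), f m - (X % n : ℕ) / n * ∑ x ∈ range n, f x := by
    rw [h1, h4]
    field_simp
    ring
  rw [h5]
  have h6 : |((X % n : ℕ) : ℝ) / n * ∑ x ∈ range n, f x| ≤ 1 * (n * M) := by
    rw [abs_mul]
    apply mul_le_mul _ h3 (abs_nonneg _) zero_le_one
    rw [abs_of_nonneg (by positivity), div_le_one hn']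
    exact_mod_cast (Nat.mod_lt X hn).le
  calc _ ≤ |∑ m ∈ range (X % n), f m| + |((X % n : ℕ) : ℝ) / n * ∑ x ∈ range n, f x| := abs_sub _ _
    _ ≤ n * M + 1 * (n * M) := add_le_add h2 h6
    _ = _ := by ring

theorem psi_per (ρ : ℕ → ℕ → ℕ) (p : ℕ) (o : Option ℕ) (m : ℕ) :
    psi ρ p o m = psi ρ p o (m % p) := by
  unfold psi
  cases o with
  | none => rfl
  | some a => simp only [Nat.mod_mod]

theorem psi_abs (ρ : ℕ → ℕ → ℕ) {p : ℕ} (hp : 1 ≤ p) (o : Option ℕ) (m : ℕ) :
    |psi ρ p o m| ≤ p := by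
  have hp' : (1 : ℝ) ≤ p := by exact_mod_cast hp
  unfold psi
  cases o with
  | none => simpa using hp'
  | some a =>
    simp only
    split_ifs
    · rw [abs_le]; constructor <;> linarith
    · simpa using hp'

end Pool.Agent.H724R2.ACEqui

namespace Pool.Agent.H724R2

open ACEqui Pool.Agent.H410R2.AC

theorem equi : Equi := by
  classical
  intro T _ P ρ σ σ' R R' hP hR hR' X
  set h : ℕ → ℕ → ℝ := fun p m => (∏ τ ∈ Finset.univ.filter (fun τ => p ∈ R τ), psi ρ p (σ τ) m) *
    ∏ τ ∈ Finset.univ.filter (fun τ => p ∈ R' τ), psi ρ p (σ' τ) m with hh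
  set N : ℕ → ℕ := fun p => (Finset.univ.filter (fun τ : T => p ∈ R τ)).card +
    (Finset.univ.filter (fun τ : T => p ∈ R' τ)).card with hN
  -- exchange of the products
  have ex : ∀ (S : T → Finset ℕ) (hS : ∀ τ, S τ ⊆ P) (φ : T → ℕ → ℝ),
      ∏ τ, ∏ p ∈ S τ, φ τ p = ∏ p ∈ P, ∏ τ ∈ Finset.univ.filter (fun τ => p ∈ S τ), φ τ p := by
    intro S hS φ
    have e1 : ∀ τ, ∏ p ∈ S τ, φ τ p = ∏ p ∈ P, if p ∈ S τ then φ τ p else 1 := by
      intro τ
      rw [← Finset.prod_filter]
      congr 1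
      ext p
      simp only [Finset.mem_filter]
      exact ⟨fun h => ⟨hS τ h, h⟩, fun h => h.2⟩
    simp only [e1]
    rw [Finset.prod_comm]
    refine Finset.prod_congr rfl fun p _ => ?_
    rw [← Finset.prod_filter]
  set D := P.filter (fun p => N p ≠ 0) with hD
  have hDP : ∀ p ∈ D, p.Prime := fun p hp => hP p (Finset.mem_filter.mp hp).1
  have hout : ∀ p, N p = 0 → ∀ m, h p m = 1 := by
    intro p hp m
    simp only [hN, Nat.add_eq_zero_iff, Finset.card_eq_zero] at hp
    simp only [hh, hp.1, hp.2, Finset.prod_empty, mul_one]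
  have hper : ∀ p ∈ D, ∀ m, h p m = h p (m % p) := by
    intro p _ m
    simp only [hh]
    congr 1
    · exact Finset.prod_congr rfl fun τ _ => psi_per _ _ _ _
    · exact Finset.prod_congr rfl fun τ _ => psi_per _ _ _ _
  have hF : ∀ m, (∏ τ, ∏ p ∈ R τ, psi ρ p (σ τ) m) * (∏ τ, ∏ p ∈ R' τ, psi ρ p (σ' τ) m) =
      ∏ p ∈ D, h p m := by
    intro m
    rw [ex R hR, ex R' hR', ← Finset.prod_mul_distrib]
    rw [hD, Finset.prod_filter]
    refine Finset.prod_congr rfl fun p _ => ?_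
    split_ifs with hc
    · rfl
    · exact hout p (not_not.mp hc) m
  have hE : ∏ p ∈ P, Ep ρ σ σ' R R' p = (∑ m ∈ range (∏ p ∈ D, p), ∏ p ∈ D, h p m) /
      (∏ p ∈ D, p : ℕ) := by
    rw [block_sum D hDP h hper, Nat.cast_prod, ← Finset.prod_div_distrib, hD, Finset.prod_filter]
    refine Finset.prod_congr rfl fun p hp => ?_
    have hp0 : (p : ℝ) ≠ 0 := by
      have := (hP p hp).pos
      positivity
    unfold Ep
    split_ifs with hc
    · rfl
    · have e := hout p (not_not.mp hc)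
      simp only [hh] at e
      simp only [e, Finset.sum_const, card_range, nsmul_eq_mul, mul_one]
      exact div_self hp0
  set Om := (∏ τ, ∏ p ∈ R τ, (p : ℝ)) * ∏ τ, ∏ p ∈ R' τ, (p : ℝ) with hOm
  have hOmeq : Om = ∏ p ∈ D, (p : ℝ) ^ N p := by
    rw [hOm, ex R hR (fun _ p => (p : ℝ)), ex R' hR' (fun _ p => (p : ℝ)),
      ← Finset.prod_mul_distrib, hD, Finset.prod_filter]
    refine Finset.prod_congr rfl fun p _ => ?_
    rw [Finset.prod_const, Finset.prod_const, ← pow_add]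
    split_ifs with hc
    · rfl
    · have : N p = 0 := not_not.mp hc
      simp only [hN] at this
      rw [this, pow_zero]
  have hb : ∀ m, |∏ p ∈ D, h p m| ≤ Om := by
    intro m
    rw [hOmeq, Finset.abs_prod]
    refine Finset.prod_le_prod (fun p _ => abs_nonneg _) fun p hp => ?_
    have hp1 := (hDP p hp).one_le
    simp only [hh, hN]
    rw [abs_mul, pow_add, Finset.abs_prod, Finset.abs_prod]
    refine mul_le_mul ?_ ?_ (Finset.prod_nonneg fun _ _ => abs_nonneg _) (by positivity)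
    · refine (Finset.prod_le_prod (fun τ _ => abs_nonneg _)
        (fun τ _ => psi_abs ρ hp1 (σ τ) m)).trans (le_of_eq ?_)
      rw [Finset.prod_const]
    · refine (Finset.prod_le_prod (fun τ _ => abs_nonneg _)
        (fun τ _ => psi_abs ρ hp1 (σ' τ) m)).trans (le_of_eq ?_)
      rw [Finset.prod_const]
  have hn : 0 < ∏ p ∈ D, p := Finset.prod_pos fun p hp => (hDP p hp).pos
  have hmain := per_bound hn (fun m => ∏ p ∈ D, h p m)
    (fun m => prod_periodic D h hper _ (fun p hp => Finset.dvd_prod_of_mem _ hp) m) hb X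
  simp only [hF]
  rw [hE]
  refine hmain.trans ?_
  have hOm0 : 0 ≤ Om := (abs_nonneg _).trans (hb 0)
  have hprod : ((∏ p ∈ D, p : ℕ) : ℝ) ≤ Om := by
    rw [hOmeq, Nat.cast_prod]
    refine Finset.prod_le_prod (fun p _ => Nat.cast_nonneg _) fun p hp => ?_
    have hp1 : (1 : ℝ) ≤ p := by exact_mod_cast (hDP p hp).one_le
    have hN1 : 1 ≤ N p := Nat.one_le_iff_ne_zero.mpr (Finset.mem_filter.mp hp).2
    calc (p : ℝ) = (p : ℝ) ^ 1 := (pow_one _).symm
      _ ≤ _ := pow_le_pow_right₀ hp1 hN1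
  nlinarith [mul_le_mul_of_nonneg_right hprod hOm0]

end Pool.Agent.H724R2
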