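import Mathlib

set_option autoImplicit false

namespace Pool.Agent.H724R2.EntireF

open Filter Topology

/-- `S n = ∑_{j<n} j m_j` -/
def S : ℕ → ℕ
  | 0 => 0
  | n + 1 => S n + n * (2 * S n + 1)

/-- multiplicities -/
def m (n : ℕ) : ℕ := 2 * S n + 1

theorem S_succ (n : ℕ) : S (n + 1) = S n + n * m n := rfl

def C (n : ℕ) : ℕ := (n + 2) ^ (2 * S n + 2 * n * m n) * (3 * n) ^ (m n)

def Lam (n : ℕ) : ℕ := (n + 1) * C n + n * m n * 2 ^ n + n + 1

/-- the basic radii -/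
def lam : ℕ → ℕ
  | 0 => Lam 0
  | n + 1 => lam n * (n + 3) * Lam (n + 1)

theorem Lam_pos (n : ℕ) : 0 < Lam n := by unfold Lam; omega

theorem lam_pos (n : ℕ) : 0 < lam n := by
  induction n with
  | zero => exact Lam_pos 0
  | succ n ih =>
    show 0 < lam n * (n + 3) * Lam (n + 1)
    have := Lam_pos (n + 1)
    positivity

theorem Lam_le_lam (n : ℕ) : Lam n ≤ lam n := by
  cases n with
  | zero => exact le_rfl
  | succ n =>
    show Lam (n + 1) ≤ lam n * (n + 3) * Lam (n + 1)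
    have := lam_pos n
    apply Nat.le_mul_of_pos_left
    positivity

theorem lam_succ_ge (n : ℕ) : (n + 1) * lam n ≤ lam (n + 1) := by
  show (n + 1) * lam n ≤ lam n * (n + 3) * Lam (n + 1)
  have h1 := Lam_pos (n + 1)
  calc (n + 1) * lam n ≤ lam n * (n + 3) * 1 := by nlinarith [lam_pos n]
    _ ≤ lam n * (n + 3) * Lam (n + 1) := Nat.mul_le_mul_left _ h1

theorem lam_mono {n k : ℕ} (h : n ≤ k) : lam n ≤ lam k := by
  induction k, h using Nat.le_induction with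
  | base => exact le_rfl
  | succ k _ ih =>
    refine ih.trans (le_trans ?_ (lam_succ_ge k))
    nlinarith [lam_pos k]

theorem n_le_lam (n : ℕ) : n ≤ lam n := by
  refine le_trans ?_ (Lam_le_lam n)
  unfold Lam; omega

theorem lam_ge_C (n : ℕ) : (n + 1) * C n ≤ lam n := by
  refine le_trans ?_ (Lam_le_lam n)
  unfold Lam; omega

theorem lam_ge_pow (n : ℕ) : n * m n * 2 ^ n ≤ lam n := by
  refine le_trans ?_ (Lam_le_lam n)
  unfold Lam; omega

/-- the `n`-th block factor -/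
noncomputable def p (n : ℕ) (z : ℂ) : ℂ :=
  (∏ k ∈ Finset.range n, (1 - z ^ 2 / (((k : ℂ) + 1) * lam n) ^ 2)) ^ (m n)

theorem p_diff (n : ℕ) : Differentiable ℂ (p n) := by
  unfold p
  apply Differentiable.pow
  apply Differentiable.fun_finsetProd
  intro k _
  fun_prop

theorem norm_den (n k : ℕ) : ‖(((k : ℂ) + 1) * lam n) ^ 2‖ = (((k : ℝ) + 1) * lam n) ^ 2 := by
  rw [norm_pow, norm_mul]
  congr 2
  · have : ((k : ℂ) + 1) = ((k + 1 : ℝ) : ℂ) := by push_cast; ring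
    rw [this, Complex.norm_real, Real.norm_of_nonneg (by positivity)]
  · simp

theorem lam_posR (n : ℕ) : (0 : ℝ) < lam n := by exact_mod_cast lam_pos n

theorem one_le_lamR (n : ℕ) : (1 : ℝ) ≤ lam n := by exact_mod_cast lam_pos n

theorem norm_term_le (n k : ℕ) (z : ℂ) : ‖z ^ 2 / (((k : ℂ) + 1) * lam n) ^ 2‖ ≤ ‖z‖ ^ 2 / (lam n : ℝ) ^ 2 := by
  rw [norm_div, norm_den, norm_pow]
  have := lam_posR n
  apply div_le_div_of_nonneg_left (by positivity) (by positivity)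
  apply pow_le_pow_left₀ this.le
  nlinarith [(Nat.cast_nonneg k : (0:ℝ) ≤ k)]

theorem norm_p_le_exp (n : ℕ) (z : ℂ) : ‖p n z‖ ≤ Real.exp (2 * (n * m n) * (‖z‖ / lam n)) := by
  unfold p
  rw [norm_pow, norm_prod]
  have h1 : ∀ k ∈ Finset.range n, ‖1 - z ^ 2 / (((k : ℂ) + 1) * lam n) ^ 2‖ ≤ Real.exp (2 * (‖z‖ / lam n)) := by
    intro k _
    have h2 := norm_term_le n k z
    have h3 : ‖1 - z ^ 2 / (((k : ℂ) + 1) * lam n) ^ 2‖ ≤ 1 + ‖z‖ ^ 2 / (lam n : ℝ) ^ 2 := by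
      refine (norm_sub_le _ _).trans ?_
      rw [norm_one]
      linarith
    refine h3.trans ?_
    rw [← div_pow]
    set x := ‖z‖ / (lam n : ℝ) with hx
    have hx0 : 0 ≤ x := by positivity
    have h4 : 1 + x ≤ Real.exp x := by linarith [Real.add_one_le_exp x]
    have h5 : (1 + x) ^ 2 ≤ Real.exp x ^ 2 := pow_le_pow_left₀ (by positivity) h4 2
    rw [← Real.exp_nat_mul] at h5
    push_cast at h5
    nlinarith
  calc (∏ k ∈ Finset.range n, ‖1 - z ^ 2 / (((k : ℂ) + 1) * lam n) ^ 2‖) ^ (m n)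
      ≤ (∏ k ∈ Finset.range n, Real.exp (2 * (‖z‖ / lam n))) ^ (m n) := by
        apply pow_le_pow_left₀ (Finset.prod_nonneg fun _ _ => norm_nonneg _)
        exact Finset.prod_le_prod (fun _ _ => norm_nonneg _) h1
    _ = Real.exp (2 * (n * m n) * (‖z‖ / lam n)) := by
        rw [Finset.prod_const, Finset.card_range, ← Real.exp_nat_mul, ← Real.exp_nat_mul]
        congr 1
        ring

theorem exp_sub_one_le {x : ℝ} (_hx : 0 ≤ x) : Real.exp x - 1 ≤ x * Real.exp x := by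
  have h := Real.add_one_le_exp (-x)
  have h2 : Real.exp (-x) * Real.exp x = 1 := by rw [← Real.exp_add]; simp
  nlinarith [Real.exp_pos x]

theorem norm_p_sub_one (n : ℕ) (z : ℂ) (r : ℝ) (hr : ‖z‖ ≤ r) :
    ‖p n z - 1‖ ≤ r ^ 2 * Real.exp (r ^ 2) * (1 / 2) ^ n := by
  have hr0 : 0 ≤ r := (norm_nonneg _).trans hr
  have e1 : p n z = ∏ x ∈ Finset.range (m n) ×ˢ Finset.range n,
      (1 + (-(z ^ 2 / (((x.2 : ℂ) + 1) * lam n) ^ 2))) := by
    rw [Finset.prod_product]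
    simp only [Finset.prod_const, Finset.card_range]
    unfold p
    congr 1
  rw [e1]
  refine (Finset.norm_prod_one_add_sub_one_le _ _).trans ?_
  have h1 : ∑ x ∈ Finset.range (m n) ×ˢ Finset.range n, ‖-(z ^ 2 / (((x.2 : ℂ) + 1) * lam n) ^ 2)‖ ≤
      (m n * n : ℝ) * (r ^ 2 / (lam n : ℝ) ^ 2) := by
    calc ∑ x ∈ Finset.range (m n) ×ˢ Finset.range n, ‖-(z ^ 2 / (((x.2 : ℂ) + 1) * lam n) ^ 2)‖
        ≤ ∑ x ∈ Finset.range (m n) ×ˢ Finset.range n, r ^ 2 / (lam n : ℝ) ^ 2 := by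
          refine Finset.sum_le_sum fun x _ => ?_
          rw [norm_neg]
          refine (norm_term_le n x.2 z).trans ?_
          gcongr
      _ = (m n * n : ℝ) * (r ^ 2 / (lam n : ℝ) ^ 2) := by
          rw [Finset.sum_const, Finset.card_product, Finset.card_range, Finset.card_range, nsmul_eq_mul]
          push_cast; ring
  have hlam := lam_posR n
  have h2 : (m n * n : ℝ) * (r ^ 2 / (lam n : ℝ) ^ 2) ≤ r ^ 2 * (1 / 2) ^ n := by
    have h3 : (n : ℝ) * m n * 2 ^ n ≤ lam n := by exact_mod_cast lam_ge_pow n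
    have h4 : (m n * n : ℝ) / (lam n : ℝ) ≤ (1 / 2) ^ n := by
      rw [div_le_iff₀ hlam, one_div, inv_pow, inv_mul_eq_div, le_div_iff₀ (by positivity)]
      linarith
    have h5 : (m n * n : ℝ) * (r ^ 2 / (lam n : ℝ) ^ 2) = r ^ 2 * ((m n * n : ℝ) / (lam n : ℝ)) * (1 / lam n) := by
      field_simp
    rw [h5]
    have h6 : 1 / (lam n : ℝ) ≤ 1 := by
      rw [div_le_one hlam]; exact one_le_lamR n
    calc r ^ 2 * ((m n * n : ℝ) / (lam n : ℝ)) * (1 / lam n) ≤ r ^ 2 * (1 / 2) ^ n * 1 := by gcongr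
      _ = _ := mul_one _
  have h7 : r ^ 2 * (1 / 2) ^ n ≤ r ^ 2 := by
    have : ((1:ℝ) / 2) ^ n ≤ 1 := pow_le_one₀ (by norm_num) (by norm_num)
    nlinarith [sq_nonneg r]
  have h8 : Real.exp (∑ x ∈ Finset.range (m n) ×ˢ Finset.range n, ‖-(z ^ 2 / (((x.2 : ℂ) + 1) * lam n) ^ 2)‖) ≤
      Real.exp (r ^ 2 * (1 / 2) ^ n) := Real.exp_le_exp.2 (h1.trans h2)
  have h9 := exp_sub_one_le (x := r ^ 2 * (1 / 2) ^ n) (by positivity)
  have h10 : r ^ 2 * (1 / 2) ^ n * Real.exp (r ^ 2 * (1 / 2) ^ n) ≤ r ^ 2 * (1 / 2) ^ n * Real.exp (r ^ 2) := by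
    gcongr
  calc _ ≤ Real.exp (r ^ 2 * (1 / 2) ^ n) - 1 := by linarith
    _ ≤ r ^ 2 * (1 / 2) ^ n * Real.exp (r ^ 2) := h9.trans h10
    _ = _ := by ring

/-- the entire function -/
noncomputable def F (z : ℂ) : ℂ := ∏' n, (1 + (p n z - 1))

theorem loc_unif (r : ℝ) : HasProdLocallyUniformlyOn (fun n z => 1 + (p n z - 1)) F (Metric.ball (0:ℂ) r) := by
  refine Summable.hasProdLocallyUniformlyOn_nat_one_add Metric.isOpen_ball
    (u := fun n => r ^ 2 * Real.exp (r ^ 2) * (1 / 2) ^ n) ?_ ?_ ?_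
  · exact (summable_geometric_of_lt_one (by norm_num) (by norm_num)).mul_left _
  · refine Eventually.of_forall fun n x hx => ?_
    exact norm_p_sub_one n x r (mem_ball_zero_iff.1 hx).le
  · intro n
    exact ((p_diff n).continuous.sub continuous_const).continuousOn

theorem F_diff : Differentiable ℂ F := by
  intro z
  have h := loc_unif (‖z‖ + 1)
  rw [hasProdLocallyUniformlyOn_iff_tendstoLocallyUniformlyOn] at h
  have h2 : DifferentiableOn ℂ F (Metric.ball (0:ℂ) (‖z‖ + 1)) := by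
    refine h.differentiableOn (Eventually.of_forall fun s => ?_) Metric.isOpen_ball
    have : Differentiable ℂ (fun z => ∏ i ∈ s, (1 + (p i z - 1))) := by
      apply Differentiable.fun_finsetProd
      intro i _
      exact (differentiable_const _).add ((p_diff i).sub (differentiable_const _))
    exact this.differentiableOn
  exact h2.differentiableAt (Metric.isOpen_ball.mem_nhds (by rw [mem_ball_zero_iff]; linarith))

theorem tendsto_F (z : ℂ) : Tendsto (fun N => ∏ n ∈ Finset.range N, p n z) atTop (𝓝 (F z)) := by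
  have h := loc_unif (‖z‖ + 1)
  have h2 := h.hasProd (x := z) (by rw [mem_ball_zero_iff]; linarith)
  have h3 := h2.tendsto_prod_nat
  refine h3.congr fun N => ?_
  refine Finset.prod_congr rfl fun n _ => by ring

theorem F_zero : F 0 = 1 := by
  have h := tendsto_F 0
  have : ∀ n, p n 0 = 1 := by intro n; unfold p; simp
  simp only [this, Finset.prod_const_one] at h
  exact tendsto_nhds_unique h tendsto_const_nhds |>.symm ▸ rfl

theorem one_add_le_exp' {c x : ℝ} (hc : 0 < c) (hx : 0 ≤ x) : 1 + x ≤ (1 + 1 / c) * Real.exp (c * x) := by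
  have h := Real.add_one_le_exp (c * x)
  have h2 : (1 + 1 / c) * (c * x + 1) ≤ (1 + 1 / c) * Real.exp (c * x) := by gcongr
  have h3 : (1 + 1 / c) * (c * x + 1) = 1 + x + (c * x + 1 / c) := by field_simp; ring
  have : 0 ≤ c * x + 1 / c := by positivity
  linarith

/-- polynomial bound of each block factor -/
theorem norm_p_le_poly (n : ℕ) (z : ℂ) : ‖p n z‖ ≤ (1 + ‖z‖) ^ (2 * (n * m n)) := by
  unfold p
  rw [norm_pow, norm_prod]
  have h1 : ∀ k ∈ Finset.range n, ‖1 - z ^ 2 / (((k : ℂ) + 1) * lam n) ^ 2‖ ≤ (1 + ‖z‖) ^ 2 := by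
    intro k _
    have h2 := norm_term_le n k z
    have h3 : ‖1 - z ^ 2 / (((k : ℂ) + 1) * lam n) ^ 2‖ ≤ 1 + ‖z‖ ^ 2 / (lam n : ℝ) ^ 2 := by
      refine (norm_sub_le _ _).trans ?_
      rw [norm_one]
      linarith
    have h4 : ‖z‖ ^ 2 / (lam n : ℝ) ^ 2 ≤ ‖z‖ ^ 2 := by
      apply div_le_self (by positivity)
      exact one_le_pow₀ (one_le_lamR n)
    nlinarith [norm_nonneg z]
  calc (∏ k ∈ Finset.range n, ‖1 - z ^ 2 / (((k : ℂ) + 1) * lam n) ^ 2‖) ^ (m n)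
      ≤ (∏ k ∈ Finset.range n, (1 + ‖z‖) ^ 2) ^ (m n) := by
        apply pow_le_pow_left₀ (Finset.prod_nonneg fun _ _ => norm_nonneg _)
        exact Finset.prod_le_prod (fun _ _ => norm_nonneg _) h1
    _ = (1 + ‖z‖) ^ (2 * (n * m n)) := by
        rw [Finset.prod_const, Finset.card_range, ← pow_mul, ← pow_mul]

theorem prod_le_poly (N : ℕ) (z : ℂ) : ∏ n ∈ Finset.range N, ‖p n z‖ ≤ (1 + ‖z‖) ^ (2 * S N) := by
  induction N with
  | zero => simp [S]
  | succ N ih =>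
    rw [Finset.prod_range_succ, S_succ, mul_add, pow_add]
    exact mul_le_mul ih (norm_p_le_poly N z) (norm_nonneg _) (by positivity)

theorem tail_le (N M : ℕ) (z : ℂ) :
    ∏ n ∈ Finset.Ico N (N + M), ‖p n z‖ ≤ Real.exp (4 * (1 / 2) ^ N * (1 - (1 / 2) ^ M) * ‖z‖) := by
  induction M with
  | zero => simp
  | succ M ih =>
    rw [← add_assoc, Finset.prod_Ico_succ_top (by omega)]
    have h := norm_p_le_exp (N + M) z
    refine (mul_le_mul ih h (norm_nonneg _) (Real.exp_pos _).le).trans ?_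
    rw [← Real.exp_add]
    apply Real.exp_le_exp.2
    have hlam := lam_posR (N + M)
    have h3 : ((N + M : ℕ) : ℝ) * m (N + M) * 2 ^ (N + M) ≤ lam (N + M) := by exact_mod_cast lam_ge_pow (N + M)
    have h4 : (((N + M : ℕ) : ℝ) * m (N + M)) / (lam (N + M) : ℝ) ≤ (1 / 2) ^ (N + M) := by
      rw [div_le_iff₀ hlam, one_div, inv_pow, inv_mul_eq_div, le_div_iff₀ (by positivity)]
      linarith
    have h5 : 2 * (((N + M : ℕ) : ℝ) * m (N + M)) * (‖z‖ / lam (N + M)) ≤ 2 * (1 / 2) ^ (N + M) * ‖z‖ := by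
      calc 2 * (((N + M : ℕ) : ℝ) * m (N + M)) * (‖z‖ / lam (N + M))
          = 2 * ((((N + M : ℕ) : ℝ) * m (N + M)) / (lam (N + M) : ℝ)) * ‖z‖ := by ring
        _ ≤ _ := by gcongr
    have h6 : 4 * (1 / 2 : ℝ) ^ N * (1 - (1 / 2) ^ M) * ‖z‖ + 2 * (1 / 2) ^ (N + M) * ‖z‖ =
        4 * (1 / 2) ^ N * (1 - (1 / 2) ^ (M + 1)) * ‖z‖ := by
      rw [pow_add, pow_succ]; ring
    linarith

/-- `F` has minimal exponential type -/
theorem F_type (ε : ℝ) (hε : 0 < ε) : ∃ C : ℝ, ∀ z : ℂ, ‖F z‖ ≤ C * Real.exp (ε * ‖z‖) := by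
  obtain ⟨N, hN⟩ := exists_pow_lt_of_lt_one (show (0:ℝ) < ε / 8 by positivity) (show (1/2 : ℝ) < 1 by norm_num)
  set D : ℕ := 2 * S N with hD
  set c : ℝ := ε / 2 / (D + 1) with hc
  have hc0 : 0 < c := by positivity
  refine ⟨(1 + 1 / c) ^ D, fun z => ?_⟩
  have h := (tendsto_F z).norm
  refine le_of_tendsto h ?_
  filter_upwards [eventually_ge_atTop N] with K hK
  obtain ⟨M, rfl⟩ := Nat.exists_eq_add_of_le hK
  rw [norm_prod, ← Finset.prod_range_mul_prod_Ico _ (Nat.le_add_right N M)]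
  have h1 := prod_le_poly N z
  have h2 := tail_le N M z
  have h3 : (1 + ‖z‖) ^ D ≤ (1 + 1 / c) ^ D * Real.exp (ε / 2 * ‖z‖) := by
    calc (1 + ‖z‖) ^ D ≤ ((1 + 1 / c) * Real.exp (c * ‖z‖)) ^ D :=
          pow_le_pow_left₀ (by positivity) (one_add_le_exp' hc0 (norm_nonneg _)) D
      _ = (1 + 1 / c) ^ D * Real.exp (D * (c * ‖z‖)) := by rw [mul_pow, ← Real.exp_nat_mul]
      _ ≤ (1 + 1 / c) ^ D * Real.exp (ε / 2 * ‖z‖) := by
          have : (D : ℝ) * c ≤ ε / 2 := by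
            rw [hc]
            rw [mul_div_assoc', div_le_iff₀ (by positivity)]
            nlinarith
          apply mul_le_mul_of_nonneg_left (Real.exp_le_exp.2 ?_) (by positivity)
          rw [← mul_assoc]
          exact mul_le_mul_of_nonneg_right this (norm_nonneg _)
  have h4 : Real.exp (4 * (1 / 2) ^ N * (1 - (1 / 2) ^ M) * ‖z‖) ≤ Real.exp (ε / 2 * ‖z‖) := by
    apply Real.exp_le_exp.2
    apply mul_le_mul_of_nonneg_right _ (norm_nonneg _)
    have h5 : (0:ℝ) ≤ (1 / 2) ^ M := by positivity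
    have h6 : (0:ℝ) ≤ (1 / 2) ^ N := by positivity
    nlinarith
  calc (∏ n ∈ Finset.range N, ‖p n z‖) * ∏ n ∈ Finset.Ico N (N + M), ‖p n z‖
      ≤ ((1 + 1 / c) ^ D * Real.exp (ε / 2 * ‖z‖)) * Real.exp (ε / 2 * ‖z‖) := by
        apply mul_le_mul (h1.trans h3) (h2.trans h4) (Finset.prod_nonneg fun _ _ => norm_nonneg _) (by positivity)
    _ = (1 + 1 / c) ^ D * Real.exp (ε * ‖z‖) := by
        rw [mul_assoc, ← Real.exp_add]
        congr 2
        ring

/-- real factors are bounded by one below the radius -/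
theorem norm_p_le_one (n : ℕ) (x : ℝ) (hx : |x| ≤ lam n) : ‖p n (x : ℂ)‖ ≤ 1 := by
  unfold p
  rw [norm_pow, norm_prod]
  apply pow_le_one₀ (Finset.prod_nonneg fun _ _ => norm_nonneg _)
  apply Finset.prod_le_one (fun _ _ => norm_nonneg _)
  intro k _
  have e1 : (1 : ℂ) - (x : ℂ) ^ 2 / (((k : ℂ) + 1) * lam n) ^ 2 =
      ((1 - x ^ 2 / (((k : ℝ) + 1) * lam n) ^ 2 : ℝ) : ℂ) := by push_cast; ring
  rw [e1, Complex.norm_real, Real.norm_eq_abs]
  have hlam := lam_posR n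
  have h1 : x ^ 2 ≤ (((k : ℝ) + 1) * lam n) ^ 2 := by
    rw [← sq_abs x]
    apply pow_le_pow_left₀ (abs_nonneg _)
    nlinarith [(Nat.cast_nonneg k : (0:ℝ) ≤ k)]
  have h2 : x ^ 2 / (((k : ℝ) + 1) * lam n) ^ 2 ≤ 1 := by
    rw [div_le_one (by positivity)]; exact h1
  have h3 : 0 ≤ x ^ 2 / (((k : ℝ) + 1) * lam n) ^ 2 := by positivity
  rw [abs_le]
  constructor <;> linarith

/-- the factor near one of its zeros -/
theorem norm_p_near (n k : ℕ) (hk : k < n) (x : ℝ) (y : ℝ) (hx : |x| = |((k : ℝ) + 1) * lam n + y|) (hy : |y| ≤ n) :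
    ‖p n (x : ℂ)‖ ≤ ((3 * n / lam n) * (n + 2 : ℝ) ^ (2 * n)) ^ (m n) := by
  have hlam := lam_posR n
  have hnl : (n : ℝ) ≤ lam n := by exact_mod_cast n_le_lam n
  have hn0 : (0 : ℝ) ≤ n := Nat.cast_nonneg n
  have hx2 : x ^ 2 = (((k : ℝ) + 1) * lam n + y) ^ 2 := by
    rw [← sq_abs x, hx, sq_abs]
  have hk1 : ((k : ℝ) + 1) ≤ n := by exact_mod_cast hk
  have hxn : x ^ 2 ≤ ((n + 1) * lam n) ^ 2 := by
    rw [hx2, ← sq_abs]
    apply pow_le_pow_left₀ (abs_nonneg _)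
    refine (abs_add_le _ _).trans ?_
    rw [abs_of_nonneg (by positivity)]
    have := mul_le_mul_of_nonneg_right hk1 hlam.le
    linarith
  unfold p
  rw [norm_pow, norm_prod]
  apply pow_le_pow_left₀ (Finset.prod_nonneg fun _ _ => norm_nonneg _)
  rw [← Finset.mul_prod_erase _ _ (Finset.mem_range.2 hk)]
  have e1 : ∀ j : ℕ, ‖(1 : ℂ) - (x : ℂ) ^ 2 / (((j : ℂ) + 1) * lam n) ^ 2‖ =
      |1 - x ^ 2 / (((j : ℝ) + 1) * lam n) ^ 2| := by
    intro j
    have : (1 : ℂ) - (x : ℂ) ^ 2 / (((j : ℂ) + 1) * lam n) ^ 2 =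
      ((1 - x ^ 2 / (((j : ℝ) + 1) * lam n) ^ 2 : ℝ) : ℂ) := by push_cast; ring
    rw [this, Complex.norm_real, Real.norm_eq_abs]
  have h1 : ‖(1 : ℂ) - (x : ℂ) ^ 2 / (((k : ℂ) + 1) * lam n) ^ 2‖ ≤ 3 * n / lam n := by
    rw [e1, hx2]
    have e2 : 1 - (((k : ℝ) + 1) * lam n + y) ^ 2 / (((k : ℝ) + 1) * lam n) ^ 2 =
        -(2 * (y / (((k : ℝ) + 1) * lam n)) + (y / (((k : ℝ) + 1) * lam n)) ^ 2) := by
      field_simp
      ring
    rw [e2, abs_neg]
    set w := y / (((k : ℝ) + 1) * lam n) with hw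
    have hw1 : |w| ≤ n / lam n := by
      rw [hw, abs_div, abs_of_pos (show 0 < ((k : ℝ) + 1) * lam n by positivity)]
      apply div_le_div₀ hn0 hy hlam
      nlinarith [(Nat.cast_nonneg k : (0:ℝ) ≤ k)]
    have hw2 : n / (lam n : ℝ) ≤ 1 := by rw [div_le_one hlam]; exact hnl
    calc |2 * w + w ^ 2| ≤ |2 * w| + |w ^ 2| := abs_add_le _ _
      _ = 2 * |w| + |w| * |w| := by
          rw [abs_mul, abs_of_pos (show (0:ℝ) < 2 by norm_num), pow_two, abs_mul]
      _ ≤ 2 * (n / lam n) + n / lam n * 1 := by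
          have := abs_nonneg w
          gcongr
          exact hw1.trans hw2
      _ = 3 * n / lam n := by ring
  have h2 : ∏ j ∈ (Finset.range n).erase k, ‖(1 : ℂ) - (x : ℂ) ^ 2 / (((j : ℂ) + 1) * lam n) ^ 2‖ ≤
      (n + 2 : ℝ) ^ (2 * n) := by
    calc ∏ j ∈ (Finset.range n).erase k, ‖(1 : ℂ) - (x : ℂ) ^ 2 / (((j : ℂ) + 1) * lam n) ^ 2‖
        ≤ ∏ j ∈ (Finset.range n).erase k, (n + 2 : ℝ) ^ 2 := by
          apply Finset.prod_le_prod (fun _ _ => norm_nonneg _)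
          intro j _
          rw [e1]
          have h3 : 0 ≤ x ^ 2 / (((j : ℝ) + 1) * lam n) ^ 2 := by positivity
          have h4 : x ^ 2 / (((j : ℝ) + 1) * lam n) ^ 2 ≤ (n + 1) ^ 2 := by
            rw [div_le_iff₀ (by positivity)]
            refine hxn.trans ?_
            rw [mul_pow, mul_pow]
            have : (1:ℝ) ≤ ((j : ℝ) + 1) ^ 2 := one_le_pow₀ (by linarith [(Nat.cast_nonneg j : (0:ℝ) ≤ j)])
            have h5 : 0 ≤ ((n : ℝ) + 1) ^ 2 * (lam n : ℝ) ^ 2 := by positivity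
            nlinarith
          rw [abs_le]
          constructor <;> nlinarith
      _ = ((n + 2 : ℝ) ^ 2) ^ (n - 1) := by
          rw [Finset.prod_const, Finset.card_erase_of_mem (Finset.mem_range.2 hk), Finset.card_range]
      _ ≤ ((n + 2 : ℝ) ^ 2) ^ n := by
          apply pow_le_pow_right₀ _ (Nat.sub_le n 1)
          nlinarith
      _ = _ := by rw [← pow_mul]
  exact mul_le_mul h1 h2 (Finset.prod_nonneg fun _ _ => norm_nonneg _) (by positivity)

/-- the smallness property at stage `n` -/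
theorem F_small (n k : ℕ) (hk : k < n) (x : ℝ) (y : ℝ) (hx : |x| = |((k : ℝ) + 1) * lam n + y|) (hy : |y| ≤ n) :
    ‖F (x : ℂ)‖ ≤ 1 / (n + 1) := by
  have hlam := lam_posR n
  have hnl : (n : ℝ) ≤ lam n := by exact_mod_cast n_le_lam n
  have hn0 : (0 : ℝ) ≤ n := Nat.cast_nonneg n
  have hk1 : ((k : ℝ) + 1) ≤ n := by exact_mod_cast hk
  have hxn : |x| ≤ (n + 1) * lam n := by
    rw [hx]
    refine (abs_add_le _ _).trans ?_
    rw [abs_of_nonneg (by positivity)]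
    have := mul_le_mul_of_nonneg_right hk1 hlam.le
    linarith
  have h := (tendsto_F x).norm
  refine le_of_tendsto h ?_
  filter_upwards [eventually_ge_atTop (n + 1)] with K hK
  obtain ⟨M, rfl⟩ := Nat.exists_eq_add_of_le hK
  rw [norm_prod, ← Finset.prod_range_mul_prod_Ico _ (Nat.le_add_right (n + 1) M)]
  have h1 : ∏ j ∈ Finset.Ico (n + 1) (n + 1 + M), ‖p j (x : ℂ)‖ ≤ 1 := by
    apply Finset.prod_le_one (fun _ _ => norm_nonneg _)
    intro j hj
    apply norm_p_le_one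
    refine hxn.trans ?_
    have h2 : (n + 1) * lam n ≤ lam j := (lam_succ_ge n).trans (lam_mono (Finset.mem_Ico.1 hj).1)
    exact_mod_cast h2
  rw [Finset.prod_range_succ]
  have h2 := prod_le_poly n x
  have h3 := norm_p_near n k hk x y hx hy
  have h4 : (1 + ‖(x : ℂ)‖) ^ (2 * S n) ≤ ((n + 2) * lam n : ℝ) ^ (2 * S n) := by
    apply pow_le_pow_left₀ (by positivity)
    rw [Complex.norm_real, Real.norm_eq_abs]
    have := one_le_lamR n
    linarith
  have h5 : (∏ j ∈ Finset.range n, ‖p j (x : ℂ)‖) * ‖p n (x : ℂ)‖ ≤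
      ((n + 2) * lam n : ℝ) ^ (2 * S n) * ((3 * n / lam n) * (n + 2 : ℝ) ^ (2 * n)) ^ (m n) :=
    mul_le_mul (h2.trans h4) h3 (norm_nonneg _) (by positivity)
  have h6 : ((n + 2) * lam n : ℝ) ^ (2 * S n) * ((3 * n / lam n) * (n + 2 : ℝ) ^ (2 * n)) ^ (m n) =
      (C n : ℝ) / lam n := by
    unfold C
    push_cast
    have e1 : (lam n : ℝ) ^ (m n) = (lam n : ℝ) ^ (2 * S n) * lam n := by unfold m; rw [pow_succ]
    rw [mul_pow, mul_pow, div_pow, e1, ← pow_mul, pow_add]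
    field_simp
  have h7 : (C n : ℝ) / lam n ≤ 1 / (n + 1) := by
    rw [div_le_div_iff₀ hlam (by positivity)]
    have : ((n : ℝ) + 1) * C n ≤ lam n := by exact_mod_cast lam_ge_C n
    linarith
  calc (∏ j ∈ Finset.range n, ‖p j (x : ℂ)‖) * ‖p n (x : ℂ)‖ * ∏ j ∈ Finset.Ico (n + 1) (n + 1 + M), ‖p j (x : ℂ)‖
      ≤ ((∏ j ∈ Finset.range n, ‖p j (x : ℂ)‖) * ‖p n (x : ℂ)‖) * 1 := by
        apply mul_le_mul_of_nonneg_left h1
        exact mul_nonneg (Finset.prod_nonneg fun _ _ => norm_nonneg _) (norm_nonneg _)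
    _ ≤ 1 / (n + 1) := by
        rw [mul_one]
        exact h5.trans (h6.le.trans h7)

/-- the key property of `F` -/
theorem F_key (L : ℕ) (B ε : ℝ) (hε : 0 < ε) (N : ℕ) : ∃ R : ℕ, N ≤ R ∧ 1 ≤ R ∧
    ∀ k : ℤ, k ≠ 0 → |k| ≤ L → ∀ y : ℝ, |y| ≤ B → ‖F ((k * R + y : ℝ) : ℂ)‖ ≤ ε := by
  obtain ⟨n1, hn1⟩ := exists_nat_gt (1 / ε)
  obtain ⟨n2, hn2⟩ := exists_nat_gt B
  set n := max (max n1 n2) (max L N) with hn
  have hnn1 : n1 ≤ n := le_trans (le_max_left _ _) (le_max_left _ _)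
  have hnn2 : n2 ≤ n := le_trans (le_max_right _ _) (le_max_left _ _)
  have hnL : L ≤ n := le_trans (le_max_left _ _) (le_max_right _ _)
  have hnN : N ≤ n := le_trans (le_max_right _ _) (le_max_right _ _)
  refine ⟨lam n, hnN.trans (n_le_lam n), lam_pos n, ?_⟩
  intro k hk hkL y hy
  have hnε : 1 / ((n : ℝ) + 1) ≤ ε := by
    rw [div_le_iff₀ (by positivity)]
    have h1 : (n1 : ℝ) ≤ n := by exact_mod_cast hnn1
    have h2 : 1 < ε * n1 := by
      rw [div_lt_iff₀ hε] at hn1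
      linarith
    nlinarith
  have hyn : |y| ≤ n := by
    have h1 : (n2 : ℝ) ≤ n := by exact_mod_cast hnn2
    linarith
  have hkn : k.natAbs - 1 < n := by
    have h1 : k.natAbs ≤ L := by
      rw [Int.abs_eq_natAbs] at hkL
      exact_mod_cast hkL
    have h2 : 0 < k.natAbs := Int.natAbs_pos.2 hk
    omega
  have hkpos : 0 < k.natAbs := Int.natAbs_pos.2 hk
  have hcast : ((k.natAbs - 1 : ℕ) : ℝ) + 1 = (k.natAbs : ℝ) := by
    have : k.natAbs - 1 + 1 = k.natAbs := by omega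
    exact_mod_cast this
  rcases le_or_gt 0 k with h0 | h0
  · refine (F_small n (k.natAbs - 1) hkn _ y ?_ hyn).trans hnε
    rw [hcast]
    have : ((k.natAbs : ℕ) : ℝ) = (k : ℝ) := by
      have h3 : ((k.natAbs : ℤ)) = k := Int.natAbs_of_nonneg h0
      have h4 : ((k.natAbs : ℤ) : ℝ) = ((k : ℤ) : ℝ) := by rw [h3]
      rwa [Int.cast_natCast] at h4
    rw [this]
  · refine (F_small n (k.natAbs - 1) hkn _ (-y) ?_ (by rwa [abs_neg])).trans hnε
    rw [hcast]
    have : ((k.natAbs : ℕ) : ℝ) = -(k : ℝ) := by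
      have h3 : ((k.natAbs : ℤ)) = -k := by omega
      have h4 : ((k.natAbs : ℤ) : ℝ) = ((-k : ℤ) : ℝ) := by rw [h3]
      push_cast at h4
      simpa using h4
    rw [this, ← abs_neg]
    congr 1
    ring

/-- Existence of the entire function with all needed properties. -/
theorem exists_entire (B₀ δ : ℝ) (hδ : 0 < δ) : ∃ G : ℂ → ℂ, Differentiable ℂ G ∧
    (∀ ε : ℝ, 0 < ε → ∃ C : ℝ, ∀ z : ℂ, ‖G z‖ ≤ C * Real.exp (ε * ‖z‖)) ∧
    (∀ x : ℝ, |x| ≤ B₀ → ‖G x - 1‖ ≤ δ) ∧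
    ∀ (L : ℕ) (B ε : ℝ), 0 < ε → ∃ R : ℕ, 1 ≤ R ∧
      ∀ k : ℤ, k ≠ 0 → |k| ≤ L → ∀ y : ℝ, |y| ≤ B → ‖G ((k * R + y : ℝ) : ℂ)‖ ≤ ε := by
  have hcont : ContinuousAt F 0 := F_diff.continuous.continuousAt
  rw [Metric.continuousAt_iff] at hcont
  obtain ⟨η, hη, hη2⟩ := hcont δ hδ
  obtain ⟨T, hT⟩ := exists_nat_gt (|B₀| / η)
  have hT0 : (0 : ℝ) < T := lt_of_le_of_lt (by positivity) hT
  have hT0' : 0 < T := by exact_mod_cast hT0
  have hT1 : (1 : ℝ) ≤ T := by exact_mod_cast hT0'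
  refine ⟨fun z => F (z / T), ?_, ?_, ?_, ?_⟩
  · exact F_diff.comp (differentiable_id.div_const _)
  · intro ε hε
    obtain ⟨C', hC'⟩ := F_type ε hε
    refine ⟨C', fun z => (hC' (z / T)).trans ?_⟩
    have hC0 : 0 ≤ C' := by
      have := hC' 0
      rw [norm_zero, mul_zero, Real.exp_zero, mul_one] at this
      exact (norm_nonneg _).trans this
    apply mul_le_mul_of_nonneg_left _ hC0
    apply Real.exp_le_exp.2
    apply mul_le_mul_of_nonneg_left _ hε.le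
    rw [norm_div]
    have : ‖(T : ℂ)‖ = T := by simp
    rw [this]
    exact div_le_self (norm_nonneg _) hT1
  · intro x hx
    have h1 : dist ((x : ℂ) / T) 0 < η := by
      rw [dist_zero_right, norm_div, Complex.norm_real, Real.norm_eq_abs]
      have : ‖(T : ℂ)‖ = T := by simp
      rw [this, div_lt_iff₀ hT0]
      rw [div_lt_iff₀ hη] at hT
      calc |x| ≤ B₀ := hx
        _ ≤ |B₀| := le_abs_self _
        _ < T * η := hT
        _ = η * T := mul_comm _ _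
    have h2 := hη2 h1
    rw [F_zero, dist_eq_norm] at h2
    exact h2.le
  · intro L B ε hε
    obtain ⟨R, -, hR1, hR⟩ := F_key L (|B| / T) ε hε 0
    refine ⟨T * R, ?_, ?_⟩
    · have := Nat.mul_le_mul hT0' hR1
      simpa using this
    · intro k hk hkL y hy
      have := hR k hk hkL (y / T) (by
        rw [abs_div, abs_of_pos hT0]
        apply div_le_div_of_nonneg_right _ hT0.le
        exact hy.trans (le_abs_self _))
      have hTC : (T : ℂ) ≠ 0 := by
        have : T ≠ 0 := by omega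
        exact_mod_cast this
      convert this using 3
      push_cast
      field_simp

end Pool.Agent.H724R2.EntireF
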