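import Pool.Agent.H724R2.Paley

set_option autoImplicit false

namespace Pool.Agent.H724R2.HankelTensor

open MeasureTheory ComplexConjugate Pool.Agent.H724R2.Paley

/-- Paley's inequality for the block maxima of even (`r = 0`) or odd (`r = 1`) blocks -/
theorem paley_blocks (r : ℕ) (N : ℕ) (c : ℕ → ℂ) (hc : ∀ m, N ≤ m → c m = 0)
    (ν : ℕ → ℕ) (hν1 : ∀ s, 2 ^ s ≤ ν s) (hν2 : ∀ s, ν s < 2 ^ (s + 1)) (k : ℕ) :
    (2 * Real.pi) ^ 2 * ∑ j ∈ Finset.range k, ‖c (ν (2 * j + r))‖ ^ 2 ≤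
      8 * (∫ t in (0:ℝ)..(2 * Real.pi), ‖∑ m ∈ Finset.range N, c m * e m t‖) ^ 2 := by
  refine paley (fun j => ν (2 * j + r)) ?_ k N c hc
  intro k
  cases k with
  | zero =>
    have := hν1 (2 * 0 + r)
    have h2 : 0 < 2 ^ (2 * 0 + r) := by positivity
    show 2 * 0 < ν (2 * 0 + r)
    omega
  | succ k =>
    show 2 * ν (2 * k + r) < ν (2 * (k + 1) + r)
    have h1 := hν2 (2 * k + r)
    have h2 := hν1 (2 * (k + 1) + r)
    have h3 : 2 ^ (2 * (k + 1) + r) = 2 * 2 ^ (2 * k + r + 1) := by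
      rw [show 2 * (k + 1) + r = (2 * k + r + 1) + 1 by ring, pow_succ]; ring
    omega

/-- Strengthened Paley inequality: block-`ℓ²` sequences multiply analytic polynomials from `L¹` to `L²`. -/
theorem block_mult (b : ℕ → ℂ) (hb0 : b 0 = 0)
    (hb : ∀ s : ℕ, ∑ n ∈ Finset.Ico (2 ^ s) (2 ^ (s + 1)), ‖b n‖ ^ 2 ≤ 1)
    (N : ℕ) (c : ℕ → ℂ) (hc : ∀ m, N ≤ m → c m = 0) :
    (2 * Real.pi) ^ 2 * ∑ n ∈ Finset.range N, ‖b n * c n‖ ^ 2 ≤
      16 * (∫ t in (0:ℝ)..(2 * Real.pi), ‖∑ m ∈ Finset.range N, c m * e m t‖) ^ 2 := by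
  -- choose the block maxima
  have hex : ∀ s : ℕ, ∃ m ∈ Finset.Ico (2 ^ s) (2 ^ (s + 1)), ∀ n ∈ Finset.Ico (2 ^ s) (2 ^ (s + 1)), ‖c n‖ ≤ ‖c m‖ := by
    intro s
    apply Finset.exists_max_image
    refine ⟨2 ^ s, Finset.mem_Ico.2 ⟨le_rfl, ?_⟩⟩
    rw [pow_succ]
    have : 0 < 2 ^ s := by positivity
    omega
  choose ν hν hmax using hex
  have hν1 : ∀ s, 2 ^ s ≤ ν s := fun s => (Finset.mem_Ico.1 (hν s)).1
  have hν2 : ∀ s, ν s < 2 ^ (s + 1) := fun s => (Finset.mem_Ico.1 (hν s)).2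
  have h0 := paley_blocks 0 N c hc ν hν1 hν2 N
  have h1 := paley_blocks 1 N c hc ν hν1 hν2 N
  -- block estimate
  have hblock : ∀ s, ∑ n ∈ Finset.Ico (2 ^ s) (2 ^ (s + 1)), ‖b n * c n‖ ^ 2 ≤ ‖c (ν s)‖ ^ 2 := by
    intro s
    calc ∑ n ∈ Finset.Ico (2 ^ s) (2 ^ (s + 1)), ‖b n * c n‖ ^ 2
        ≤ ∑ n ∈ Finset.Ico (2 ^ s) (2 ^ (s + 1)), ‖b n‖ ^ 2 * ‖c (ν s)‖ ^ 2 := by
          refine Finset.sum_le_sum fun n hn => ?_
          rw [norm_mul, mul_pow]
          exact mul_le_mul_of_nonneg_left (pow_le_pow_left₀ (norm_nonneg _) (hmax s n hn) 2) (by positivity)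
      _ = (∑ n ∈ Finset.Ico (2 ^ s) (2 ^ (s + 1)), ‖b n‖ ^ 2) * ‖c (ν s)‖ ^ 2 := by rw [Finset.sum_mul]
      _ ≤ 1 * ‖c (ν s)‖ ^ 2 := mul_le_mul_of_nonneg_right (hb s) (by positivity)
      _ = _ := one_mul _
  -- sum over blocks
  have hcover : ∀ J : ℕ, ∑ n ∈ Finset.Ico 1 (2 ^ J), ‖b n * c n‖ ^ 2 ≤ ∑ s ∈ Finset.range J, ‖c (ν s)‖ ^ 2 := by
    intro J
    induction J with
    | zero => simp
    | succ J ih =>
      rw [Finset.sum_range_succ, ← Finset.sum_Ico_consecutive _ (Nat.one_le_two_pow) (Nat.pow_le_pow_right (by norm_num) (Nat.le_succ J))]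
      exact add_le_add ih (hblock J)
  have hN : ∑ n ∈ Finset.range N, ‖b n * c n‖ ^ 2 ≤ ∑ s ∈ Finset.range (2 * N), ‖c (ν s)‖ ^ 2 := by
    refine le_trans ?_ (hcover (2 * N))
    rw [show Finset.range N = Finset.Ico 0 N by simp]
    rcases Nat.eq_zero_or_pos N with hN0 | hN0
    · subst hN0; simp
    rw [Finset.sum_eq_sum_Ico_succ_bot hN0]
    rw [hb0]
    simp only [zero_mul, norm_zero, ne_eq, OfNat.ofNat_ne_zero, not_false_eq_true, zero_pow, zero_add]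
    apply Finset.sum_le_sum_of_subset_of_nonneg
    · apply Finset.Ico_subset_Ico le_rfl
      have : N < 2 ^ N := Nat.lt_two_pow_self
      have h2 : 2 ^ N ≤ 2 ^ (2 * N) := Nat.pow_le_pow_right (by norm_num) (by omega)
      omega
    · intros; positivity
  have hsplit : ∀ J : ℕ, ∑ s ∈ Finset.range (2 * J), ‖c (ν s)‖ ^ 2 =
      ∑ j ∈ Finset.range J, ‖c (ν (2 * j + 0))‖ ^ 2 + ∑ j ∈ Finset.range J, ‖c (ν (2 * j + 1))‖ ^ 2 := by
    intro J
    induction J with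
    | zero => simp
    | succ J ih =>
      rw [show 2 * (J + 1) = 2 * J + 1 + 1 by ring, Finset.sum_range_succ, Finset.sum_range_succ, ih,
        Finset.sum_range_succ, Finset.sum_range_succ]
      ring
  rw [hsplit] at hN
  have hpi : 0 ≤ (2 * Real.pi) ^ 2 := by positivity
  have := mul_le_mul_of_nonneg_left hN hpi
  linarith

/-- Parseval for analytic polynomials -/
theorem parseval (N : ℕ) (d : ℕ → ℂ) :
    ∫ t in (0:ℝ)..(2 * Real.pi), ‖∑ m ∈ Finset.range N, d m * e m t‖ ^ 2 =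
      2 * Real.pi * ∑ n ∈ Finset.range N, ‖d n‖ ^ 2 := by
  have h1 : ∀ t, ((‖∑ m ∈ Finset.range N, d m * e m t‖ ^ 2 : ℝ) : ℂ) =
      ∑ m ∈ Finset.range N, ∑ n ∈ Finset.range N, (d m * conj (d n)) * e ((m : ℤ) - n) t := by
    intro t
    push_cast
    rw [← Complex.mul_conj', map_sum, Finset.sum_mul_sum]
    refine Finset.sum_congr rfl fun m _ => Finset.sum_congr rfl fun n _ => ?_
    rw [map_mul, conj_e, show (m : ℤ) - n = m + -n by ring, ← e_mul]
    simp only [Pi.mul_apply]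
    ring
  have h2 : ((∫ t in (0:ℝ)..(2 * Real.pi), ‖∑ m ∈ Finset.range N, d m * e m t‖ ^ 2 : ℝ) : ℂ) =
      ((2 * Real.pi * ∑ n ∈ Finset.range N, ‖d n‖ ^ 2 : ℝ) : ℂ) := by
    rw [← intervalIntegral.integral_ofReal]
    simp_rw [h1]
    rw [intervalIntegral.integral_finsetSum]
    swap
    · intro m _
      exact (continuous_finsetSum _ fun j _ => continuous_const.mul (cont_e _)).intervalIntegrable _ _
    have h3 : ∀ m ∈ Finset.range N, ∫ t in (0:ℝ)..(2 * Real.pi), ∑ n ∈ Finset.range N,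
        (d m * conj (d n)) * e ((m : ℤ) - n) t = 2 * Real.pi * (‖d m‖ : ℂ) ^ 2 := by
      intro m hm
      rw [intervalIntegral.integral_finsetSum]
      swap
      · intro n _
        exact (continuous_const.mul (cont_e _)).intervalIntegrable _ _
      rw [Finset.sum_eq_single m]
      · rw [intervalIntegral.integral_const_mul, int_e, if_pos (by ring), Complex.mul_conj']
        ring
      · intro n _ hn
        rw [intervalIntegral.integral_const_mul, int_e, if_neg (by omega), mul_zero]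
      · intro h
        exact absurd hm h
    rw [Finset.sum_congr rfl h3, ← Finset.mul_sum]
    push_cast
    rfl
  exact_mod_cast h2

/-- a block-`ℓ²` sequence is a Fourier multiplier of `H¹` (on polynomials) -/
theorem mult_H1 (b : ℕ → ℂ) (hb0 : b 0 = 0)
    (hb : ∀ s : ℕ, ∑ n ∈ Finset.Ico (2 ^ s) (2 ^ (s + 1)), ‖b n‖ ^ 2 ≤ 1)
    (N : ℕ) (c : ℕ → ℂ) :
    ∫ t in (0:ℝ)..(2 * Real.pi), ‖∑ n ∈ Finset.range N, b n * c n * Complex.exp ((n : ℂ) * (t : ℂ) * Complex.I)‖ ≤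
      4 * ∫ t in (0:ℝ)..(2 * Real.pi), ‖∑ n ∈ Finset.range N, c n * Complex.exp ((n : ℂ) * (t : ℂ) * Complex.I)‖ := by
  have hexp : ∀ (n : ℕ) (t : ℝ), Complex.exp ((n : ℂ) * (t : ℂ) * Complex.I) = e n t := by
    intro n t
    rw [e]; norm_cast
  simp_rw [hexp]
  set c' : ℕ → ℂ := fun n => if n < N then c n else 0 with hc'
  have hcc : ∀ t, ∑ n ∈ Finset.range N, c n * e n t = ∑ n ∈ Finset.range N, c' n * e n t := by
    intro t
    refine Finset.sum_congr rfl fun n hn => ?_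
    rw [hc']; simp [Finset.mem_range.1 hn]
  have hbc : ∀ t, ∑ n ∈ Finset.range N, b n * c n * e n t = ∑ n ∈ Finset.range N, (b n * c' n) * e n t := by
    intro t
    refine Finset.sum_congr rfl fun n hn => ?_
    rw [hc']; simp [Finset.mem_range.1 hn]
  simp_rw [hcc, hbc]
  have h := block_mult b hb0 hb N c' (fun m hm => by rw [hc']; simp [not_lt.2 hm])
  have hP := parseval N (fun n => b n * c' n)
  set F : ℝ → ℂ := fun t => ∑ m ∈ Finset.range N, (b m * c' m) * e m t with hF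
  set I := ∫ t in (0:ℝ)..(2 * Real.pi), ‖∑ m ∈ Finset.range N, c' m * e m t‖ with hI
  have hI0 : 0 ≤ I := intervalIntegral.integral_nonneg (by positivity) fun _ _ => norm_nonneg _
  have hFc : Continuous F := continuous_finsetSum _ fun j _ => continuous_const.mul (cont_e _)
  set A := ∫ t in (0:ℝ)..(2 * Real.pi), ‖F t‖ with hA
  have hA0 : 0 ≤ A := intervalIntegral.integral_nonneg (by positivity) fun _ _ => norm_nonneg _
  -- Cauchy-Schwarz: A^2 ≤ 2π ∫ |F|^2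
  have hpi : (0:ℝ) < 2 * Real.pi := by positivity
  have hCS : A ^ 2 ≤ 2 * Real.pi * ∫ t in (0:ℝ)..(2 * Real.pi), ‖F t‖ ^ 2 := by
    set x := A / (2 * Real.pi) with hx
    have h1 : 0 ≤ ∫ t in (0:ℝ)..(2 * Real.pi), (‖F t‖ - x) ^ 2 :=
      intervalIntegral.integral_nonneg hpi.le fun _ _ => by positivity
    have h2 : ∫ t in (0:ℝ)..(2 * Real.pi), (‖F t‖ - x) ^ 2 =
        (∫ t in (0:ℝ)..(2 * Real.pi), ‖F t‖ ^ 2) - 2 * x * A + 2 * Real.pi * x ^ 2 := by
      have h3 : ∀ t, (‖F t‖ - x) ^ 2 = ‖F t‖ ^ 2 - 2 * x * ‖F t‖ + x ^ 2 := fun t => by ring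
      simp_rw [h3]
      rw [intervalIntegral.integral_add, intervalIntegral.integral_sub, intervalIntegral.integral_const_mul,
        intervalIntegral.integral_const, ← hA]
      · simp only [sub_zero, smul_eq_mul]
      · exact (hFc.norm.pow 2).intervalIntegrable _ _
      · exact (continuous_const.mul hFc.norm).intervalIntegrable _ _
      · exact ((hFc.norm.pow 2).sub (continuous_const.mul hFc.norm)).intervalIntegrable _ _
      · exact continuous_const.intervalIntegrable _ _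
    rw [h2] at h1
    have h4 : A = 2 * Real.pi * x := by rw [hx]; field_simp
    have h5 : 2 * x * A = 2 * (2 * Real.pi * x ^ 2) := by rw [h4]; ring
    have h6 : A ^ 2 = 2 * Real.pi * (2 * Real.pi * x ^ 2) := by rw [h4]; ring
    rw [h6]
    apply mul_le_mul_of_nonneg_left _ hpi.le
    linarith
  have h7 : A ^ 2 ≤ (4 * I) ^ 2 := by
    have h8 : ∫ t in (0:ℝ)..(2 * Real.pi), ‖F t‖ ^ 2 = 2 * Real.pi * ∑ n ∈ Finset.range N, ‖b n * c' n‖ ^ 2 := hP
    rw [h8] at hCS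
    calc A ^ 2 ≤ 2 * Real.pi * (2 * Real.pi * ∑ n ∈ Finset.range N, ‖b n * c' n‖ ^ 2) := hCS
      _ = (2 * Real.pi) ^ 2 * ∑ n ∈ Finset.range N, ‖b n * c' n‖ ^ 2 := by ring
      _ ≤ 16 * I ^ 2 := h
      _ = (4 * I) ^ 2 := by ring
  exact le_of_sq_le_sq₀ h7 (by positivity)
where
  le_of_sq_le_sq₀ {x y : ℝ} (h : x ^ 2 ≤ y ^ 2) (hy : 0 ≤ y) : x ≤ y := abs_le_of_sq_le_sq' h hy |>.2

/-- the primitive `K`-th root of unity -/
noncomputable def zeta (K : ℕ) : ℂ := Complex.exp (2 * Real.pi * Complex.I / K)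

theorem norm_zeta (K : ℕ) : ‖zeta K‖ = 1 := by
  have : 2 * Real.pi * Complex.I / K = ((2 * Real.pi / K : ℝ) : ℂ) * Complex.I := by push_cast; ring
  rw [zeta, this, Complex.norm_exp_ofReal_mul_I]

/-- the counterexample: `b (2^(K²+k) + m) = (2K)^{-1/2} ζ_K^{k m}` for `0 ≤ k < K`, `0 ≤ m < 2K` -/
noncomputable def bb (n : ℕ) : ℂ :=
  if Nat.log 2 n - (Nat.sqrt (Nat.log 2 n)) ^ 2 < Nat.sqrt (Nat.log 2 n) ∧
      n - 2 ^ (Nat.log 2 n) < 2 * Nat.sqrt (Nat.log 2 n) then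
    ((Real.sqrt (2 * Nat.sqrt (Nat.log 2 n)))⁻¹ : ℝ) *
      zeta (Nat.sqrt (Nat.log 2 n)) ^ ((Nat.log 2 n - (Nat.sqrt (Nat.log 2 n)) ^ 2) * (n - 2 ^ (Nat.log 2 n)))
  else 0

theorem bb_zero : bb 0 = 0 := by
  unfold bb
  simp

theorem bb_eq (K k m : ℕ) (hk : k < K) (hm : m < 2 * K) :
    bb (2 ^ (K ^ 2 + k) + m) = ((Real.sqrt (2 * K))⁻¹ : ℝ) * zeta K ^ (k * m) := by
  have hm2 : m < 2 ^ (K ^ 2 + k) := by
    have h1 : 2 * K ≤ 2 ^ (K ^ 2) := by
      have h2 : K < 2 ^ K := Nat.lt_two_pow_self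
      rcases Nat.lt_or_ge K 2 with h3 | h3
      · interval_cases K
        · omega
        · norm_num
      · have h4 : 2 ^ (K + 1) ≤ 2 ^ (K ^ 2) := Nat.pow_le_pow_right (by norm_num) (by nlinarith)
        rw [pow_succ] at h4
        omega
    have h5 : 2 ^ (K ^ 2) ≤ 2 ^ (K ^ 2 + k) := Nat.pow_le_pow_right (by norm_num) (by omega)
    omega
  have hlog : Nat.log 2 (2 ^ (K ^ 2 + k) + m) = K ^ 2 + k := by
    generalize K ^ 2 + k = L at hm2 ⊢
    rw [Nat.log_eq_iff (by right; constructor <;> [norm_num; positivity])]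
    constructor
    · omega
    · rw [pow_succ]; omega
  have hsqrt : Nat.sqrt (K ^ 2 + k) = K := Nat.sqrt_add_eq' K (by omega)
  unfold bb
  rw [hlog, hsqrt]
  rw [if_pos (by constructor <;> omega)]
  congr 2
  rw [Nat.add_sub_cancel_left, Nat.add_sub_cancel_left]

/-- the blocks of `bb` have `ℓ²` norm at most one -/
theorem bb_block (s : ℕ) : ∑ n ∈ Finset.Ico (2 ^ s) (2 ^ (s + 1)), ‖bb n‖ ^ 2 ≤ 1 := by
  set K := Nat.sqrt s with hK
  have hlog : ∀ n ∈ Finset.Ico (2 ^ s) (2 ^ (s + 1)), Nat.log 2 n = s := by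
    intro n hn
    rw [Finset.mem_Ico] at hn
    have hpos : 0 < 2 ^ s := by positivity
    have hn0 : n ≠ 0 := by omega
    rw [Nat.log_eq_iff (Or.inr ⟨by norm_num, hn0⟩)]
    exact hn
  have h1 : ∀ n ∈ Finset.Ico (2 ^ s) (2 ^ (s + 1)), ‖bb n‖ ^ 2 ≤ if n < 2 ^ s + 2 * K then 1 / (2 * K : ℝ) else 0 := by
    intro n hn
    have hn' := Finset.mem_Ico.1 hn
    unfold bb
    rw [hlog n hn, ← hK]
    by_cases h2 : s - K ^ 2 < K ∧ n - 2 ^ s < 2 * K
    · rw [if_pos h2, if_pos (by omega)]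
      rw [norm_mul, norm_pow, norm_zeta, one_pow, mul_one, Complex.norm_real, norm_inv, Real.norm_of_nonneg (Real.sqrt_nonneg _),
        inv_pow, Real.sq_sqrt (by positivity), one_div]
    · rw [if_neg h2]
      split_ifs
      · simp only [norm_zero, ne_eq, OfNat.ofNat_ne_zero, not_false_eq_true, zero_pow]
        positivity
      · simp
  refine (Finset.sum_le_sum h1).trans ?_
  rw [← Finset.sum_filter]
  rw [Finset.sum_const, nsmul_eq_mul]
  have hcard : (Finset.filter (fun n => n < 2 ^ s + 2 * K) (Finset.Ico (2 ^ s) (2 ^ (s + 1)))).card ≤ 2 * K := by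
    have : Finset.filter (fun n => n < 2 ^ s + 2 * K) (Finset.Ico (2 ^ s) (2 ^ (s + 1))) ⊆ Finset.Ico (2 ^ s) (2 ^ s + 2 * K) := by
      intro n hn
      rw [Finset.mem_filter, Finset.mem_Ico] at hn
      rw [Finset.mem_Ico]
      omega
    refine (Finset.card_le_card this).trans ?_
    rw [Nat.card_Ico]
    omega
  rcases Nat.eq_zero_or_pos K with h0 | h0
  · rw [h0]; simp
  · have hK0 : (0 : ℝ) < 2 * K := by positivity
    have : ((Finset.filter (fun n => n < 2 ^ s + 2 * K) (Finset.Ico (2 ^ s) (2 ^ (s + 1)))).card : ℝ) ≤ 2 * K := by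
      exact_mod_cast hcard
    rw [mul_one_div, div_le_one hK0]
    exact this

/-- orthogonality of characters -/
theorem orth (K : ℕ) (hK : 0 < K) (p q : ℕ) (hp : p < K) (hq : q < K) :
    ∑ k ∈ Finset.range K, (conj (zeta K)) ^ (k * p) * (zeta K) ^ (k * q) = if p = q then (K : ℂ) else 0 := by
  have hprim : IsPrimitiveRoot (zeta K) K := Complex.isPrimitiveRoot_exp K hK.ne'
  have hnz : zeta K ≠ 0 := by
    intro h
    have := norm_zeta K
    rw [h, norm_zero] at this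
    exact zero_ne_one this
  have hconj : conj (zeta K) = (zeta K)⁻¹ := by
    rw [Complex.inv_def, Complex.normSq_eq_norm_sq, norm_zeta]
    simp
  rw [hconj]
  have h1 : ∀ k ∈ Finset.range K, (zeta K)⁻¹ ^ (k * p) * (zeta K) ^ (k * q) = ((zeta K)⁻¹ ^ p * (zeta K) ^ q) ^ k := by
    intro k _
    rw [mul_pow, ← pow_mul, ← pow_mul, mul_comm k p, mul_comm k q]
  rw [Finset.sum_congr rfl h1]
  split_ifs with h
  · subst h
    have : (zeta K)⁻¹ ^ p * zeta K ^ p = 1 := by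
      rw [← mul_pow, inv_mul_cancel₀ hnz, one_pow]
    rw [this]
    simp
  · set x := (zeta K)⁻¹ ^ p * (zeta K) ^ q with hx
    have hx1 : x ≠ 1 := by
      intro h2
      apply h
      have h3 : zeta K ^ q = zeta K ^ p := by
        rw [hx, inv_pow] at h2
        field_simp at h2
        exact h2
      exact (hprim.pow_inj hq hp h3).symm
    have hxK : x ^ K = 1 := by
      rw [hx, mul_pow, ← pow_mul, ← pow_mul, mul_comm p, mul_comm q, pow_mul, pow_mul, inv_pow, hprim.pow_eq_one]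
      simp
    have := mul_neg_geom_sum x K
    rw [hxK, sub_self, mul_eq_zero] at this
    rcases this with h4 | h4
    · exact absurd (sub_eq_zero.1 h4).symm hx1
    · exact h4

/-- discrete Parseval (Bessel) bound -/
theorem dft_bound (K : ℕ) (hK : 0 < K) (y : ℕ → ℂ) (s : ℝ) (hy : ∀ p, p < K → ‖y p‖ ≤ s) :
    ∑ k ∈ Finset.range K, ‖∑ p ∈ Finset.range K, y p * (conj (zeta K)) ^ (k * p)‖ ^ 2 ≤ K ^ 2 * s ^ 2 := by
  have h1 : ((∑ k ∈ Finset.range K, ‖∑ p ∈ Finset.range K, y p * (conj (zeta K)) ^ (k * p)‖ ^ 2 : ℝ) : ℂ) =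
      ((K * ∑ p ∈ Finset.range K, ‖y p‖ ^ 2 : ℝ) : ℂ) := by
    push_cast
    have h2 : ∀ k ∈ Finset.range K, (‖∑ p ∈ Finset.range K, y p * (conj (zeta K)) ^ (k * p)‖ : ℂ) ^ 2 =
        ∑ p ∈ Finset.range K, ∑ q ∈ Finset.range K, (y p * conj (y q)) *
          ((conj (zeta K)) ^ (k * p) * (zeta K) ^ (k * q)) := by
      intro k _
      rw [← Complex.mul_conj', map_sum, Finset.sum_mul_sum]
      refine Finset.sum_congr rfl fun p _ => Finset.sum_congr rfl fun q _ => ?_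
      rw [map_mul, map_pow, Complex.conj_conj]
      ring
    rw [Finset.sum_congr rfl h2, Finset.sum_comm, Finset.mul_sum]
    refine Finset.sum_congr rfl fun p hp => ?_
    rw [Finset.sum_comm]
    have h3 : ∀ q ∈ Finset.range K, ∑ k ∈ Finset.range K, (y p * conj (y q)) *
        ((conj (zeta K)) ^ (k * p) * (zeta K) ^ (k * q)) = (y p * conj (y q)) * (if p = q then (K : ℂ) else 0) := by
      intro q hq
      rw [← Finset.mul_sum, orth K hK p q (Finset.mem_range.1 hp) (Finset.mem_range.1 hq)]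
    rw [Finset.sum_congr rfl h3, Finset.sum_eq_single p]
    · rw [if_pos rfl, Complex.mul_conj']
      ring
    · intro q _ hq
      rw [if_neg (Ne.symm hq), mul_zero]
    · intro h
      exact absurd hp h
  have h4 : ∑ k ∈ Finset.range K, ‖∑ p ∈ Finset.range K, y p * (conj (zeta K)) ^ (k * p)‖ ^ 2 =
      K * ∑ p ∈ Finset.range K, ‖y p‖ ^ 2 := by exact_mod_cast h1
  rw [h4]
  have h5 : ∑ p ∈ Finset.range K, ‖y p‖ ^ 2 ≤ K * s ^ 2 := by
    calc ∑ p ∈ Finset.range K, ‖y p‖ ^ 2 ≤ ∑ p ∈ Finset.range K, s ^ 2 :=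
          Finset.sum_le_sum fun p hp => pow_le_pow_left₀ (norm_nonneg _) (hy p (Finset.mem_range.1 hp)) 2
      _ = K * s ^ 2 := by rw [Finset.sum_const, Finset.card_range, nsmul_eq_mul]
  calc (K : ℝ) * ∑ p ∈ Finset.range K, ‖y p‖ ^ 2 ≤ K * (K * s ^ 2) := mul_le_mul_of_nonneg_left h5 (by positivity)
    _ = K ^ 2 * s ^ 2 := by ring

/-- the trilinear form is bounded on elementary tensors -/
theorem form_bound (K : ℕ) (hK : 0 < K) (x y z : ℕ → ℂ) (s₁ s₂ s₃ : ℝ)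
    (hx : ∀ k, k < K → ‖x k‖ ≤ s₁) (hy : ∀ k, k < K → ‖y k‖ ≤ s₂) (hz : ∀ k, k < K → ‖z k‖ ≤ s₃) :
    ‖∑ k ∈ Finset.range K, ∑ p ∈ Finset.range K, ∑ q ∈ Finset.range K,
      (conj (zeta K)) ^ (k * p) * (conj (zeta K)) ^ (k * q) * (x k * y p * z q)‖ ≤ K ^ 2 * (s₁ * s₂ * s₃) := by
  have hs1 : 0 ≤ s₁ := (norm_nonneg _).trans (hx 0 hK)
  have hs2 : 0 ≤ s₂ := (norm_nonneg _).trans (hy 0 hK)
  have hs3 : 0 ≤ s₃ := (norm_nonneg _).trans (hz 0 hK)
  set Y : ℕ → ℂ := fun k => ∑ p ∈ Finset.range K, y p * (conj (zeta K)) ^ (k * p) with hY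
  set Z : ℕ → ℂ := fun k => ∑ p ∈ Finset.range K, z p * (conj (zeta K)) ^ (k * p) with hZ
  have h1 : ∀ k ∈ Finset.range K, ∑ p ∈ Finset.range K, ∑ q ∈ Finset.range K,
      (conj (zeta K)) ^ (k * p) * (conj (zeta K)) ^ (k * q) * (x k * y p * z q) = x k * (Y k * Z k) := by
    intro k _
    rw [hY, hZ]
    simp only
    rw [Finset.sum_mul_sum, Finset.mul_sum]
    refine Finset.sum_congr rfl fun p _ => ?_
    rw [Finset.mul_sum]
    refine Finset.sum_congr rfl fun q _ => ?_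
    ring
  rw [Finset.sum_congr rfl h1]
  calc ‖∑ k ∈ Finset.range K, x k * (Y k * Z k)‖ ≤ ∑ k ∈ Finset.range K, s₁ * (‖Y k‖ * ‖Z k‖) := by
        refine (norm_sum_le _ _).trans (Finset.sum_le_sum fun k hk => ?_)
        rw [norm_mul, norm_mul]
        exact mul_le_mul_of_nonneg_right (hx k (Finset.mem_range.1 hk)) (by positivity)
    _ = s₁ * ∑ k ∈ Finset.range K, ‖Y k‖ * ‖Z k‖ := by rw [Finset.mul_sum]
    _ ≤ s₁ * (K ^ 2 * (s₂ * s₃)) := by
        apply mul_le_mul_of_nonneg_left _ hs1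
        have hY2 := dft_bound K hK y s₂ hy
        have hZ2 := dft_bound K hK z s₃ hz
        have hCS := Finset.sum_mul_sq_le_sq_mul_sq (Finset.range K) (fun k => ‖Y k‖) (fun k => ‖Z k‖)
        have h2 : (∑ k ∈ Finset.range K, ‖Y k‖ * ‖Z k‖) ^ 2 ≤ (K ^ 2 * (s₂ * s₃)) ^ 2 := by
          refine hCS.trans ?_
          calc (∑ k ∈ Finset.range K, ‖Y k‖ ^ 2) * ∑ k ∈ Finset.range K, ‖Z k‖ ^ 2
              ≤ (K ^ 2 * s₂ ^ 2) * (K ^ 2 * s₃ ^ 2) := by
                apply mul_le_mul hY2 hZ2 (Finset.sum_nonneg fun _ _ => by positivity) (by positivity)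
            _ = (K ^ 2 * (s₂ * s₃)) ^ 2 := by ring
        exact abs_le_of_sq_le_sq' h2 (by positivity) |>.2
    _ = K ^ 2 * (s₁ * s₂ * s₃) := by ring

/-- lower bound of the projective norm of the third Hankel tensor of `bb` -/
theorem no_rep (C : ℝ) (h : ∀ N : ℕ, ∃ (K' : ℕ) (a : Fin K' → Fin 3 → ℕ → ℂ) (s : Fin K' → Fin 3 → ℝ),
        (∀ n : Fin 3 → ℕ, (∀ i, n i ≤ N) → bb (∑ i, n i) = ∑ k, ∏ i, a k i (n i)) ∧
        (∀ k i m, m ≤ N → ‖a k i m‖ ≤ s k i) ∧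
        ∑ k, ∏ i, s k i ≤ C) : False := by
  obtain ⟨K, hKC⟩ := exists_nat_gt (2 * C ^ 2)
  have hK0 : 0 < K := by
    rcases Nat.eq_zero_or_pos K with h0 | h0
    · subst h0
      have : (0:ℝ) ≤ 2 * C ^ 2 := by positivity
      simp only [Nat.cast_zero] at hKC
      linarith
    · exact h0
  obtain ⟨K', a, s, h1, h2, h3⟩ := h (2 ^ (K ^ 2 + K) + K)
  have hL : ∀ k, k < K → 2 ^ (K ^ 2 + k) ≤ 2 ^ (K ^ 2 + K) + K := by
    intro k hk
    have : 2 ^ (K ^ 2 + k) ≤ 2 ^ (K ^ 2 + K) := Nat.pow_le_pow_right (by norm_num) (by omega)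
    omega
  -- the left side
  have hval : ∑ k ∈ Finset.range K, ∑ p ∈ Finset.range K, ∑ q ∈ Finset.range K,
      (conj (zeta K)) ^ (k * p) * (conj (zeta K)) ^ (k * q) * bb (2 ^ (K ^ 2 + k) + (p + q)) =
      ((K ^ 3 * (Real.sqrt (2 * K))⁻¹ : ℝ) : ℂ) := by
    have h4 : ∀ k ∈ Finset.range K, ∀ p ∈ Finset.range K, ∀ q ∈ Finset.range K,
        (conj (zeta K)) ^ (k * p) * (conj (zeta K)) ^ (k * q) * bb (2 ^ (K ^ 2 + k) + (p + q)) =
          (((Real.sqrt (2 * K))⁻¹ : ℝ) : ℂ) := by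
      intro k hk p hp q hq
      rw [Finset.mem_range] at hk hp hq
      rw [bb_eq K k (p + q) hk (by omega), ← pow_add, ← mul_add]
      have h5 : (conj (zeta K)) ^ (k * (p + q)) * zeta K ^ (k * (p + q)) = 1 := by
        rw [← mul_pow, Complex.conj_mul', norm_zeta]
        simp
      calc (conj (zeta K)) ^ (k * (p + q)) * ((((Real.sqrt (2 * K))⁻¹ : ℝ) : ℂ) * zeta K ^ (k * (p + q)))
          = (((Real.sqrt (2 * K))⁻¹ : ℝ) : ℂ) * ((conj (zeta K)) ^ (k * (p + q)) * zeta K ^ (k * (p + q))) := by ring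
        _ = _ := by rw [h5, mul_one]
    rw [Finset.sum_congr rfl fun k hk => Finset.sum_congr rfl fun p hp => Finset.sum_congr rfl fun q hq => h4 k hk p hp q hq]
    simp only [Finset.sum_const, Finset.card_range, nsmul_eq_mul]
    push_cast
    ring
  -- the right side
  have hrep : ∀ k ∈ Finset.range K, ∀ p ∈ Finset.range K, ∀ q ∈ Finset.range K,
      bb (2 ^ (K ^ 2 + k) + (p + q)) = ∑ α, a α 0 (2 ^ (K ^ 2 + k)) * a α 1 p * a α 2 q := by
    intro k hk p hp q hq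
    rw [Finset.mem_range] at hk hp hq
    have := h1 ![2 ^ (K ^ 2 + k), p, q] (by
      intro i
      fin_cases i
      · exact hL k hk
      · exact le_trans hp.le (Nat.le_add_left _ _)
      · exact le_trans hq.le (Nat.le_add_left _ _))
    simp only [Fin.sum_univ_three, Fin.prod_univ_three, Matrix.cons_val_zero, Matrix.cons_val_one, Matrix.cons_val] at this
    rw [← this]
    congr 1
    ring
  have hval2 : ∑ k ∈ Finset.range K, ∑ p ∈ Finset.range K, ∑ q ∈ Finset.range K,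
      (conj (zeta K)) ^ (k * p) * (conj (zeta K)) ^ (k * q) * bb (2 ^ (K ^ 2 + k) + (p + q)) =
      ∑ α, ∑ k ∈ Finset.range K, ∑ p ∈ Finset.range K, ∑ q ∈ Finset.range K,
      (conj (zeta K)) ^ (k * p) * (conj (zeta K)) ^ (k * q) * (a α 0 (2 ^ (K ^ 2 + k)) * a α 1 p * a α 2 q) := by
    symm
    rw [Finset.sum_comm]
    refine Finset.sum_congr rfl fun k hk => ?_
    rw [Finset.sum_comm]
    refine Finset.sum_congr rfl fun p hp => ?_
    rw [Finset.sum_comm]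
    refine Finset.sum_congr rfl fun q hq => ?_
    rw [hrep k hk p hp q hq, Finset.mul_sum]
  have hbound : ∀ α : Fin K', ‖∑ k ∈ Finset.range K, ∑ p ∈ Finset.range K, ∑ q ∈ Finset.range K,
      (conj (zeta K)) ^ (k * p) * (conj (zeta K)) ^ (k * q) * (a α 0 (2 ^ (K ^ 2 + k)) * a α 1 p * a α 2 q)‖ ≤
      K ^ 2 * (s α 0 * s α 1 * s α 2) := by
    intro α
    refine form_bound K hK0 (fun k => a α 0 (2 ^ (K ^ 2 + k))) (a α 1) (a α 2) _ _ _ ?_ ?_ ?_
    · intro k hk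
      exact h2 α 0 _ (hL k hk)
    · intro k hk
      exact h2 α 1 _ (le_trans hk.le (Nat.le_add_left _ _))
    · intro k hk
      exact h2 α 2 _ (le_trans hk.le (Nat.le_add_left _ _))
  have h6 : (K : ℝ) ^ 3 * (Real.sqrt (2 * K))⁻¹ ≤ K ^ 2 * C := by
    have h7 : ‖((K ^ 3 * (Real.sqrt (2 * K))⁻¹ : ℝ) : ℂ)‖ = (K : ℝ) ^ 3 * (Real.sqrt (2 * K))⁻¹ := by
      rw [Complex.norm_real, Real.norm_of_nonneg (by positivity)]
    rw [← h7, ← hval, hval2]
    refine (norm_sum_le _ _).trans ?_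
    refine (Finset.sum_le_sum fun α _ => hbound α).trans ?_
    rw [← Finset.mul_sum]
    apply mul_le_mul_of_nonneg_left _ (by positivity)
    refine le_trans (le_of_eq ?_) h3
    refine Finset.sum_congr rfl fun α _ => ?_
    rw [Fin.prod_univ_three]
  have hKr : (0 : ℝ) < K := by exact_mod_cast hK0
  have hsq : 0 < Real.sqrt (2 * K) := Real.sqrt_pos.2 (by positivity)
  have h8 : (K : ℝ) ≤ C * Real.sqrt (2 * K) := by
    have h9 : (K : ℝ) ^ 2 * K ≤ K ^ 2 * (C * Real.sqrt (2 * K)) := by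
      have := mul_le_mul_of_nonneg_right h6 hsq.le
      have h10 : (K : ℝ) ^ 3 * (Real.sqrt (2 * K))⁻¹ * Real.sqrt (2 * K) = K ^ 2 * K := by
        field_simp
      rw [h10] at this
      linarith
    exact le_of_mul_le_mul_left h9 (by positivity)
  have h11 : (K : ℝ) ^ 2 ≤ C ^ 2 * (2 * K) := by
    have := pow_le_pow_left₀ hKr.le h8 2
    rw [mul_pow, Real.sq_sqrt (by positivity)] at this
    exact this
  have h12 : (K : ℝ) ≤ 2 * C ^ 2 := by nlinarith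
  linarith

theorem main : ¬ (∀ b : ℕ → ℂ,
    (∃ C : ℝ, ∀ (N : ℕ) (c : ℕ → ℂ),
      ∫ t in (0:ℝ)..(2 * Real.pi),
          ‖∑ n ∈ Finset.range N, b n * c n * Complex.exp ((n : ℂ) * (t : ℂ) * Complex.I)‖
        ≤ C * ∫ t in (0:ℝ)..(2 * Real.pi),
          ‖∑ n ∈ Finset.range N, c n * Complex.exp ((n : ℂ) * (t : ℂ) * Complex.I)‖) →
    ∃ C : ℝ, ∀ M : ℕ, 2 ≤ M → ∀ N : ℕ,
      ∃ (K : ℕ) (a : Fin K → Fin M → ℕ → ℂ) (s : Fin K → Fin M → ℝ),
        (∀ n : Fin M → ℕ, (∀ i, n i ≤ N) → b (∑ i, n i) = ∑ k, ∏ i, a k i (n i)) ∧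
        (∀ k i m, m ≤ N → ‖a k i m‖ ≤ s k i) ∧
        ∑ k, ∏ i, s k i ≤ Real.exp (C * (M : ℝ))) := by
  intro h
  obtain ⟨C, hC⟩ := h bb ⟨4, fun N c => mult_H1 bb bb_zero bb_block N c⟩
  exact no_rep (Real.exp (C * ((3 : ℕ) : ℝ))) fun N => hC 3 (by norm_num) N

end Pool.Agent.H724R2.HankelTensor
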