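import Mathlib

set_option autoImplicit false

namespace Pool.Agent.H724R2.L2FT

open MeasureTheory FourierTransform SchwartzMap
open scoped ENNReal

/-- `L²(ℝ)` -/
noncomputable abbrev H := Lp ℂ 2 (volume : Measure ℝ)

theorem schwartz_fourier (h : SchwartzMap ℝ ℂ) (x : ℝ) :
    (𝓕 h) x = ∫ ξ : ℝ, Complex.exp (((-2 * Real.pi * x * ξ : ℝ) : ℂ) * Complex.I) * h ξ := by
  rw [SchwartzMap.fourier_coe, Real.fourier_eq']
  refine integral_congr_ae (Filter.Eventually.of_forall fun ξ => ?_)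
  simp only [smul_eq_mul]
  congr 3
  simp
  ring

theorem pairing (f : H) (h : SchwartzMap ℝ ℂ) :
    ∫ ξ, h ξ * (𝓕 f : H) ξ = ∫ x, (𝓕 h) x * f x := by
  have h1 := Lp.fourier_toTemperedDistribution_eq f
  have h2 := DFunLike.congr_fun h1 h
  rw [TemperedDistribution.fourier_apply, Lp.toTemperedDistribution_apply, Lp.toTemperedDistribution_apply] at h2
  simpa [smul_eq_mul] using h2.symm

theorem dist_rel (f : H) (h : SchwartzMap ℝ ℂ) :
    ∫ ξ : ℝ, (𝓕 f : H) ξ * h ξ = ∫ x : ℝ, f x *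
      ∫ ξ : ℝ, Complex.exp (((-2 * Real.pi * x * ξ : ℝ) : ℂ) * Complex.I) * h ξ := by
  have h1 := pairing f h
  have h2 : ∫ ξ : ℝ, (𝓕 f : H) ξ * h ξ = ∫ ξ, h ξ * (𝓕 f : H) ξ := by
    congr 1; ext ξ; ring
  rw [h2, h1]
  congr 1; ext x
  rw [schwartz_fourier, mul_comm]

theorem eq_of_pairing (f g : H) (h : ∀ φ : SchwartzMap ℝ ℂ, ∫ x, φ x * f x = ∫ x, φ x * g x) : f = g := by
  have hk := Lp.ker_toTemperedDistributionCLM_eq_bot (F := ℂ) (μ := (volume : Measure ℝ)) (p := 2)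
  have : f - g ∈ (Lp.toTemperedDistributionCLM ℂ (volume : Measure ℝ) 2).ker := by
    rw [LinearMap.mem_ker]
    rw [ContinuousLinearMap.coe_coe, map_sub, sub_eq_zero]
    ext φ
    rw [Lp.toTemperedDistributionCLM_apply, Lp.toTemperedDistributionCLM_apply,
      Lp.toTemperedDistribution_apply, Lp.toTemperedDistribution_apply]
    simpa [smul_eq_mul] using h φ
  rw [hk] at this
  exact sub_eq_zero.1 this

/-- the character -/
noncomputable def ch (a : ℝ) (ξ : ℝ) : ℂ := Complex.exp (((-2 * Real.pi * a * ξ : ℝ) : ℂ) * Complex.I)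

theorem norm_ch (a ξ : ℝ) : ‖ch a ξ‖ = 1 := by
  rw [ch, Complex.norm_exp_ofReal_mul_I]

theorem cont_ch (a : ℝ) : Continuous (ch a) := by
  unfold ch; fun_prop

/-- modulated Schwartz function -/
theorem exists_mod (a : ℝ) (h : SchwartzMap ℝ ℂ) : ∃ h' : SchwartzMap ℝ ℂ,
    (∀ ξ, h' ξ = ch a ξ * h ξ) ∧ ∀ x, (𝓕 h') x = (𝓕 h) (x + a) := by
  set Ha : SchwartzMap ℝ ℂ := SchwartzMap.compSubConstCLM ℂ (-a) (𝓕 h) with hHa
  refine ⟨𝓕⁻ Ha, ?_, ?_⟩
  · intro ξ
    have h1 : (𝓕⁻ Ha) ξ = ∫ x : ℝ, Complex.exp (((2 * Real.pi * x * ξ : ℝ) : ℂ) * Complex.I) * Ha x := by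
      rw [SchwartzMap.fourierInv_coe, Real.fourierInv_eq']
      refine integral_congr_ae (Filter.Eventually.of_forall fun x => ?_)
      simp only [smul_eq_mul]
      congr 3
      simp
      ring
    have h2 : h ξ = ∫ x : ℝ, Complex.exp (((2 * Real.pi * x * ξ : ℝ) : ℂ) * Complex.I) * (𝓕 h) x := by
      have h3 : h = 𝓕⁻ (𝓕 h) := by simp
      conv_lhs => rw [h3]
      rw [SchwartzMap.fourierInv_coe, Real.fourierInv_eq']
      refine integral_congr_ae (Filter.Eventually.of_forall fun x => ?_)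
      simp only [smul_eq_mul]
      congr 3
      simp
      ring
    rw [h1, h2]
    have h4 : ∀ x, Ha x = (𝓕 h) (x + a) := by
      intro x
      rw [hHa, SchwartzMap.compSubConstCLM_apply]
      congr 1; ring
    simp_rw [h4]
    rw [← integral_const_mul]
    refine Eq.trans ?_ (integral_add_right_eq_self (μ := (volume : Measure ℝ))
      (fun x : ℝ => ch a ξ * (Complex.exp (((2 * Real.pi * x * ξ : ℝ) : ℂ) * Complex.I) * (𝓕 h) x)) a)
    congr 1
    ext x
    rw [← mul_assoc, ch, ← Complex.exp_add]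
    congr 2
    push_cast
    ring
  · intro x
    have : 𝓕 (𝓕⁻ Ha) = Ha := by simp
    rw [this, hHa, SchwartzMap.compSubConstCLM_apply]
    congr 1; ring

theorem memLp_translate {v : ℝ → ℂ} (hv : MemLp v 2 volume) (a : ℝ) : MemLp (fun x => v (x - a)) 2 volume :=
  hv.comp_measurePreserving (measurePreserving_sub_right volume a)

theorem eLpNorm_translate {v : ℝ → ℂ} (hv : MemLp v 2 volume) (a : ℝ) :
    eLpNorm (fun x => v (x - a)) 2 volume = eLpNorm v 2 volume :=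
  eLpNorm_comp_measurePreserving hv.1 (measurePreserving_sub_right volume a)

theorem memLp_mod {v : ℝ → ℂ} (hv : MemLp v 2 volume) (a : ℝ) : MemLp (fun ξ => ch a ξ * v ξ) 2 volume := by
  refine hv.of_le ((cont_ch a).aestronglyMeasurable.mul hv.1) (Filter.Eventually.of_forall fun ξ => ?_)
  rw [norm_mul, norm_ch, one_mul]

/-- the Fourier transform of a translate -/
theorem ft_translate {v : ℝ → ℂ} (hv : MemLp v 2 volume) (a : ℝ) :
    (𝓕 ((memLp_translate hv a).toLp _ : H) : H) = (memLp_mod (Lp.memLp (𝓕 (hv.toLp v : H) : H)) a).toLp _ := by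
  apply eq_of_pairing
  intro h
  rw [pairing]
  obtain ⟨h', h1, h2⟩ := exists_mod a h
  have e1 : ∫ x, (𝓕 h) x * ((memLp_translate hv a).toLp _ : H) x = ∫ x, (𝓕 h) x * v (x - a) := by
    refine integral_congr_ae ?_
    filter_upwards [(memLp_translate hv a).coeFn_toLp] with x hx
    rw [hx]
  have e2 : ∫ x, (𝓕 h) x * v (x - a) = ∫ x, (𝓕 h) (x + a) * v x := by
    refine Eq.trans (integral_add_right_eq_self (μ := (volume : Measure ℝ)) (fun x : ℝ => (𝓕 h) x * v (x - a)) a).symm ?_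
    congr 1; ext x
    rw [add_sub_cancel_right]
  have e3 : ∫ x, (𝓕 h) (x + a) * v x = ∫ x, (𝓕 h') x * (hv.toLp v : H) x := by
    refine integral_congr_ae ?_
    filter_upwards [hv.coeFn_toLp] with x hx
    rw [hx, h2]
  have e4 : ∫ x, h x * ((memLp_mod (Lp.memLp (𝓕 (hv.toLp v : H) : H)) a).toLp _ : H) x =
      ∫ x, h' x * (𝓕 (hv.toLp v : H) : H) x := by
    refine integral_congr_ae ?_
    filter_upwards [(memLp_mod (Lp.memLp (𝓕 (hv.toLp v : H) : H)) a).coeFn_toLp] with x hx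
    rw [hx, h1]
    ring
  rw [e1, e2, e3, e4, pairing]

/-! ### the good sets -/

/-- points whose multiple `R t` stays at distance `≥ s` from the integers -/
def Gd (R : ℕ) (s : ℝ) : Set ℝ := {t | ∀ j : ℤ, s ≤ |R * t - j|}

theorem measurableSet_Gd (R : ℕ) (s : ℝ) : MeasurableSet (Gd R s) := by
  have : Gd R s = ⋂ j : ℤ, {t : ℝ | s ≤ |R * t - j|} := by ext t; simp [Gd]
  rw [this]
  refine MeasurableSet.iInter fun j => ?_
  exact measurableSet_le measurable_const (by fun_prop)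

theorem volume_diff_Gd (R : ℕ) (hR : 1 ≤ R) (s : ℝ) (hs0 : 0 < s) (hs : s < 1) :
    volume (Set.Icc (0:ℝ) 1 \ Gd R s) ≤ ENNReal.ofReal (4 * s) := by
  have hR0 : (0 : ℝ) < R := by exact_mod_cast hR
  have hR1 : (1 : ℝ) ≤ R := by exact_mod_cast hR
  have hsub : Set.Icc (0:ℝ) 1 \ Gd R s ⊆ ⋃ j ∈ Finset.range (R + 1), Set.Ioo ((j : ℝ) / R - s / R) ((j : ℝ) / R + s / R) := by
    rintro t ⟨⟨ht0, ht1⟩, ht⟩
    simp only [Gd, Set.mem_ofPred_eq, not_forall, not_le] at ht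
    obtain ⟨j, hj⟩ := ht
    rw [abs_lt] at hj
    have hRt0 : 0 ≤ R * t := by positivity
    have hRt1 : R * t ≤ R := by nlinarith
    have hj0 : -1 < j := by
      have : (-1 : ℝ) < j := by linarith
      exact_mod_cast this
    have hj1 : j < R + 1 := by
      have : (j : ℝ) < R + 1 := by linarith
      exact_mod_cast this
    obtain ⟨n, rfl⟩ := Int.eq_ofNat_of_zero_le (show 0 ≤ j by omega)
    rw [Set.mem_iUnion₂]
    refine ⟨n, Finset.mem_range.2 (by omega), ?_⟩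
    rw [Int.cast_natCast] at hj
    rw [Set.mem_Ioo, ← sub_div, ← add_div, div_lt_iff₀ hR0, lt_div_iff₀ hR0]
    constructor <;> linarith
  refine (measure_mono hsub).trans ((measure_biUnion_finset_le _ _).trans ?_)
  have h1 : ∀ j ∈ Finset.range (R + 1), volume (Set.Ioo ((j : ℝ) / R - s / R) ((j : ℝ) / R + s / R)) =
      ENNReal.ofReal (2 * s / R) := by
    intro j _
    rw [Real.volume_Ioo]
    congr 1
    ring
  rw [Finset.sum_congr rfl h1, Finset.sum_const, Finset.card_range, nsmul_eq_mul]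
  rw [← ENNReal.ofReal_natCast, ← ENNReal.ofReal_mul (by positivity)]
  apply ENNReal.ofReal_le_ofReal
  push_cast
  rw [mul_div_assoc', div_le_iff₀ hR0]
  nlinarith

/-- the Fejer-type kernel -/
noncomputable def Ker (L R : ℕ) (t : ℝ) : ℂ :=
  (1 / (L : ℂ)) * ∑ i ∈ Finset.range L, ∑ j ∈ Finset.range L, ch ((((i : ℤ) - j : ℤ) : ℝ) * R) t

theorem ch_pow (R : ℕ) (t : ℝ) (i j : ℕ) :
    ch ((((i : ℤ) - j : ℤ) : ℝ) * R) t = ch R t ^ i * (starRingEnd ℂ) (ch R t ^ j) := by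
  have h1 : ∀ i : ℕ, ch R t ^ i = Complex.exp (((-2 * Real.pi * (i * R) * t : ℝ) : ℂ) * Complex.I) := by
    intro i
    rw [ch, ← Complex.exp_nat_mul]
    congr 1
    push_cast
    ring
  rw [h1, h1, ← Complex.exp_conj, map_mul, Complex.conj_ofReal, Complex.conj_I, ← Complex.exp_add, ch]
  congr 1
  push_cast
  ring

theorem Ker_eq (L R : ℕ) (t : ℝ) :
    Ker L R t = (1 / (L : ℂ)) * ((‖∑ i ∈ Finset.range L, ch R t ^ i‖ ^ 2 : ℝ) : ℂ) := by
  unfold Ker
  congr 1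
  rw [Complex.ofReal_pow, ← Complex.mul_conj', map_sum, Finset.sum_mul_sum]
  exact Finset.sum_congr rfl fun i _ => Finset.sum_congr rfl fun j _ => ch_pow R t i j

theorem norm_Ker (L R : ℕ) (t : ℝ) : ‖Ker L R t‖ = 1 / L * ‖∑ i ∈ Finset.range L, ch R t ^ i‖ ^ 2 := by
  rw [Ker_eq, norm_mul, Complex.norm_real, Real.norm_of_nonneg (by positivity)]
  simp

theorem norm_Ker_le (L R : ℕ) (hL : 1 ≤ L) (t : ℝ) : ‖Ker L R t‖ ≤ L := by
  have hL0 : (0 : ℝ) < L := by exact_mod_cast hL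
  rw [norm_Ker]
  have h1 : ‖∑ i ∈ Finset.range L, ch R t ^ i‖ ≤ L := by
    refine (norm_sum_le _ _).trans ?_
    simp [norm_pow, norm_ch]
  calc 1 / (L : ℝ) * ‖∑ i ∈ Finset.range L, ch R t ^ i‖ ^ 2 ≤ 1 / (L : ℝ) * (L : ℝ) ^ 2 := by gcongr
    _ = (L : ℝ) := by field_simp

theorem norm_Ker_small (L R : ℕ) (hL : 1 ≤ L) (s : ℝ) (hs : 0 < s) (t : ℝ) (ht : t ∈ Gd R s) :
    ‖Ker L R t‖ ≤ 1 / (4 * L * s ^ 2) := by
  have hL0 : (0 : ℝ) < L := by exact_mod_cast hL
  rw [norm_Ker]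
  set z := ch R t with hz
  have hz1 : 4 * s ≤ ‖z - 1‖ := by
    have e1 : z = Complex.exp (Complex.I * ((-2 * Real.pi * R * t : ℝ) : ℂ)) := by
      rw [hz, ch, mul_comm]
    rw [e1, Complex.norm_exp_I_mul_ofReal_sub_one]
    have e2 : (-2 * Real.pi * R * t) / 2 = -(Real.pi * (R * t)) := by ring
    rw [e2, Real.sin_neg, mul_neg, norm_neg, Real.norm_eq_abs, abs_mul, abs_of_pos (show (0:ℝ) < 2 by norm_num)]
    set θ := (R : ℝ) * t with hθ
    set r := θ - round θ with hr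
    have hr1 : |r| ≤ 1 / 2 := abs_sub_round θ
    have hr2 : s ≤ |r| := ht (round θ)
    have e3 : |Real.sin (Real.pi * θ)| = |Real.sin (Real.pi * r)| := by
      have : Real.pi * θ = Real.pi * r + (round θ : ℤ) * Real.pi := by rw [hr]; ring
      rw [this, Real.sin_add_int_mul_pi, abs_mul]
      have : |((-1 : ℝ)) ^ (round θ)| = 1 := by
        rw [abs_zpow]; simp
      rw [this, one_mul]
    rw [e3]
    have h3 : |Real.pi * r| ≤ Real.pi / 2 := by
      rw [abs_mul, abs_of_pos Real.pi_pos]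
      nlinarith [Real.pi_pos]
    have h4 := Real.mul_abs_le_abs_sin h3
    rw [abs_mul Real.pi, abs_of_pos Real.pi_pos] at h4
    have h5 : 2 / Real.pi * (Real.pi * |r|) = 2 * |r| := by field_simp
    rw [h5] at h4
    linarith
  have hz0 : z - 1 ≠ 0 := by
    intro h
    rw [h, norm_zero] at hz1
    linarith
  have hz1' : z ≠ 1 := sub_ne_zero.1 hz0
  rw [geom_sum_eq hz1', norm_div]
  have h6 : ‖z ^ L - 1‖ ≤ 2 := by
    refine (norm_sub_le _ _).trans ?_
    rw [norm_pow, hz, norm_ch]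
    norm_num
  have h7 : ‖z ^ L - 1‖ / ‖z - 1‖ ≤ 2 / (4 * s) := div_le_div₀ (by norm_num) h6 (by positivity) hz1
  calc 1 / (L : ℝ) * (‖z ^ L - 1‖ / ‖z - 1‖) ^ 2 ≤ 1 / L * (2 / (4 * s)) ^ 2 := by gcongr
    _ = 1 / (4 * L * s ^ 2) := by field_simp; norm_num

end Pool.Agent.H724R2.L2FT
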