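import Pool.Agent.H724R2.L2FT

set_option autoImplicit false

namespace Pool.Agent.H724R2.Step

open MeasureTheory FourierTransform SchwartzMap Pool.Agent.H724R2.L2FT
open scoped ENNReal

theorem fourier_norm (f : H) : ‖(𝓕 f : H)‖ = ‖f‖ := Lp.norm_fourier_eq f

theorem fourier_sub' (f g : H) : (𝓕 (f - g) : H) = 𝓕 f - 𝓕 g := map_sub (Lp.fourierTransformₗᵢ ℝ ℂ) f g

theorem fourier_add' (f g : H) : (𝓕 (f + g) : H) = 𝓕 f + 𝓕 g := map_add (Lp.fourierTransformₗᵢ ℝ ℂ) f g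

theorem fourier_smul_sum {ι : Type*} (c : ℂ) (P : Finset ι) (T : ι → H) :
    (𝓕 (c • ∑ q ∈ P, T q) : H) = c • ∑ q ∈ P, (𝓕 (T q) : H) := by
  have : (𝓕 (c • ∑ q ∈ P, T q) : H) = Lp.fourierTransformₗᵢ ℝ ℂ (c • ∑ q ∈ P, T q) := rfl
  rw [this, map_smul, map_sum]
  rfl

theorem norm_toLp_eq {v : ℝ → ℂ} (hv : MemLp v 2 volume) : eLpNorm v 2 volume = ENNReal.ofReal ‖(hv.toLp v : H)‖ := by
  rw [Lp.norm_toLp, ENNReal.ofReal_toReal hv.2.ne]

theorem toLp_norm_le {v : ℝ → ℂ} (hv : MemLp v 2 volume) {c : ℝ} (hc : 0 ≤ c) (h : eLpNorm v 2 volume ≤ ENNReal.ofReal c) :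
    ‖(hv.toLp v : H)‖ ≤ c := by
  rw [Lp.norm_toLp]
  exact ENNReal.toReal_le_of_le_ofReal hc h

theorem eLpNorm_coe (f : H) : eLpNorm f 2 volume = ENNReal.ofReal ‖f‖ := by
  rw [Lp.norm_def, ENNReal.ofReal_toReal (Lp.memLp f).2.ne]

theorem norm_T {v : ℝ → ℂ} (hv : MemLp v 2 volume) (a : ℝ) :
    ‖((memLp_translate hv a).toLp _ : H)‖ = ‖(hv.toLp v : H)‖ := by
  rw [Lp.norm_toLp, Lp.norm_toLp, eLpNorm_translate hv]

/-- off-diagonal pairs -/
def Pr (L : ℕ) : Finset (ℕ × ℕ) := (Finset.range L ×ˢ Finset.range L).filter fun q => q.1 ≠ q.2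

theorem card_Pr (L : ℕ) : (Pr L).card ≤ L ^ 2 := by
  unfold Pr
  refine (Finset.card_filter_le _ _).trans ?_
  rw [Finset.card_product, Finset.card_range, pow_two]

/-- translation amount -/
def am (R : ℕ) (q : ℕ × ℕ) : ℝ := (((q.1 : ℤ) - q.2 : ℤ) : ℝ) * R

theorem Ker_sub_one (L R : ℕ) (hL : 1 ≤ L) (t : ℝ) :
    Ker L R t - 1 = (1 / (L : ℂ)) * ∑ q ∈ Pr L, ch (am R q) t := by
  have hL0 : (L : ℂ) ≠ 0 := by
    have : L ≠ 0 := by omega
    exact_mod_cast this
  unfold Ker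
  rw [← Finset.sum_product' (f := fun i j : ℕ => ch ((((i : ℤ) - j : ℤ) : ℝ) * R) t)]
  rw [← Finset.sum_filter_add_sum_filter_not _ (fun q : ℕ × ℕ => q.1 ≠ q.2)]
  have h1 : ∑ x ∈ Finset.range L ×ˢ Finset.range L with ¬ x.1 ≠ x.2, ch ((((x.1 : ℤ) - x.2 : ℤ) : ℝ) * R) t = L := by
    have h2 : ∀ x ∈ (Finset.range L ×ˢ Finset.range L).filter (fun x : ℕ × ℕ => ¬ x.1 ≠ x.2),
        ch ((((x.1 : ℤ) - x.2 : ℤ) : ℝ) * R) t = 1 := by
      intro x hx
      rw [Finset.mem_filter, not_ne_iff] at hx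
      rw [hx.2, ch]
      simp
    rw [Finset.sum_congr rfl h2, Finset.sum_const, nsmul_eq_mul, mul_one]
    have h3 : (Finset.range L ×ˢ Finset.range L).filter (fun x : ℕ × ℕ => ¬ x.1 ≠ x.2) = (Finset.range L).image fun i => (i, i) := by
      ext ⟨a, b⟩
      simp only [Finset.mem_filter, Finset.mem_product, Finset.mem_range, not_ne_iff, Finset.mem_image, Prod.mk.injEq]
      constructor
      · rintro ⟨⟨h1, h2⟩, h3⟩
        exact ⟨a, h1, rfl, h3⟩
      · rintro ⟨c, hc, rfl, rfl⟩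
        exact ⟨⟨hc, hc⟩, rfl⟩
    rw [h3, Finset.card_image_of_injective _ (fun a b h => by simpa using h), Finset.card_range]
  rw [h1, mul_add, one_div, inv_mul_cancel₀ hL0, add_sub_cancel_right]
  rfl

theorem step (G : ℂ → ℂ) (hGc : Continuous G)
    (hG : ∀ (L : ℕ) (B ε : ℝ), 0 < ε → ∃ R : ℕ, 1 ≤ R ∧
      ∀ k : ℤ, k ≠ 0 → |k| ≤ L → ∀ y : ℝ, |y| ≤ B → ‖G ((k * R + y : ℝ) : ℂ)‖ ≤ ε)
    (f : H) (E : Set ℝ) (hE : MeasurableSet E) (η : ℝ) (hη : 0 ≤ η)
    (hf : eLpNorm (𝓕 f : H) 2 (volume.restrict E) ≤ ENNReal.ofReal η)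
    (L : ℕ) (hL : 1 ≤ L) (s : ℝ) (hs : 0 < s) (τ : ℝ) (hτ : 0 < τ) :
    ∃ (g : H) (R : ℕ), 1 ≤ R ∧ ‖g‖ ≤ L * (η + τ) ∧
      (∃ y : H, (y =ᵐ[volume] fun x : ℝ => G x * g x) ∧ ‖y‖ ≤ τ) ∧
      eLpNorm (𝓕 (f + g) : H) 2 (volume.restrict (E ∩ Gd R s)) ≤
        ENNReal.ofReal (1 / (4 * L * s ^ 2) * η + (L + 1) * τ) := by
  have hL0 : (0 : ℝ) < L := by exact_mod_cast hL
  have hw : MemLp (E.indicator (𝓕 f : H)) 2 volume := (Lp.memLp (𝓕 f : H)).indicator hE
  set w : H := hw.toLp _ with hwdef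
  have hwn : ‖w‖ ≤ η := toLp_norm_le hw hη (by rw [eLpNorm_indicator_eq_eLpNorm_restrict hE]; exact hf)
  set W : H := 𝓕⁻ w with hW
  have hFW : (𝓕 W : H) = w := by rw [hW]; exact FourierTransform.fourier_fourierInv_eq w
  have hWn : ‖W‖ ≤ η := by rw [← fourier_norm, hFW]; exact hwn
  obtain ⟨v, hvs, hvn, hvc, hvL⟩ := (Lp.memLp W).exists_hasCompactSupport_eLpNorm_sub_le
    (by norm_num : (2:ℝ≥0∞) ≠ ∞) (ε := ENNReal.ofReal τ) (by simpa using hτ)
  set v0 : H := hvL.toLp v with hv0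
  have hWv : ‖W - v0‖ ≤ τ := by
    have h1 : ((Lp.memLp W).sub hvL).toLp _ = W - v0 := by
      rw [MemLp.toLp_sub (Lp.memLp W) hvL, Lp.toLp_coeFn]
    rw [← h1]
    exact toLp_norm_le _ hτ.le hvn
  have hv0n : ‖v0‖ ≤ η + τ := by
    have : v0 = W - (W - v0) := by abel
    rw [this]
    exact (norm_sub_le _ _).trans (add_le_add hWn hWv)
  obtain ⟨B, hB⟩ : ∃ B : ℝ, ∀ x, v x ≠ 0 → |x| ≤ B := by
    obtain ⟨B, hB⟩ := hvs.isCompact.isBounded.subset_closedBall 0
    refine ⟨B, fun x hx => ?_⟩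
    have := hB (subset_tsupport v hx)
    rwa [mem_closedBall_zero_iff, Real.norm_eq_abs] at this
  set ε : ℝ := τ / (L * (‖v0‖ + 1)) with hε
  have hε0 : 0 < ε := by positivity
  obtain ⟨R, hR1, hR⟩ := hG L B ε hε0
  set T : ℕ × ℕ → H := fun q => (memLp_translate hvL (am R q)).toLp _ with hT
  have hTn : ∀ q, ‖T q‖ = ‖v0‖ := fun q => norm_T hvL _
  set g : H := (1 / (L : ℂ)) • ∑ q ∈ Pr L, T q with hg
  have hnL : ‖(1 / (L : ℂ))‖ = 1 / (L : ℝ) := by simp
  have hcard : ((Pr L).card : ℝ) ≤ (L : ℝ) ^ 2 := by exact_mod_cast card_Pr L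
  refine ⟨g, R, hR1, ?_, ?_, ?_⟩
  · rw [hg, norm_smul, hnL]
    have h1 : ‖∑ q ∈ Pr L, T q‖ ≤ (L : ℝ) ^ 2 * (η + τ) := by
      refine (norm_sum_le _ _).trans ?_
      simp_rw [hTn]
      rw [Finset.sum_const, nsmul_eq_mul]
      exact mul_le_mul hcard hv0n (norm_nonneg _) (by positivity)
    calc 1 / (L : ℝ) * ‖∑ q ∈ Pr L, T q‖ ≤ 1 / (L : ℝ) * ((L : ℝ) ^ 2 * (η + τ)) := by gcongr
      _ = L * (η + τ) := by field_simp
  · -- the product with `G`
    have hgae : (g : ℝ → ℂ) =ᵐ[volume] fun x => (1 / (L : ℂ)) * ∑ q ∈ Pr L, v (x - am R q) := by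
      have h1 : ∀ q ∈ Pr L, (T q : ℝ → ℂ) =ᵐ[volume] fun x => v (x - am R q) := fun q _ =>
        (memLp_translate hvL (am R q)).coeFn_toLp
      have h2 : ∀ᵐ x ∂volume, ∀ q ∈ Pr L, (T q : ℝ → ℂ) x = v (x - am R q) := by
        rw [Filter.eventually_all_finset]
        exact h1
      filter_upwards [Lp.coeFn_smul (1 / (L : ℂ)) (∑ q ∈ Pr L, T q), Lp.coeFn_finsetSum (Pr L) T, h2] with x hx1 hx2 hx3
      rw [hg, hx1, Pi.smul_apply, hx2, Finset.sum_apply, smul_eq_mul]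
      congr 1
      exact Finset.sum_congr rfl hx3
    set g' : ℝ → ℂ := fun x => (1 / (L : ℂ)) * ∑ q ∈ Pr L, v (x - am R q) with hg'
    have hg'c : Continuous g' := by
      apply continuous_const.mul
      exact continuous_finsetSum _ fun q _ => hvc.comp (continuous_id.sub continuous_const)
    have hGg : Continuous fun x : ℝ => G x * g' x := (hGc.comp Complex.continuous_ofReal).mul hg'c
    set b : ℝ → ℂ := fun x => ∑ q ∈ Pr L, ((‖v (x - am R q)‖ : ℝ) : ℂ) with hb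
    have hbterm : ∀ q, MemLp (fun x => ((‖v (x - am R q)‖ : ℝ) : ℂ)) 2 volume := by
      intro q
      refine (memLp_translate hvL (am R q)).of_le ?_ (Filter.Eventually.of_forall fun x => ?_)
      · exact (Complex.continuous_ofReal.comp (hvc.comp (continuous_id.sub continuous_const)).norm).aestronglyMeasurable
      · rw [Complex.norm_real, norm_norm]
    have hbn : ∀ q, eLpNorm (fun x => ((‖v (x - am R q)‖ : ℝ) : ℂ)) 2 volume = ENNReal.ofReal ‖v0‖ := by
      intro q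
      rw [hv0, ← norm_toLp_eq hvL, ← eLpNorm_translate hvL (am R q)]
      apply eLpNorm_congr_norm_ae
      refine Filter.Eventually.of_forall fun x => ?_
      rw [Complex.norm_real, norm_norm]
    have hbL : MemLp b 2 volume := by
      rw [hb]
      exact memLp_finsetSum _ fun q _ => hbterm q
    have hpt : ∀ x : ℝ, ‖G x * g' x‖ ≤ ‖((ε / L : ℝ) : ℂ) • b x‖ := by
      intro x
      have h1 : ‖((ε / L : ℝ) : ℂ) • b x‖ = ε / L * ∑ q ∈ Pr L, ‖v (x - am R q)‖ := by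
        rw [norm_smul, Complex.norm_real, Real.norm_of_nonneg (by positivity), hb]
        simp only
        rw [← Complex.ofReal_sum, Complex.norm_real, Real.norm_of_nonneg (Finset.sum_nonneg fun _ _ => norm_nonneg _)]
      rw [h1, hg']
      simp only
      rw [norm_mul, norm_mul, hnL]
      have h2 : ‖G x‖ * ‖∑ q ∈ Pr L, v (x - am R q)‖ ≤ ε * ∑ q ∈ Pr L, ‖v (x - am R q)‖ := by
        refine (mul_le_mul_of_nonneg_left (norm_sum_le _ _) (norm_nonneg _)).trans ?_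
        rw [Finset.mul_sum, Finset.mul_sum]
        refine Finset.sum_le_sum fun q hq => ?_
        by_cases hv : v (x - am R q) = 0
        · rw [hv]; simp
        · apply mul_le_mul_of_nonneg_right _ (norm_nonneg _)
          have hq' := Finset.mem_filter.1 hq
          have hq1 := Finset.mem_product.1 hq'.1
          have h3 := hR ((q.1 : ℤ) - q.2) (by have := hq'.2; omega) (by
            rw [Finset.mem_range, Finset.mem_range] at hq1
            rw [abs_le]; constructor <;> omega) (x - am R q) (hB _ hv)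
          have h4 : ((((q.1 : ℤ) - q.2 : ℤ) : ℝ) * R + (x - am R q) : ℝ) = x := by
            unfold am; ring
          rwa [h4] at h3
      calc ‖G x‖ * (1 / (L : ℝ) * ‖∑ q ∈ Pr L, v (x - am R q)‖) =
            1 / (L : ℝ) * (‖G x‖ * ‖∑ q ∈ Pr L, v (x - am R q)‖) := by ring
        _ ≤ 1 / (L : ℝ) * (ε * ∑ q ∈ Pr L, ‖v (x - am R q)‖) := by gcongr
        _ = _ := by ring
    have hMem : MemLp (fun x : ℝ => G x * g' x) 2 volume := by
      refine (hbL.const_smul ((ε / L : ℝ) : ℂ)).of_le hGg.aestronglyMeasurable (Filter.Eventually.of_forall hpt)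
    refine ⟨hMem.toLp _, ?_, ?_⟩
    · filter_upwards [hMem.coeFn_toLp, hgae] with x h1 h2
      rw [h1, h2]
    · apply toLp_norm_le _ hτ.le
      calc eLpNorm (fun x : ℝ => G x * g' x) 2 volume ≤ eLpNorm (((ε / L : ℝ) : ℂ) • b) 2 volume :=
            eLpNorm_mono_ae (Filter.Eventually.of_forall hpt)
        _ = ‖((ε / L : ℝ) : ℂ)‖ₑ * eLpNorm b 2 volume := eLpNorm_const_smul _ _ _ _
        _ ≤ ENNReal.ofReal (ε / L) * ∑ q ∈ Pr L, ENNReal.ofReal ‖v0‖ := by
            have h1 : ‖((ε / L : ℝ) : ℂ)‖ₑ = ENNReal.ofReal (ε / L) := by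
              rw [← ofReal_norm, Complex.norm_real, Real.norm_of_nonneg (by positivity)]
            have h2 : b = ∑ q ∈ Pr L, (fun x => ((‖v (x - am R q)‖ : ℝ) : ℂ)) := by
              rw [hb]; ext x; rw [Finset.sum_apply]
            have h3 : eLpNorm b 2 volume ≤ ∑ q ∈ Pr L, eLpNorm (fun x => ((‖v (x - am R q)‖ : ℝ) : ℂ)) 2 volume := by
              rw [h2]
              exact eLpNorm_sum_le (p := 2) (fun q _ => (hbterm q).1) (by norm_num)
            rw [h1]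
            refine mul_le_mul_right (h3.trans ?_) _
            exact Finset.sum_le_sum fun q _ => (hbn q).le
        _ ≤ ENNReal.ofReal τ := by
            rw [Finset.sum_const, nsmul_eq_mul, ← ENNReal.ofReal_natCast, ← ENNReal.ofReal_mul (by positivity),
              ← ENNReal.ofReal_mul (by positivity)]
            apply ENNReal.ofReal_le_ofReal
            calc ε / L * ((Pr L).card * ‖v0‖) ≤ ε / L * ((L : ℝ) ^ 2 * (‖v0‖ + 1)) := by
                  gcongr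
                  linarith
              _ = τ := by rw [hε]; field_simp
  · -- the main estimate
    set u : H := 𝓕 v0 with hu
    have hwu : ‖w - u‖ ≤ τ := by
      rw [← hFW, hu, ← fourier_sub', fourier_norm]
      exact hWv
    have hFg : (𝓕 g : H) =ᵐ[volume] fun t => (Ker L R t - 1) * u t := by
      have h0 : (𝓕 g : H) = (1 / (L : ℂ)) • ∑ q ∈ Pr L, (𝓕 (T q) : H) := fourier_smul_sum _ _ _
      have h1 : ∀ q ∈ Pr L, ((𝓕 (T q) : H) : ℝ → ℂ) =ᵐ[volume] fun t => ch (am R q) t * u t := by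
        intro q _
        rw [hT]
        simp only
        rw [ft_translate hvL (am R q)]
        exact MemLp.coeFn_toLp _
      have h2 : ∀ᵐ t ∂volume, ∀ q ∈ Pr L, ((𝓕 (T q) : H) : ℝ → ℂ) t = ch (am R q) t * u t := by
        rw [Filter.eventually_all_finset]
        exact h1
      rw [h0]
      filter_upwards [Lp.coeFn_smul (1 / (L : ℂ)) (∑ q ∈ Pr L, (𝓕 (T q) : H)),
        Lp.coeFn_finsetSum (Pr L) (fun q => (𝓕 (T q) : H)), h2] with t hx1 hx2 hx3
      rw [hx1, Pi.smul_apply, hx2, Finset.sum_apply, smul_eq_mul, Ker_sub_one L R hL, Finset.sum_congr rfl hx3,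
        ← Finset.sum_mul]
      ring
    have hsum : (𝓕 (f + g) : H) = 𝓕 f + 𝓕 g := fourier_add' f g
    set ρ : ℝ := 1 / (4 * L * s ^ 2) with hρ
    have hρ0 : 0 ≤ ρ := by positivity
    have hmeas : MeasurableSet (E ∩ Gd R s) := hE.inter (measurableSet_Gd R s)
    have hpt : ∀ᵐ t ∂(volume.restrict (E ∩ Gd R s)), ‖(𝓕 (f + g) : H) t‖ ≤
        ‖((ρ * ‖w t‖ + (L + 1) * ‖(w - u) t‖ : ℝ))‖ := by
      rw [ae_restrict_iff' hmeas]
      rw [hsum]
      filter_upwards [hFg, Lp.coeFn_add (𝓕 f : H) (𝓕 g), hw.coeFn_toLp, Lp.coeFn_sub w u] with t h1 h2 h3 h4 htE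
      rw [h2, Pi.add_apply, h1, h4, Pi.sub_apply]
      have h5 : w t = (𝓕 f : H) t := by
        rw [hwdef, h3, Set.indicator_of_mem htE.1]
      rw [← h5]
      have h6 : w t + (Ker L R t - 1) * u t = Ker L R t * w t + (1 - Ker L R t) * (w t - u t) := by ring
      rw [h6, Real.norm_of_nonneg (by positivity)]
      refine (norm_add_le _ _).trans ?_
      rw [norm_mul, norm_mul]
      have h7 := norm_Ker_small L R hL s hs t htE.2
      have h8 : ‖1 - Ker L R t‖ ≤ L + 1 := by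
        refine (norm_sub_le _ _).trans ?_
        rw [norm_one]
        linarith [norm_Ker_le L R hL t]
      gcongr
    have hm1 : AEStronglyMeasurable (fun t => ρ * ‖w t‖) volume := (Lp.aestronglyMeasurable w).norm.const_mul _
    have hm2 : AEStronglyMeasurable (fun t => ((L : ℝ) + 1) * ‖(w - u) t‖) volume :=
      (Lp.aestronglyMeasurable (w - u)).norm.const_mul _
    calc eLpNorm (𝓕 (f + g) : H) 2 (volume.restrict (E ∩ Gd R s))
        ≤ eLpNorm (fun t => ρ * ‖w t‖ + (L + 1) * ‖(w - u) t‖) 2 (volume.restrict (E ∩ Gd R s)) :=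
          eLpNorm_mono_ae hpt
      _ ≤ eLpNorm (fun t => ρ * ‖w t‖ + (L + 1) * ‖(w - u) t‖) 2 volume := eLpNorm_mono_measure _ Measure.restrict_le_self
      _ ≤ eLpNorm (fun t => ρ * ‖w t‖) 2 volume + eLpNorm (fun t => ((L : ℝ) + 1) * ‖(w - u) t‖) 2 volume :=
          eLpNorm_add_le hm1 hm2 (by norm_num)
      _ = ENNReal.ofReal (ρ * ‖w‖) + ENNReal.ofReal ((L + 1) * ‖w - u‖) := by
          congr 1
          · have : (fun t => ρ * ‖w t‖) = ρ • fun t => ‖w t‖ := rfl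
            rw [this, eLpNorm_const_smul, eLpNorm_norm, eLpNorm_coe, ENNReal.ofReal_mul hρ0, Real.enorm_of_nonneg hρ0]
          · have : (fun t => ((L : ℝ) + 1) * ‖(w - u) t‖) = ((L : ℝ) + 1) • fun t => ‖(w - u) t‖ := rfl
            rw [this, eLpNorm_const_smul, eLpNorm_norm, eLpNorm_coe, ENNReal.ofReal_mul (by positivity),
              Real.enorm_of_nonneg (by positivity)]
      _ ≤ ENNReal.ofReal (ρ * η + (L + 1) * τ) := by
          rw [← ENNReal.ofReal_add (by positivity) (by positivity)]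
          apply ENNReal.ofReal_le_ofReal
          gcongr

end Pool.Agent.H724R2.Step
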