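import Pool.Agent.H724R2.EntireF
import Pool.Agent.H724R2.Step

set_option autoImplicit false

namespace Pool.Agent.H724R2.Locality

open MeasureTheory FourierTransform SchwartzMap Filter Topology
open Pool.Agent.H724R2.L2FT Pool.Agent.H724R2.Step Pool.Agent.H724R2.EntireF
open scoped ENNReal

theorem mul_closed (G : ℂ → ℂ) (fn yn : ℕ → H) (f y : H) (hf : Tendsto fn atTop (𝓝 f))
    (hy : Tendsto yn atTop (𝓝 y)) (h : ∀ n, (yn n : ℝ → ℂ) =ᵐ[volume] fun x : ℝ => G x * fn n x) :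
    (y : ℝ → ℂ) =ᵐ[volume] fun x : ℝ => G x * f x := by
  obtain ⟨ns, hns, h1⟩ := (tendstoInMeasure_of_tendsto_Lp hf).exists_seq_tendsto_ae
  have hy' : Tendsto (fun i => yn (ns i)) atTop (𝓝 y) := hy.comp hns.tendsto_atTop
  obtain ⟨ms, hms, h2⟩ := (tendstoInMeasure_of_tendsto_Lp hy').exists_seq_tendsto_ae
  have h3 : ∀ᵐ x ∂volume, ∀ n, (yn n : ℝ → ℂ) x = G x * fn n x := ae_all_iff.2 h
  filter_upwards [h1, h2, h3] with x hx1 hx2 hx3
  have h4 : Tendsto (fun i => G x * fn (ns (ms i)) x) atTop (𝓝 (G x * f x)) :=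
    (hx1.comp hms.tendsto_atTop).const_mul _
  refine tendsto_nhds_unique hx2 ?_
  refine h4.congr fun i => ?_
  rw [hx3]

/-- states of the recursion -/
def St (n : ℕ) : Type := {p : H × Set ℝ // MeasurableSet p.2 ∧
  eLpNorm (𝓕 p.1 : H) 2 (volume.restrict p.2) ≤ ENNReal.ofReal (2 * (1 / 8) ^ n)}

theorem next (G : ℂ → ℂ) (hGc : Continuous G)
    (hG : ∀ (L : ℕ) (B ε : ℝ), 0 < ε → ∃ R : ℕ, 1 ≤ R ∧
      ∀ k : ℤ, k ≠ 0 → |k| ≤ L → ∀ y : ℝ, |y| ≤ B → ‖G ((k * R + y : ℝ) : ℂ)‖ ≤ ε)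
    (n : ℕ) (st : St n) : ∃ (st' : St (n + 1)) (g y : H) (R : ℕ), st'.1.1 = st.1.1 + g ∧ 1 ≤ R ∧
      st'.1.2 = st.1.2 ∩ Gd R ((1 / 2) ^ (n + 4)) ∧ ‖g‖ ≤ 3072 * (1 / 2) ^ n ∧
      ((y : ℝ → ℂ) =ᵐ[volume] fun x : ℝ => G x * g x) ∧ ‖y‖ ≤ 1 / 1000 * (1 / 2) ^ n := by
  set L : ℕ := 2 ^ (2 * n + 10) with hL
  have hL1 : 1 ≤ L := Nat.one_le_two_pow
  have hLr : (L : ℝ) = 1024 * (4 : ℝ) ^ n := by
    rw [hL]; push_cast; rw [pow_add, pow_mul]; norm_num; ring
  set τ : ℝ := (1 / 8) ^ n / (8 * (L + 1)) with hτ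
  have hτ0 : 0 < τ := by positivity
  obtain ⟨g, R, hR1, hgn, ⟨y, hy1, hy2⟩, hmain⟩ := step G hGc hG st.1.1 st.1.2 st.2.1 (2 * (1 / 8) ^ n) (by positivity)
    st.2.2 L hL1 ((1 / 2) ^ (n + 4)) (by positivity) τ hτ0
  have hs2 : ((1 / 2 : ℝ) ^ (n + 4)) ^ 2 = (1 / 4) ^ n * (1 / 256) := by
    rw [← pow_mul, mul_comm (n + 4) 2, pow_mul, pow_add]; norm_num
  have h44 : (4 : ℝ) ^ n * (1 / 4) ^ n = 1 := by rw [← mul_pow]; norm_num
  have hval : 1 / (4 * (L : ℝ) * ((1 / 2 : ℝ) ^ (n + 4)) ^ 2) * (2 * (1 / 8) ^ n) + (L + 1) * τ = 2 * (1 / 8) ^ (n + 1) := by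
    have h1 : 4 * (L : ℝ) * ((1 / 2 : ℝ) ^ (n + 4)) ^ 2 = 16 := by
      rw [hs2, hLr]
      calc 4 * (1024 * (4:ℝ) ^ n) * ((1 / 4) ^ n * (1 / 256)) = 16 * ((4:ℝ) ^ n * (1 / 4) ^ n) := by ring
        _ = 16 := by rw [h44, mul_one]
    have h2 : ((L : ℝ) + 1) * τ = (1 / 8) ^ n / 8 := by rw [hτ]; field_simp
    rw [h1, h2, pow_succ]
    ring
  rw [hval] at hmain
  have hτs : τ ≤ 1 / 1000 * (1 / 8) ^ n := by
    rw [hτ, div_le_iff₀ (by positivity), hLr]
    have : (1:ℝ) ≤ 4 ^ n := one_le_pow₀ (by norm_num)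
    have h8 : (0:ℝ) < (1 / 8) ^ n := by positivity
    nlinarith
  refine ⟨⟨(st.1.1 + g, st.1.2 ∩ Gd R ((1 / 2) ^ (n + 4))), st.2.1.inter (measurableSet_Gd _ _), hmain⟩,
    g, y, R, rfl, hR1, rfl, ?_, hy1, ?_⟩
  · refine hgn.trans ?_
    have h8 : (0:ℝ) < (1 / 8) ^ n := by positivity
    have h48 : (4:ℝ) ^ n * (1 / 8) ^ n = (1 / 2) ^ n := by rw [← mul_pow]; norm_num
    calc (L : ℝ) * (2 * (1 / 8) ^ n + τ) ≤ L * (2 * (1 / 8) ^ n + 1 / 1000 * (1 / 8) ^ n) := by gcongr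
      _ = 1024 * (2 + 1 / 1000) * (4 ^ n * (1 / 8) ^ n) := by rw [hLr]; ring
      _ ≤ 3072 * (1 / 2) ^ n := by
          rw [h48]
          have : (0:ℝ) < (1 / 2) ^ n := by positivity
          nlinarith
  · refine hy2.trans (hτs.trans ?_)
    gcongr
    norm_num

theorem main_exists : ∃ G : ℂ → ℂ, Differentiable ℂ G ∧
    (∀ ε : ℝ, 0 < ε → ∃ C : ℝ, ∀ z : ℂ, ‖G z‖ ≤ C * Real.exp (ε * ‖z‖)) ∧
    ∃ f y : H, ((y : ℝ → ℂ) =ᵐ[volume] fun x : ℝ => G x * f x) ∧
      ∃ E : Set ℝ, MeasurableSet E ∧ (∀ᵐ ξ : ℝ, ξ ∈ E → (𝓕 f : H) ξ = 0) ∧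
        ¬ (∀ᵐ ξ : ℝ, ξ ∈ E → (𝓕 y : H) ξ = 0) := by
  -- the starting function
  have hI : MemLp ((Set.Icc (0:ℝ) 1).indicator (fun _ => (1:ℂ))) 2 volume :=
    memLp_indicator_const 2 measurableSet_Icc 1 (Or.inr (by simp))
  set I : H := hI.toLp _ with hIdef
  have hIn : ‖I‖ ≤ 1 := by
    apply toLp_norm_le hI zero_le_one
    rw [eLpNorm_indicator_const measurableSet_Icc (by norm_num) (by norm_num)]
    simp
  set W : H := 𝓕⁻ I with hW
  have hFW : (𝓕 W : H) = I := by rw [hW]; exact FourierTransform.fourier_fourierInv_eq I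
  have hWn : ‖W‖ ≤ 1 := by rw [← Step.fourier_norm, hFW]; exact hIn
  obtain ⟨v, hvs, hvn, hvc, hvL⟩ := (Lp.memLp W).exists_hasCompactSupport_eLpNorm_sub_le
    (by norm_num : (2:ℝ≥0∞) ≠ ∞) (ε := ENNReal.ofReal (1 / 10)) (by simp)
  set v0 : H := hvL.toLp v with hv0
  have hWv : ‖W - v0‖ ≤ 1 / 10 := by
    have h1 : ((Lp.memLp W).sub hvL).toLp _ = W - v0 := by
      rw [MemLp.toLp_sub (Lp.memLp W) hvL, Lp.toLp_coeFn]
    rw [← h1]
    exact toLp_norm_le _ (by norm_num) hvn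
  have hv0n : ‖v0‖ ≤ 2 := by
    have : v0 = W - (W - v0) := by abel
    rw [this]
    exact (norm_sub_le _ _).trans (by linarith)
  obtain ⟨B, hB⟩ : ∃ B : ℝ, ∀ x, v x ≠ 0 → |x| ≤ B := by
    obtain ⟨B, hB⟩ := hvs.isCompact.isBounded.subset_closedBall 0
    refine ⟨B, fun x hx => ?_⟩
    have := hB (subset_tsupport v hx)
    rwa [mem_closedBall_zero_iff, Real.norm_eq_abs] at this
  obtain ⟨G, hGd, hGt, hG1, hG⟩ := exists_entire B (1 / 100) (by norm_num)
  refine ⟨G, hGd, hGt, ?_⟩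
  have hGc : Continuous G := hGd.continuous
  -- `G v`
  have hGvc : Continuous fun x : ℝ => G x * v x := (hGc.comp Complex.continuous_ofReal).mul hvc
  have hGvpt : ∀ x : ℝ, ‖G x * v x - v x‖ ≤ ‖((1 / 100 : ℝ) : ℂ) • v x‖ := by
    intro x
    rw [norm_smul, Complex.norm_real, Real.norm_of_nonneg (by norm_num)]
    by_cases hv : v x = 0
    · rw [hv]; simp
    · have : G x * v x - v x = (G x - 1) * v x := by ring
      rw [this, norm_mul]
      exact mul_le_mul_of_nonneg_right (hG1 x (hB x hv)) (norm_nonneg _)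
  have hdM : MemLp (fun x : ℝ => G x * v x - v x) 2 volume :=
    (hvL.const_smul ((1 / 100 : ℝ) : ℂ)).of_le (hGvc.sub hvc).aestronglyMeasurable (Eventually.of_forall hGvpt)
  set d : H := hdM.toLp _ with hd
  have hdn : ‖d‖ ≤ 1 / 50 := by
    apply toLp_norm_le hdM (by norm_num)
    calc eLpNorm (fun x : ℝ => G x * v x - v x) 2 volume ≤ eLpNorm (((1 / 100 : ℝ) : ℂ) • v) 2 volume :=
          eLpNorm_mono_ae (Eventually.of_forall hGvpt)
      _ = ‖((1 / 100 : ℝ) : ℂ)‖ₑ * eLpNorm v 2 volume := eLpNorm_const_smul _ _ _ _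
      _ = ENNReal.ofReal (1 / 100 * ‖v0‖) := by
          have h1 : ‖((1 / 100 : ℝ) : ℂ)‖ₑ = ENNReal.ofReal (1 / 100) := by
            rw [← ofReal_norm, Complex.norm_real, Real.norm_of_nonneg (by norm_num)]
          rw [h1, norm_toLp_eq hvL, ← ENNReal.ofReal_mul (by norm_num)]
      _ ≤ ENNReal.ofReal (1 / 50) := by
          apply ENNReal.ofReal_le_ofReal
          linarith
  -- the recursion
  have hst0 : eLpNorm (𝓕 v0 : H) 2 (volume.restrict (Set.Icc (0:ℝ) 1)) ≤ ENNReal.ofReal (2 * (1 / 8) ^ 0) := by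
    calc eLpNorm (𝓕 v0 : H) 2 (volume.restrict (Set.Icc (0:ℝ) 1)) ≤ eLpNorm (𝓕 v0 : H) 2 volume :=
          eLpNorm_mono_measure _ Measure.restrict_le_self
      _ = ENNReal.ofReal ‖v0‖ := by rw [eLpNorm_coe, Step.fourier_norm]
      _ ≤ _ := by apply ENNReal.ofReal_le_ofReal; simpa using hv0n
  set st0 : St 0 := ⟨(v0, Set.Icc (0:ℝ) 1), measurableSet_Icc, hst0⟩ with hst0def
  choose nxt gg yy RR h1 h2 h3 h4 h5 h6 using next G hGc hG
  set sq : (n : ℕ) → St n := fun n => Nat.rec st0 (fun n st => nxt n st) n with hsq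
  have hsqs : ∀ n, sq (n + 1) = nxt n (sq n) := fun n => rfl
  set fN : ℕ → H := fun n => (sq n).1.1 with hfN
  set EN : ℕ → Set ℝ := fun n => (sq n).1.2 with hEN
  set gN : ℕ → H := fun n => gg n (sq n) with hgN
  set yN : ℕ → H := fun n => yy n (sq n) with hyN
  set RN : ℕ → ℕ := fun n => RR n (sq n) with hRN
  have k1 : ∀ n, fN (n + 1) = fN n + gN n := fun n => h1 n (sq n)
  have k2 : ∀ n, 1 ≤ RN n := fun n => h2 n (sq n)
  have k3 : ∀ n, EN (n + 1) = EN n ∩ Gd (RN n) ((1 / 2) ^ (n + 4)) := fun n => h3 n (sq n)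
  have k4 : ∀ n, ‖gN n‖ ≤ 3072 * (1 / 2) ^ n := fun n => h4 n (sq n)
  have k5 : ∀ n, (yN n : ℝ → ℂ) =ᵐ[volume] fun x : ℝ => G x * gN n x := fun n => h5 n (sq n)
  have k6 : ∀ n, ‖yN n‖ ≤ 1 / 1000 * (1 / 2) ^ n := fun n => h6 n (sq n)
  have k7 : ∀ n, eLpNorm (𝓕 (fN n) : H) 2 (volume.restrict (EN n)) ≤ ENNReal.ofReal (2 * (1 / 8) ^ n) :=
    fun n => (sq n).2.2
  have k8 : ∀ n, MeasurableSet (EN n) := fun n => (sq n).2.1
  have k9 : fN 0 = v0 := rfl
  have k10 : EN 0 = Set.Icc (0:ℝ) 1 := rfl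
  clear_value fN EN gN yN RN
  -- limits
  have hfC : CauchySeq fN := by
    refine cauchySeq_of_le_geometric (1 / 2) 3072 (by norm_num) fun n => ?_
    rw [k1, dist_eq_norm]
    have : fN n - (fN n + gN n) = -gN n := by abel
    rw [this, norm_neg]
    exact k4 n
  obtain ⟨f, hf⟩ := cauchySeq_tendsto_of_complete hfC
  set Y : ℕ → H := fun n => (v0 + d) + ∑ k ∈ Finset.range n, yN k with hY
  have hYs : ∀ n, Y (n + 1) = Y n + yN n := by
    intro n
    rw [hY]
    simp only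
    rw [Finset.sum_range_succ, add_assoc, add_assoc]
    rw [add_assoc]
  have hYC : CauchySeq Y := by
    refine cauchySeq_of_le_geometric (1 / 2) (1 / 1000) (by norm_num) fun n => ?_
    rw [hYs, dist_eq_norm]
    have : Y n - (Y n + yN n) = -yN n := by abel
    rw [this, norm_neg]
    exact k6 n
  obtain ⟨y, hy⟩ := cauchySeq_tendsto_of_complete hYC
  have hYG : ∀ n, (Y n : ℝ → ℂ) =ᵐ[volume] fun x : ℝ => G x * fN n x := by
    intro n
    induction n with
    | zero =>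
      have hY0 : Y 0 = v0 + d := by rw [hY]; simp
      rw [hY0, k9]
      filter_upwards [Lp.coeFn_add v0 d, hvL.coeFn_toLp, hdM.coeFn_toLp] with x e1 e2 e3
      rw [e1, Pi.add_apply, hd, e3, hv0, e2]
      ring
    | succ n ih =>
      rw [hYs, k1]
      filter_upwards [Lp.coeFn_add (Y n) (yN n), Lp.coeFn_add (fN n) (gN n), k5 n, ih] with x e1 e2 e3 e4
      rw [e1, e2, Pi.add_apply, Pi.add_apply, e3, e4]
      ring
  have hYy := mul_closed G fN Y f y hf hy hYG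
  -- norm of y - v0
  have hYn : ∀ n, ‖Y n - v0‖ ≤ 1 / 50 + 1 / 500 * (1 - (1 / 2) ^ n) := by
    intro n
    induction n with
    | zero =>
      have hY0 : Y 0 = v0 + d := by rw [hY]; simp
      rw [hY0]
      have : v0 + d - v0 = d := by abel
      rw [this]
      simpa using hdn
    | succ n ih =>
      rw [hYs]
      have : Y n + yN n - v0 = (Y n - v0) + yN n := by abel
      rw [this]
      refine (norm_add_le _ _).trans ?_
      have := k6 n
      have e : (1 / 50 + 1 / 500 * (1 - (1 / 2 : ℝ) ^ n)) + 1 / 1000 * (1 / 2) ^ n =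
        1 / 50 + 1 / 500 * (1 - (1 / 2) ^ (n + 1)) := by rw [pow_succ]; ring
      linarith
  have hyn : ‖y - v0‖ ≤ 1 / 50 + 1 / 500 := by
    have ht : Tendsto (fun n => ‖Y n - v0‖) atTop (𝓝 ‖y - v0‖) := (hy.sub_const v0).norm
    refine le_of_tendsto' ht fun n => (hYn n).trans ?_
    have : (0:ℝ) < (1 / 2) ^ n := by positivity
    linarith
  refine ⟨f, y, hYy, ⋂ n, EN n, MeasurableSet.iInter k8, ?_, ?_⟩
  · -- vanishing of the transform of `f`
    have hEm : MeasurableSet (⋂ n, EN n) := MeasurableSet.iInter k8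
    have hb : ∀ n, eLpNorm (𝓕 f : H) 2 (volume.restrict (⋂ n, EN n)) ≤
        ENNReal.ofReal (2 * (1 / 8) ^ n + ‖f - fN n‖) := by
      intro n
      have e1 : ((𝓕 f : H) : ℝ → ℂ) =ᵐ[volume.restrict (⋂ n, EN n)] (𝓕 (fN n) : H) + (𝓕 (f - fN n) : H) := by
        apply ae_restrict_of_ae
        have : (𝓕 f : H) = 𝓕 (fN n) + 𝓕 (f - fN n) := by
          rw [← Step.fourier_add']; congr 1; abel
        conv_lhs => rw [this]
        exact Lp.coeFn_add _ _
      rw [eLpNorm_congr_ae e1]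
      refine (eLpNorm_add_le (Lp.aestronglyMeasurable _).restrict (Lp.aestronglyMeasurable _).restrict (by norm_num)).trans ?_
      rw [ENNReal.ofReal_add (by positivity) (norm_nonneg _)]
      apply add_le_add
      · refine le_trans ?_ (k7 n)
        exact eLpNorm_mono_measure _ (Measure.restrict_mono (Set.iInter_subset _ n) le_rfl)
      · rw [← Step.fourier_norm, ← eLpNorm_coe]
        exact eLpNorm_mono_measure _ Measure.restrict_le_self
    have hlim : Tendsto (fun n => ENNReal.ofReal (2 * (1 / 8) ^ n + ‖f - fN n‖)) atTop (𝓝 0) := by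
      have e1 : Tendsto (fun n : ℕ => (2 : ℝ) * (1 / 8) ^ n + ‖f - fN n‖) atTop (𝓝 0) := by
        have e2 : Tendsto (fun n : ℕ => (2 : ℝ) * (1 / 8) ^ n) atTop (𝓝 (2 * 0)) :=
          (tendsto_pow_atTop_nhds_zero_of_lt_one (by norm_num) (by norm_num)).const_mul 2
        have e3 : Tendsto (fun n : ℕ => ‖f - fN n‖) atTop (𝓝 0) := by
          have := (hf.const_sub f).norm
          simpa using this
        simpa using e2.add e3
      have := ENNReal.tendsto_ofReal e1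
      simpa using this
    have h0 : eLpNorm (𝓕 f : H) 2 (volume.restrict (⋂ n, EN n)) = 0 :=
      le_antisymm (ge_of_tendsto' hlim hb) bot_le
    rw [eLpNorm_eq_zero_iff (Lp.aestronglyMeasurable _).restrict (by norm_num)] at h0
    exact (ae_restrict_iff' hEm).1 h0
  · -- non-vanishing
    intro hcon
    have hEm : MeasurableSet (⋂ n, EN n) := MeasurableSet.iInter k8
    have hEsub : (⋂ n, EN n) ⊆ Set.Icc (0:ℝ) 1 := by
      rw [← k10]; exact Set.iInter_subset _ 0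
    -- measure of the set
    have hmeas : volume (Set.Icc (0:ℝ) 1 \ ⋂ n, EN n) ≤ ENNReal.ofReal (1 / 2) := by
      have hsub : Set.Icc (0:ℝ) 1 \ (⋂ n, EN n) ⊆ ⋃ n, (Set.Icc (0:ℝ) 1 \ Gd (RN n) ((1 / 2) ^ (n + 4))) := by
        rintro t ⟨ht, hnt⟩
        rw [Set.mem_iInter, not_forall] at hnt
        by_contra hc
        rw [Set.mem_iUnion, not_exists] at hc
        obtain ⟨n, hn⟩ := hnt
        apply hn
        clear hn
        induction n with
        | zero => rw [k10]; exact ht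
        | succ n ih =>
          rw [k3]
          refine ⟨ih, ?_⟩
          by_contra h
          exact hc n ⟨ht, h⟩
      refine (measure_mono hsub).trans ((measure_iUnion_le _).trans ?_)
      have hb : ∀ n, volume (Set.Icc (0:ℝ) 1 \ Gd (RN n) ((1 / 2) ^ (n + 4))) ≤ ENNReal.ofReal (1 / 4 * (1 / 2) ^ n) := by
        intro n
        refine (volume_diff_Gd (RN n) (k2 n) _ (by positivity) ?_).trans (le_of_eq ?_)
        · exact pow_lt_one₀ (by norm_num) (by norm_num) (by omega)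
        · congr 1
          rw [pow_add]; ring
      refine (ENNReal.tsum_le_tsum hb).trans ?_
      rw [← ENNReal.ofReal_tsum_of_nonneg (fun n => by positivity)
        ((summable_geometric_of_lt_one (by norm_num) (by norm_num)).mul_left _)]
      rw [tsum_mul_left, tsum_geometric_of_lt_one (by norm_num) (by norm_num)]
      apply ENNReal.ofReal_le_ofReal
      norm_num
    have hvolE : ENNReal.ofReal (1 / 2) ≤ volume (⋂ n, EN n) := by
      have e1 : volume (Set.Icc (0:ℝ) 1) ≤ volume (⋂ n, EN n) + volume (Set.Icc (0:ℝ) 1 \ ⋂ n, EN n) := by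
        refine le_trans (measure_mono ?_) (measure_union_le _ _)
        intro t ht
        by_cases h : t ∈ ⋂ n, EN n
        · exact Or.inl h
        · exact Or.inr ⟨ht, h⟩
      rw [Real.volume_Icc] at e1
      have e2 : ENNReal.ofReal (1 - 0) ≤ volume (⋂ n, EN n) + ENNReal.ofReal (1 / 2) :=
        e1.trans (add_le_add le_rfl hmeas)
      have e3 : ENNReal.ofReal (1 - 0) = ENNReal.ofReal (1 / 2) + ENNReal.ofReal (1 / 2) := by
        rw [← ENNReal.ofReal_add (by norm_num) (by norm_num)]; norm_num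
      rw [e3] at e2
      exact (ENNReal.add_le_add_iff_right ENNReal.ofReal_ne_top).1 e2
    -- compare with the indicator
    have hIy : ‖I - 𝓕 y‖ ≤ 1 / 5 := by
      rw [← hFW, ← Step.fourier_sub', Step.fourier_norm]
      have : W - y = (W - v0) - (y - v0) := by abel
      rw [this]
      refine (norm_sub_le _ _).trans ?_
      linarith
    have hE1 : eLpNorm (fun _ : ℝ => (1:ℂ)) 2 (volume.restrict (⋂ n, EN n)) ≤ ENNReal.ofReal (1 / 5) := by
      have e1 : (fun _ : ℝ => (1:ℂ)) =ᵐ[volume.restrict (⋂ n, EN n)] ((I - 𝓕 y : H) : ℝ → ℂ) := by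
        rw [Filter.EventuallyEq, ae_restrict_iff' hEm]
        filter_upwards [hcon, Lp.coeFn_sub I (𝓕 y : H), hI.coeFn_toLp] with t a1 a2 a3 ht
        rw [a2, Pi.sub_apply, a1 ht, hIdef, a3, Set.indicator_of_mem (hEsub ht), sub_zero]
      rw [eLpNorm_congr_ae e1]
      refine (eLpNorm_mono_measure _ Measure.restrict_le_self).trans ?_
      rw [eLpNorm_coe]
      exact ENNReal.ofReal_le_ofReal hIy
    rw [eLpNorm_const _ (by norm_num) (by
      intro h
      rw [Measure.restrict_eq_zero] at h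
      rw [h] at hvolE
      simp at hvolE)] at hE1
    rw [enorm_one, one_mul, Measure.restrict_apply_univ] at hE1
    have e2 : ENNReal.ofReal (1 / 2) ^ (1 / (2 : ℝ≥0∞).toReal) ≤ ENNReal.ofReal (1 / 5) :=
      (ENNReal.rpow_le_rpow hvolE (by positivity)).trans hE1
    have e3 := ENNReal.rpow_le_rpow e2 (z := 2) (by norm_num)
    rw [← ENNReal.rpow_mul] at e3
    have e4 : (1 / (2 : ℝ≥0∞).toReal) * 2 = 1 := by norm_num
    rw [e4, ENNReal.rpow_one, ENNReal.ofReal_rpow_of_nonneg (by norm_num) (by norm_num)] at e3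
    rw [ENNReal.ofReal_le_ofReal_iff (by positivity)] at e3
    norm_num at e3

end Pool.Agent.H724R2.Locality
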