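import Mathlib

set_option autoImplicit false

namespace Pool.Agent.H724R2.Paley

open MeasureTheory ComplexConjugate

/-- the exponential `e^{imt}` -/
noncomputable def e (m : ℤ) (t : ℝ) : ℂ := Complex.exp ((m : ℂ) * (t : ℂ) * Complex.I)

/-- span of the exponentials with frequency at least `n` -/
def T (n : ℤ) : Submodule ℂ (ℝ → ℂ) := Submodule.span ℂ {f | ∃ m : ℤ, n ≤ m ∧ f = e m}

theorem e_mul (m n : ℤ) : e m * e n = e (m + n) := by
  funext t
  simp only [Pi.mul_apply, e]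
  rw [← Complex.exp_add]
  congr 1
  push_cast
  ring

theorem norm_e (m : ℤ) (t : ℝ) : ‖e m t‖ = 1 := by
  have : (m : ℂ) * (t : ℂ) * Complex.I = ((m * t : ℝ) : ℂ) * Complex.I := by push_cast; ring
  rw [e, this, Complex.norm_exp_ofReal_mul_I]

theorem conj_e (m : ℤ) (t : ℝ) : conj (e m t) = e (-m) t := by
  rw [e, e, ← Complex.exp_conj]
  congr 1
  simp [Complex.conj_ofReal]

theorem cont_e (m : ℤ) : Continuous (e m) := by
  unfold e
  fun_prop

theorem e_mem {m n : ℤ} (h : n ≤ m) : e m ∈ T n := Submodule.subset_span ⟨m, h, rfl⟩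

theorem T_mono {m n : ℤ} (h : n ≤ m) : T m ≤ T n := by
  apply Submodule.span_mono
  rintro f ⟨k, hk, rfl⟩
  exact ⟨k, h.trans hk, rfl⟩

theorem T_mul {m n : ℤ} {u v : ℝ → ℂ} (hu : u ∈ T m) (hv : v ∈ T n) : u * v ∈ T (m + n) := by
  refine Submodule.span_induction (p := fun u _ => u * v ∈ T (m + n)) ?_ ?_ ?_ ?_ hu
  · rintro f ⟨k, hk, rfl⟩
    refine Submodule.span_induction (p := fun v _ => e k * v ∈ T (m + n)) ?_ ?_ ?_ ?_ hv
    · rintro g ⟨l, hl, rfl⟩
      rw [e_mul]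
      exact e_mem (by omega)
    · simp
    · intro x y _ _ hx hy
      rw [mul_add]
      exact Submodule.add_mem _ hx hy
    · intro a x _ hx
      rw [mul_smul_comm]
      exact Submodule.smul_mem _ _ hx
  · simp
  · intro x y _ _ hx hy
    rw [add_mul]
    exact Submodule.add_mem _ hx hy
  · intro a x _ hx
    rw [smul_mul_assoc]
    exact Submodule.smul_mem _ _ hx

theorem cont_T {n : ℤ} {u : ℝ → ℂ} (hu : u ∈ T n) : Continuous u := by
  refine Submodule.span_induction (p := fun u _ => Continuous u) ?_ ?_ ?_ ?_ hu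
  · rintro f ⟨k, _, rfl⟩
    exact cont_e k
  · exact continuous_const
  · intro x y _ _ hx hy
    exact hx.add hy
  · intro a x _ hx
    exact hx.const_smul a

theorem int_e (m : ℤ) : ∫ t in (0:ℝ)..(2 * Real.pi), e m t = if m = 0 then (2 * Real.pi : ℂ) else 0 := by
  unfold e
  split_ifs with h
  · subst h
    simp
  · have h1 : ∀ t : ℝ, Complex.exp ((m : ℂ) * (t : ℂ) * Complex.I) = Complex.exp (((m : ℂ) * Complex.I) * t) := by
      intro t; congr 1; ring
    simp_rw [h1]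
    rw [integral_exp_mul_complex]
    · have h2 : (m : ℂ) * Complex.I * ((2 * Real.pi : ℝ) : ℂ) = m * (2 * Real.pi * Complex.I) := by
        push_cast; ring
      rw [h2, Complex.exp_int_mul_two_pi_mul_I]
      simp
    · simp [h]

theorem int_T {u : ℝ → ℂ} (hu : u ∈ T 1) (n : ℕ) :
    ∫ t in (0:ℝ)..(2 * Real.pi), e n t * u t = 0 := by
  refine Submodule.span_induction (p := fun u _ => ∫ t in (0:ℝ)..(2 * Real.pi), e n t * u t = 0) ?_ ?_ ?_ ?_ hu
  · rintro f ⟨k, hk, rfl⟩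
    have : ∀ t, e n t * e k t = e (n + k) t := fun t => congrFun (e_mul n k) t
    simp_rw [this]
    rw [int_e, if_neg (by omega)]
  · simp
  · intro x y hx' hy' hx hy
    simp only [Pi.add_apply, mul_add]
    rw [intervalIntegral.integral_add, hx, hy, add_zero]
    · exact ((cont_e _).mul (cont_T hx')).intervalIntegrable _ _
    · exact ((cont_e _).mul (cont_T hy')).intervalIntegrable _ _
  · intro a x hx' hx
    have : ∀ t, e n t * (a • x) t = a * (e n t * x t) := by
      intro t; simp only [Pi.smul_apply, smul_eq_mul]; ring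
    simp_rw [this]
    rw [intervalIntegral.integral_const_mul, hx, mul_zero]

/-- the pointwise inequality behind the recursion -/
theorem step_bound (u x : ℂ) (M : ℝ) (hM : 1 ≤ M) (hu : ‖u‖ ≤ M) (hx : ‖x‖ ≤ 1 / 2) :
    ‖u + x - conj x * u ^ 2 / (M : ℂ) ^ 2‖ ^ 2 ≤ M ^ 2 + 4 * ‖x‖ ^ 2 := by
  have hM0 : M ≠ 0 := by positivity
  have key : ‖u + x - conj x * u ^ 2 / (M : ℂ) ^ 2‖ ^ 2 =
      ‖u‖ ^ 2 + ‖x‖ ^ 2 * (1 + ‖u‖ ^ 4 / M ^ 4) + 2 * (u * conj x).re * (1 - ‖u‖ ^ 2 / M ^ 2)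
        - 2 * ((u * conj x) ^ 2).re / M ^ 2 := by
    have hu4 : ‖u‖ ^ 4 = (‖u‖ ^ 2) ^ 2 := by ring
    rw [hu4]
    have e1 : conj x * u ^ 2 / (M : ℂ) ^ 2 = ((1 / M ^ 2 : ℝ) : ℂ) * (conj x * u ^ 2) := by
      push_cast
      field_simp
    rw [e1]
    generalize hK : (1 / M ^ 2 : ℝ) = K
    have e2 : ∀ y : ℝ, y / M ^ 4 = y * K ^ 2 := by
      intro y; rw [← hK]; field_simp
    have e3 : ∀ y : ℝ, y / M ^ 2 = y * K := by
      intro y; rw [← hK]; field_simp
    rw [e2, e3, e3]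
    simp only [Complex.sq_norm, Complex.normSq_apply, Complex.add_re, Complex.sub_re, Complex.mul_re,
      Complex.ofReal_re, Complex.ofReal_im, Complex.add_im, Complex.sub_im, Complex.mul_im, Complex.conj_re,
      Complex.conj_im]
    simp only [pow_two, Complex.mul_re, Complex.mul_im, Complex.conj_re, Complex.conj_im]
    ring
  rw [key]
  have h1 : |(u * conj x).re| ≤ ‖u‖ * ‖x‖ := by
    refine (Complex.abs_re_le_norm _).trans (le_of_eq ?_)
    rw [norm_mul, Complex.norm_conj]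
  have h2 : |((u * conj x) ^ 2).re| ≤ ‖u‖ ^ 2 * ‖x‖ ^ 2 := by
    refine (Complex.abs_re_le_norm _).trans (le_of_eq ?_)
    rw [norm_pow, norm_mul, Complex.norm_conj]
    ring
  set r := ‖u‖
  set α := ‖x‖
  have hr : 0 ≤ r := norm_nonneg _
  have hα : 0 ≤ α := norm_nonneg _
  have hM2 : 0 < M ^ 2 := by positivity
  set ρ := r / M with hρ
  have hρ0 : 0 ≤ ρ := by positivity
  have hρ1 : ρ ≤ 1 := by rw [hρ, div_le_one (by positivity)]; exact hu
  have hrM : r = ρ * M := by rw [hρ]; field_simp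
  have e4 : r ^ 4 / M ^ 4 = ρ ^ 4 := by rw [hρ, div_pow]
  have e5 : r ^ 2 / M ^ 2 = ρ ^ 2 := by rw [hρ, div_pow]
  have h3 : 2 * (u * conj x).re * (1 - ρ ^ 2) ≤ 2 * (r * α) * (1 - ρ ^ 2) := by
    have : (0 : ℝ) ≤ 1 - ρ ^ 2 := by nlinarith
    have h1' := (abs_le.1 h1).2
    nlinarith
  have h4 : - (2 * ((u * conj x) ^ 2).re / M ^ 2) ≤ 2 * α ^ 2 * ρ ^ 2 := by
    have h2' := (abs_le.1 h2).1
    have : - (2 * ((u * conj x) ^ 2).re / M ^ 2) ≤ 2 * (r ^ 2 * α ^ 2) / M ^ 2 := by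
      rw [← neg_div]
      apply div_le_div_of_nonneg_right _ hM2.le
      linarith
    refine this.trans (le_of_eq ?_)
    rw [← e5]; ring
  rw [e4, e5]
  have h5 : 2 * (r * α) * (1 - ρ ^ 2) ≤ M ^ 2 * (1 - ρ ^ 2) := by
    have : (0 : ℝ) ≤ 1 - ρ ^ 2 := by nlinarith
    apply mul_le_mul_of_nonneg_right _ this
    nlinarith
  have h6 : r ^ 2 = M ^ 2 * ρ ^ 2 := by rw [hrM]; ring
  have h7 : α ^ 2 * (1 + ρ ^ 4) + 2 * α ^ 2 * ρ ^ 2 ≤ 4 * α ^ 2 := by
    have h8 : ρ ^ 2 ≤ 1 := by nlinarith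
    have h9 : ρ ^ 4 ≤ 1 := by nlinarith [sq_nonneg ρ]
    nlinarith [sq_nonneg α]
  linarith

/-- the previous frequency -/
def prev (n : ℕ → ℕ) : ℕ → ℕ
  | 0 => 0
  | k + 1 => n k

theorem exists_test (n : ℕ → ℕ) (hn : ∀ k, 2 * prev n k < n k) (a : ℕ → ℂ) (ha : ∀ k, ‖a k‖ ≤ 1 / 2) (k : ℕ) :
    ∃ v : ℝ → ℂ, v ∈ T (-(prev n k : ℤ)) ∧
      (v - ∑ j ∈ Finset.range k, a j • e (-(n j : ℤ))) ∈ T 1 ∧
      ∀ t, ‖v t‖ ^ 2 ≤ 1 + 4 * ∑ j ∈ Finset.range k, ‖a j‖ ^ 2 := by
  induction k with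
  | zero =>
    refine ⟨0, Submodule.zero_mem _, by simp, fun t => by simp⟩
  | succ k ih =>
    obtain ⟨v, hv1, hv2, hv3⟩ := ih
    set Q : ℝ := 1 + 4 * ∑ j ∈ Finset.range k, ‖a j‖ ^ 2 with hQ
    have hQ1 : 1 ≤ Q := by
      have : 0 ≤ ∑ j ∈ Finset.range k, ‖a j‖ ^ 2 := Finset.sum_nonneg fun _ _ => by positivity
      linarith
    set M : ℝ := Real.sqrt Q with hM
    have hM1 : 1 ≤ M := by rw [hM, Real.one_le_sqrt]; exact hQ1
    have hM2 : M ^ 2 = Q := Real.sq_sqrt (by linarith)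
    have hk := hn k
    refine ⟨v + a k • e (-(n k : ℤ)) - (conj (a k) / (M : ℂ) ^ 2) • (e (n k) * (v * v)), ?_, ?_, ?_⟩
    · have h1 : v ∈ T (-(prev n (k+1) : ℤ)) := T_mono (by show -(n k : ℤ) ≤ _; omega) hv1
      have h2 : e (n k) * (v * v) ∈ T (-(prev n (k+1) : ℤ)) := by
        refine T_mono ?_ (T_mul (e_mem le_rfl) (T_mul hv1 hv1))
        show -(n k : ℤ) ≤ _
        omega
      exact Submodule.sub_mem _ (Submodule.add_mem _ h1 (Submodule.smul_mem _ _ (e_mem le_rfl)))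
        (Submodule.smul_mem _ _ h2)
    · rw [Finset.sum_range_succ]
      have h2 : e (n k) * (v * v) ∈ T 1 := by
        refine T_mono ?_ (T_mul (e_mem le_rfl) (T_mul hv1 hv1))
        omega
      have : v + a k • e (-(n k : ℤ)) - (conj (a k) / (M : ℂ) ^ 2) • (e (n k) * (v * v)) -
          (∑ j ∈ Finset.range k, a j • e (-(n j : ℤ)) + a k • e (-(n k : ℤ))) =
          (v - ∑ j ∈ Finset.range k, a j • e (-(n j : ℤ))) - (conj (a k) / (M : ℂ) ^ 2) • (e (n k) * (v * v)) := by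
        abel
      rw [this]
      exact Submodule.sub_mem _ hv2 (Submodule.smul_mem _ _ h2)
    · intro t
      rw [Finset.sum_range_succ]
      have hvt : ‖v t‖ ≤ M := by
        rw [hM]
        exact Real.le_sqrt_of_sq_le (hv3 t)
      have hx : ‖a k * e (-(n k : ℤ)) t‖ = ‖a k‖ := by rw [norm_mul, norm_e, mul_one]
      have h := step_bound (v t) (a k * e (-(n k : ℤ)) t) M hM1 hvt (by rw [hx]; exact ha k)
      rw [hx, hM2] at h
      have e1 : (v + a k • e (-(n k : ℤ)) - (conj (a k) / (M : ℂ) ^ 2) • (e (n k) * (v * v))) t =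
          v t + a k * e (-(n k : ℤ)) t - conj (a k * e (-(n k : ℤ)) t) * (v t) ^ 2 / (M : ℂ) ^ 2 := by
        simp only [Pi.add_apply, Pi.sub_apply, Pi.smul_apply, Pi.mul_apply, smul_eq_mul, map_mul, conj_e, neg_neg]
        ring
      rw [e1]
      refine h.trans (le_of_eq ?_)
      rw [hQ]; ring

/-- Paley's inequality for analytic trigonometric polynomials, by duality -/
theorem paley_dual (n : ℕ → ℕ) (hn : ∀ k, 2 * prev n k < n k) (a : ℕ → ℂ) (ha : ∀ k, ‖a k‖ ≤ 1 / 2) (k : ℕ)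
    (N : ℕ) (c : ℕ → ℂ) (hc : ∀ m, N ≤ m → c m = 0) :
    2 * Real.pi * ‖∑ j ∈ Finset.range k, a j * c (n j)‖ ≤
      Real.sqrt (1 + 4 * ∑ j ∈ Finset.range k, ‖a j‖ ^ 2) *
        ∫ t in (0:ℝ)..(2 * Real.pi), ‖∑ m ∈ Finset.range N, c m * e m t‖ := by
  obtain ⟨v, hv1, hv2, hv3⟩ := exists_test n hn a ha k
  have hvc : Continuous v := cont_T hv1
  have hwc : Continuous (v - ∑ j ∈ Finset.range k, a j • e (-(n j : ℤ))) := cont_T hv2
  have hpi : (0:ℝ) ≤ 2 * Real.pi := by positivity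
  have key : ∫ t in (0:ℝ)..(2 * Real.pi), (∑ m ∈ Finset.range N, c m * e m t) * v t =
      2 * Real.pi * ∑ j ∈ Finset.range k, a j * c (n j) := by
    have h1 : ∀ t, (∑ m ∈ Finset.range N, c m * e m t) * v t =
        ∑ m ∈ Finset.range N, (c m * (e m t * (v - ∑ j ∈ Finset.range k, a j • e (-(n j : ℤ))) t) +
          ∑ j ∈ Finset.range k, c m * (a j * e ((m : ℤ) + -(n j : ℤ)) t)) := by
      intro t
      rw [Finset.sum_mul]
      refine Finset.sum_congr rfl fun m _ => ?_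
      simp only [Pi.sub_apply, Finset.sum_apply, Pi.smul_apply, smul_eq_mul]
      have h2 : ∀ j, e ((m : ℤ) + -(n j : ℤ)) t = e m t * e (-(n j : ℤ)) t := by
        intro j
        rw [← e_mul]; rfl
      simp_rw [h2]
      rw [mul_sub, mul_sub, Finset.mul_sum, Finset.mul_sum]
      have h3 : ∑ j ∈ Finset.range k, c m * (a j * (e m t * e (-(n j : ℤ)) t)) =
          ∑ j ∈ Finset.range k, c m * (e m t * (a j * e (-(n j : ℤ)) t)) :=
        Finset.sum_congr rfl fun j _ => by ring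
      rw [h3]
      ring
    simp_rw [h1]
    rw [intervalIntegral.integral_finsetSum]
    swap
    · intro m _
      apply Continuous.intervalIntegrable
      refine Continuous.add (continuous_const.mul ((cont_e _).mul hwc)) ?_
      exact continuous_finsetSum _ fun j _ => continuous_const.mul (continuous_const.mul (cont_e _))
    have h4 : ∀ m ∈ Finset.range N, ∫ t in (0:ℝ)..(2 * Real.pi),
        (c m * (e m t * (v - ∑ j ∈ Finset.range k, a j • e (-(n j : ℤ))) t) +
          ∑ j ∈ Finset.range k, c m * (a j * e ((m : ℤ) + -(n j : ℤ)) t)) =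
        ∑ j ∈ Finset.range k, c m * (a j * (if (m : ℤ) + -(n j : ℤ) = 0 then (2 * Real.pi : ℂ) else 0)) := by
      intro m _
      rw [intervalIntegral.integral_add, intervalIntegral.integral_const_mul, int_T hv2 m, mul_zero, zero_add,
        intervalIntegral.integral_finsetSum]
      · refine Finset.sum_congr rfl fun j _ => ?_
        rw [intervalIntegral.integral_const_mul, intervalIntegral.integral_const_mul, int_e]
      · intro j _
        exact (continuous_const.mul (continuous_const.mul (cont_e _))).intervalIntegrable _ _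
      · exact (continuous_const.mul ((cont_e _).mul hwc)).intervalIntegrable _ _
      · exact (continuous_finsetSum _ fun j _ => continuous_const.mul
          (continuous_const.mul (cont_e _))).intervalIntegrable _ _
    rw [Finset.sum_congr rfl h4, Finset.sum_comm, Finset.mul_sum]
    refine Finset.sum_congr rfl fun j _ => ?_
    by_cases hj : n j < N
    · rw [Finset.sum_eq_single (n j)]
      · rw [if_pos (by omega)]
        ring
      · intro m _ hm
        rw [if_neg (by omega)]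
        ring
      · intro h
        exact absurd (Finset.mem_range.2 hj) h
    · rw [hc (n j) (by omega)]
      rw [Finset.sum_eq_zero]
      · ring
      · intro m hm
        have := Finset.mem_range.1 hm
        rw [if_neg (by omega)]
        ring
  have h5 : ‖∫ t in (0:ℝ)..(2 * Real.pi), (∑ m ∈ Finset.range N, c m * e m t) * v t‖ ≤
      ∫ t in (0:ℝ)..(2 * Real.pi), ‖(∑ m ∈ Finset.range N, c m * e m t) * v t‖ :=
    intervalIntegral.norm_integral_le_integral_norm hpi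
  rw [key] at h5
  have h6 : ‖(2 * Real.pi : ℂ) * ∑ j ∈ Finset.range k, a j * c (n j)‖ =
      2 * Real.pi * ‖∑ j ∈ Finset.range k, a j * c (n j)‖ := by
    rw [norm_mul]
    congr 1
    rw [norm_mul, Complex.norm_real, Real.norm_of_nonneg Real.pi_pos.le]
    norm_num
  rw [h6] at h5
  refine h5.trans ?_
  rw [← intervalIntegral.integral_const_mul]
  have hcf : Continuous fun t : ℝ => ∑ m ∈ Finset.range N, c m * e m t :=
    continuous_finsetSum _ fun j _ => continuous_const.mul (cont_e _)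
  refine intervalIntegral.integral_mono_on hpi ?_ ?_ ?_
  · exact (hcf.mul hvc).norm.intervalIntegrable _ _
  · exact (continuous_const.mul hcf.norm).intervalIntegrable _ _
  · intro t _
    rw [norm_mul, mul_comm]
    exact mul_le_mul_of_nonneg_right (Real.le_sqrt_of_sq_le (hv3 t)) (norm_nonneg _)

/-- Paley's inequality -/
theorem paley (n : ℕ → ℕ) (hn : ∀ k, 2 * prev n k < n k) (k : ℕ)
    (N : ℕ) (c : ℕ → ℂ) (hc : ∀ m, N ≤ m → c m = 0) :
    (2 * Real.pi) ^ 2 * ∑ j ∈ Finset.range k, ‖c (n j)‖ ^ 2 ≤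
      8 * (∫ t in (0:ℝ)..(2 * Real.pi), ‖∑ m ∈ Finset.range N, c m * e m t‖) ^ 2 := by
  set S2 := ∑ j ∈ Finset.range k, ‖c (n j)‖ ^ 2 with hS2
  have hS20 : 0 ≤ S2 := Finset.sum_nonneg fun _ _ => by positivity
  rcases hS20.eq_or_lt with h0 | hpos
  · rw [← h0]
    simp only [mul_zero]
    positivity
  set S := Real.sqrt S2 with hS
  have hSpos : 0 < S := Real.sqrt_pos.2 hpos
  have hSsq : S ^ 2 = S2 := Real.sq_sqrt hS20
  set a : ℕ → ℂ := fun j => if j < k then conj (c (n j)) / (2 * S) else 0 with ha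
  have hna : ∀ j, j < k → ‖a j‖ = ‖c (n j)‖ / (2 * S) := by
    intro j hj
    rw [ha]
    simp only [hj, if_true]
    rw [norm_div, Complex.norm_conj, norm_mul, Complex.norm_real, Real.norm_of_nonneg hSpos.le]
    norm_num
  have ha1 : ∀ j, ‖a j‖ ≤ 1 / 2 := by
    intro j
    by_cases hj : j < k
    · rw [hna j hj]
      have h1 : ‖c (n j)‖ ^ 2 ≤ S2 := by
        rw [hS2]
        exact Finset.single_le_sum (f := fun j => ‖c (n j)‖ ^ 2) (fun _ _ => by positivity) (Finset.mem_range.2 hj)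
      have h2 : ‖c (n j)‖ ≤ S := Real.le_sqrt_of_sq_le h1
      rw [div_le_div_iff₀ (by positivity) (by norm_num)]
      linarith
    · rw [ha]
      simp [hj]
  have h := paley_dual n hn a ha1 k N c hc
  have hsum : ∑ j ∈ Finset.range k, ‖a j‖ ^ 2 = 1 / 4 := by
    have : ∀ j ∈ Finset.range k, ‖a j‖ ^ 2 = ‖c (n j)‖ ^ 2 / (4 * S2) := by
      intro j hj
      rw [hna j (Finset.mem_range.1 hj), div_pow, mul_pow, hSsq]
      norm_num
    rw [Finset.sum_congr rfl this, ← Finset.sum_div, ← hS2]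
    field_simp
  have hpair : ∑ j ∈ Finset.range k, a j * c (n j) = ((S / 2 : ℝ) : ℂ) := by
    have : ∀ j ∈ Finset.range k, a j * c (n j) = ((‖c (n j)‖ ^ 2 / (2 * S) : ℝ) : ℂ) := by
      intro j hj
      rw [ha]
      simp only [Finset.mem_range.1 hj, if_true]
      have h1 : conj (c (n j)) * c (n j) = ((‖c (n j)‖ ^ 2 : ℝ) : ℂ) := by
        rw [Complex.conj_mul']
        norm_cast
      push_cast at h1 ⊢
      rw [div_mul_eq_mul_div, h1]
    rw [Finset.sum_congr rfl this, ← Complex.ofReal_sum, ← Finset.sum_div, ← hS2, ← hSsq]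
    congr 1
    field_simp
  rw [hsum, hpair, Complex.norm_real, Real.norm_of_nonneg (by positivity)] at h
  have h3 : (1 : ℝ) + 4 * (1 / 4) = 2 := by norm_num
  rw [h3] at h
  set I := ∫ t in (0:ℝ)..(2 * Real.pi), ‖∑ m ∈ Finset.range N, c m * e m t‖
  have h4 : (2 * Real.pi * (S / 2)) ^ 2 ≤ (Real.sqrt 2 * I) ^ 2 :=
    pow_le_pow_left₀ (by positivity) h 2
  rw [mul_pow, mul_pow (Real.sqrt 2), Real.sq_sqrt (by norm_num), div_pow, hSsq] at h4
  linarith

end Pool.Agent.H724R2.Paley
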