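import Pool.Agent.H295R2.Z

/-! The Riemann zeta function has no zeros on the positive real axis. -/

set_option autoImplicit false

open MeasureTheory Filter Topology Set

namespace Pool.Agent.H724R2

open Pool.Agent.H295R2

theorem Zs_real_ne_zero (σ : ℝ) (hσ : 0 < σ) : Zs (σ : ℂ) ≠ 0 := by
  intro h0
  rcases le_or_gt 1 σ with h1 | h1
  · exact Zs_ne_zero_of_one_le (by simpa using h1) h0
  · rw [Zs_eq_Zt (by simpa using hσ)] at h0
    have key : ∃ r : ℝ, 0 ≤ r ∧ Hf (σ : ℂ) = (r : ℂ) := by
      refine ⟨∫ t in Ioi (1 : ℝ), Int.fract t * t ^ (-(σ + 1)), ?_, ?_⟩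
      · refine MeasureTheory.setIntegral_nonneg measurableSet_Ioi fun t ht => ?_
        have ht' : (1 : ℝ) < t := ht
        exact mul_nonneg (Int.fract_nonneg t) (Real.rpow_nonneg (by linarith) _)
      · rw [Hf_eq, ← integral_complex_ofReal]
        refine MeasureTheory.setIntegral_congr_fun measurableSet_Ioi fun t ht => ?_
        have ht' : (1 : ℝ) < t := ht
        have ht0 : 0 ≤ t := by linarith
        rw [Complex.ofReal_mul, Complex.ofReal_cpow ht0]
        push_cast
        rfl
    obtain ⟨r, hr, hH⟩ := key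
    unfold Zt at h0
    rw [hH] at h0
    have h2 : σ - σ * (σ - 1) * r = 0 := by exact_mod_cast h0
    nlinarith [mul_nonneg (mul_nonneg hσ.le (by linarith : 0 ≤ 1 - σ)) hr]

end Pool.Agent.H724R2
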