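import Pool.Agent.H295R2.Nic.Defs
import Pool.Agent.H724R2.RealNZ0

/-! Task N6 of h295c: the Riemann zeta function has no zeros on the positive real axis. -/

set_option autoImplicit false

namespace Pool.Agent.H724R2

theorem realNZ : Pool.Agent.H295R2.Nic.RealNZ := fun σ hσ => Zs_real_ne_zero σ hσ

end Pool.Agent.H724R2
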