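import Mathlib
import Pool.Agent.H117R2.UC.Defs

/-!
# Union-closed constant, task T12: the local inequality
-/

set_option autoImplicit false

namespace Pool.Agent.H724R2.UCT12
open Real Finset Pool.Agent.H117R2.UC

/-- the log-sum inequality -/
theorem logsum {ι : Type*} (s : Finset ι) (w r : ι → ℝ) (hw : ∀ k ∈ s, 0 ≤ w k)
    (hr : ∀ k ∈ s, 0 ≤ r k) (hp : ∀ k ∈ s, 0 < w k → 0 < r k) :
    -negMulLog (∑ k ∈ s, w k) - (∑ k ∈ s, w k) * log (∑ k ∈ s, r k) ≤
      ∑ k ∈ s, (-negMulLog (w k) - w k * log (r k)) := by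
  set Wt := ∑ k ∈ s, w k with hWt
  set Rt := ∑ k ∈ s, r k with hRt
  have hW0 : 0 ≤ Wt := Finset.sum_nonneg hw
  rcases eq_or_lt_of_le hW0 with h | hWpos
  · have h1 : ∀ k ∈ s, w k = 0 := (Finset.sum_eq_zero_iff_of_nonneg hw).1 h.symm
    have h2 : ∑ k ∈ s, (-negMulLog (w k) - w k * log (r k)) = 0 :=
      Finset.sum_eq_zero fun k hk => by rw [h1 k hk]; simp
    rw [h2, ← h]
    simp
  · obtain ⟨k0, hk0, hwk0⟩ : ∃ k ∈ s, 0 < w k := by
      by_contra hcon
      push Not at hcon
      have : Wt ≤ 0 := Finset.sum_nonpos hcon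
      linarith
    have hRpos : 0 < Rt := Finset.sum_pos' hr ⟨k0, hk0, hp k0 hk0 hwk0⟩
    have hpt : ∀ k ∈ s, w k * (log Wt - log Rt) + w k - r k * (Wt / Rt) ≤
        -negMulLog (w k) - w k * log (r k) := by
      intro k hk
      rcases eq_or_lt_of_le (hw k hk) with h0 | h0
      · rw [← h0]
        have := mul_nonneg (hr k hk) (div_pos hWpos hRpos).le
        simp
        exact this
      · have hrk := hp k hk h0
        have h1 : log (r k * (Wt / Rt) / w k) ≤ r k * (Wt / Rt) / w k - 1 :=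
          Real.log_le_sub_one_of_pos (by positivity)
        have h2 : log (r k * (Wt / Rt) / w k) = log (r k) + (log Wt - log Rt) - log (w k) := by
          rw [Real.log_div (by positivity) h0.ne', Real.log_mul hrk.ne' (by positivity),
            Real.log_div hWpos.ne' hRpos.ne']
        rw [h2] at h1
        have h3 := mul_le_mul_of_nonneg_left h1 h0.le
        have h4 : w k * (r k * (Wt / Rt) / w k - 1) = r k * (Wt / Rt) - w k := by
          field_simp
        rw [h4] at h3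
        unfold negMulLog
        linarith
    have hsum := Finset.sum_le_sum hpt
    have e1 : ∑ k ∈ s, (w k * (log Wt - log Rt) + w k - r k * (Wt / Rt)) =
        Wt * (log Wt - log Rt) + Wt - Rt * (Wt / Rt) := by
      rw [Finset.sum_sub_distrib, Finset.sum_add_distrib, ← Finset.sum_mul, ← Finset.sum_mul]
    rw [e1] at hsum
    have e2 : Rt * (Wt / Rt) = Wt := by field_simp
    rw [e2] at hsum
    unfold negMulLog at hsum ⊢
    linarith

theorem block
    (lemQ' : ∀ {W0 W1 R0 R1 : ℝ}, 0 ≤ W0 → 0 ≤ W1 → 0 ≤ R0 → 0 ≤ R1 → (0 < W0 → 0 < R0) →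
      (0 < W1 → 0 < R1) → 0 < R0 + R1 →
      (W0 + W1) * (-log (R0 + R1) + log 2 / 4 * (R0 / (R0 + R1) * (R1 / (R0 + R1)))) ≤
        1 / 16 * EE W0 W1 - negMulLog W0 - negMulLog W1 + negMulLog (W0 + W1)
          - W0 * log R0 - W1 * log R1)
    {ι : Type*} [Fintype ι] [DecidableEq ι] (T : Finset ι) (w r : ι → ℝ) (hw : ∀ k, 0 ≤ w k)
    (hr : ∀ k, 0 ≤ r k) (hp : ∀ k, 0 < w k → 0 < r k) (hS : 0 < ∑ k, r k) :
    (∑ k, w k) * (-log (∑ k, r k) +
        log 2 / 4 * ((∑ k ∈ T, r k) / (∑ k, r k) * (1 - (∑ k ∈ T, r k) / (∑ k, r k)))) ≤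
      1 / 16 * EE (∑ k ∈ T, w k) ((∑ k, w k) - ∑ k ∈ T, w k) +
        (∑ k, (-negMulLog (w k) - w k * log (r k))) + negMulLog (∑ k, w k) := by
  have eW := Finset.sum_add_sum_compl T w
  have eR := Finset.sum_add_sum_compl T r
  have eF := Finset.sum_add_sum_compl T (fun k => -negMulLog (w k) - w k * log (r k))
  have l0 := logsum T w r (fun k _ => hw k) (fun k _ => hr k) (fun k _ => hp k)
  have l1 := logsum Tᶜ w r (fun k _ => hw k) (fun k _ => hr k) (fun k _ => hp k)
  set W0 := ∑ k ∈ T, w k with hW0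
  set W1 := ∑ k ∈ Tᶜ, w k with hW1
  set R0 := ∑ k ∈ T, r k with hR0
  set R1 := ∑ k ∈ Tᶜ, r k with hR1
  have key : ∀ U : Finset ι, 0 < ∑ k ∈ U, w k → 0 < ∑ k ∈ U, r k := by
    intro U hU
    obtain ⟨k0, hk0, hwk0⟩ : ∃ k ∈ U, 0 < w k := by
      by_contra hcon
      push Not at hcon
      have := Finset.sum_nonpos hcon
      linarith
    exact Finset.sum_pos' (fun k _ => hr k) ⟨k0, hk0, hp k0 hwk0⟩
  have q := lemQ' (W0 := W0) (W1 := W1) (R0 := R0) (R1 := R1)
    (Finset.sum_nonneg fun k _ => hw k) (Finset.sum_nonneg fun k _ => hw k)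
    (Finset.sum_nonneg fun k _ => hr k) (Finset.sum_nonneg fun k _ => hr k)
    (key T) (key Tᶜ) (by rw [eR]; exact hS)
  have e3 : (∑ k, w k) - W0 = W1 := by rw [← eW]; ring
  have e4 : 1 - R0 / (∑ k, r k) = R1 / (∑ k, r k) := by
    rw [eq_div_iff hS.ne', sub_mul, one_mul, div_mul_cancel₀ _ hS.ne', ← eR]
    ring
  rw [e3, e4, ← eF]
  rw [eW, eR] at q
  linarith

section LI

variable (α β γ δ : Bool → ℝ)

/-- the probability of the outcome `(a, b)` -/
noncomputable def PP (α β : Bool → ℝ) (a b : Bool) : ℝ :=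
  α a / (α false + α true) * (β b / (β false + β true))

/-- the probability of the union bit -/
noncomputable def NNb (α β : Bool → ℝ) (t : Bool) : ℝ :=
  if t then 1 - α false / (α false + α true) * (β false / (β false + β true))
  else α false / (α false + α true) * (β false / (β false + β true))

/-- the reference weight -/
noncomputable def rr (k : Bool × Bool × Bool × Bool) : ℝ :=
  if (k.1 || k.2.1) = (k.2.2.1 || k.2.2.2) then
    PP α β k.1 k.2.1 * PP γ δ k.2.2.1 k.2.2.2 /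
      √(NNb α β (k.1 || k.2.1) * NNb γ δ (k.2.2.1 || k.2.2.2))
  else 0

end LI

theorem frac {α : Bool → ℝ} (hα : ∀ b, 0 ≤ α b) (hA : 0 < α false + α true) :
    0 ≤ α false / (α false + α true) ∧ α false / (α false + α true) ≤ 1 ∧
      α true / (α false + α true) = 1 - α false / (α false + α true) := by
  refine ⟨div_nonneg (hα _) hA.le, ?_, ?_⟩
  · rw [div_le_one hA]
    linarith [hα true]
  · field_simp
    ring

theorem NNb_nonneg {α β : Bool → ℝ} (hα : ∀ b, 0 ≤ α b) (hA : 0 < α false + α true)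
    (hβ : ∀ b, 0 ≤ β b) (hB : 0 < β false + β true) (t : Bool) : 0 ≤ NNb α β t := by
  obtain ⟨x0, x1, -⟩ := frac hα hA
  obtain ⟨y0, y1, -⟩ := frac hβ hB
  unfold NNb
  split_ifs
  · nlinarith
  · positivity

theorem NNb_pos {α β : Bool → ℝ} (hα : ∀ b, 0 ≤ α b) (hβ : ∀ b, 0 ≤ β b) (a b : Bool)
    (ha : 0 < α a) (hb : 0 < β b) : 0 < NNb α β (a || b) := by
  have hA : 0 < α false + α true := by
    cases a
    · linarith [hα true]
    · linarith [hα false]
  have hB : 0 < β false + β true := by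
    cases b
    · linarith [hβ true]
    · linarith [hβ false]
  obtain ⟨x0, x1, x2⟩ := frac hα hA
  obtain ⟨y0, y1, y2⟩ := frac hβ hB
  cases a <;> cases b <;> simp only [Bool.or_false, Bool.or_true, NNb] <;> simp
  · positivity
  · have h1 : 0 < β true / (β false + β true) := div_pos hb hB
    rw [y2] at h1
    nlinarith
  · have h1 : 0 < α true / (α false + α true) := div_pos ha hA
    rw [x2] at h1
    nlinarith
  · have h1 : 0 < β true / (β false + β true) := div_pos hb hB
    rw [y2] at h1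
    nlinarith

/-- the values of the reference weight -/
theorem rr_vals {α β γ δ : Bool → ℝ} {x y p q : ℝ}
    (hx : x = α false / (α false + α true)) (hx' : α true / (α false + α true) = 1 - x)
    (hy : y = β false / (β false + β true)) (hy' : β true / (β false + β true) = 1 - y)
    (hp : p = γ false / (γ false + γ true)) (hp' : γ true / (γ false + γ true) = 1 - p)
    (hq : q = δ false / (δ false + δ true)) (hq' : δ true / (δ false + δ true) = 1 - q)
    (a b c d : Bool) :
    rr α β γ δ (a, b, c, d) =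
      if (a || b) = (c || d) then
        (bif a then 1 - x else x) * (bif b then 1 - y else y) *
          ((bif c then 1 - p else p) * (bif d then 1 - q else q)) /
          √((bif (a || b) then 1 - x * y else x * y) * (bif (c || d) then 1 - p * q else p * q))
      else 0 := by
  unfold rr PP NNb
  cases a <;> cases b <;> cases c <;> cases d <;>
    simp [← hx, ← hy, ← hp, ← hq, hx', hy', hp', hq']

theorem fin_aux (W L l2 u1 u2 u3 u4 E1 E2 E3 E4 F P1 P2 nW g lA σ : ℝ)
    (b1 : W * (-L + l2 / 4 * u1) ≤ 1 / 16 * E1 + (F - P1) + nW)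
    (b2 : W * (-L + l2 / 4 * u2) ≤ 1 / 16 * E2 + (F - P1) + nW)
    (b3 : W * (-L + l2 / 4 * u3) ≤ 1 / 16 * E3 + (F - P1) + nW)
    (b4 : W * (-L + l2 / 4 * u4) ≤ 1 / 16 * E4 + (F - P1) + nW)
    (hψ : W * (σ * (433 / 10000) * (g / 2)) ≤ W * (-L + l2 / 16 * (u1 + u2 + u3 + u4))) :
    1 / 2 * (2 * P1 - 2 * P2 + W * (2 * lA + σ * (433 / 10000) * g)) ≤
      1 / 64 * (E1 + E2 + E3 + E4) + (F - P2) + nW + W * lA := by
  linarith

theorem LI
    (lemQ' : ∀ {W0 W1 R0 R1 : ℝ}, 0 ≤ W0 → 0 ≤ W1 → 0 ≤ R0 → 0 ≤ R1 → (0 < W0 → 0 < R0) →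
      (0 < W1 → 0 < R1) → 0 < R0 + R1 →
      (W0 + W1) * (-log (R0 + R1) + log 2 / 4 * (R0 / (R0 + R1) * (R1 / (R0 + R1)))) ≤
        1 / 16 * EE W0 W1 - negMulLog W0 - negMulLog W1 + negMulLog (W0 + W1)
          - W0 * log R0 - W1 * log R1)
    (psi : ∀ {x y p q S R1 R2 R3 R4 : ℝ}, 0 ≤ x → x ≤ 1 → 0 ≤ y → y ≤ 1 → 0 ≤ p → p ≤ 1 →
      0 ≤ q → q ≤ 1 → S = √(x * y * (p * q)) + √((1 - x * y) * (1 - p * q)) → 0 < S →
      R1 = √(x * y * (p * q)) + x * (1 - y) * (p * (1 - q)) / √((1 - x * y) * (1 - p * q)) →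
      R2 = √(x * y * (p * q)) + x * (1 - y) * (q * (1 - p)) / √((1 - x * y) * (1 - p * q)) →
      R3 = √(x * y * (p * q)) + y * (1 - x) * (p * (1 - q)) / √((1 - x * y) * (1 - p * q)) →
      R4 = √(x * y * (p * q)) + y * (1 - x) * (q * (1 - p)) / √((1 - x * y) * (1 - p * q)) →
      ∀ {σ : ℝ}, σ = 0 ∨ σ = 1 →
      σ * (433 / 10000) * ((Gk x y + Gk p q) / 2) ≤
        -log S + log 2 / 16 * (R1 / S * (1 - R1 / S) + R2 / S * (1 - R2 / S)
          + R3 / S * (1 - R3 / S) + R4 / S * (1 - R4 / S)))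
    {σ : ℝ} (hσ : σ = 0 ∨ σ = 1) (α β γ δ : Bool → ℝ) (w : Bool → Bool → Bool → Bool → ℝ)
    (hα : ∀ b, 0 ≤ α b) (hβ : ∀ b, 0 ≤ β b) (hγ : ∀ b, 0 ≤ γ b) (hδ : ∀ b, 0 ≤ δ b)
    (hw : ∀ a b c d, 0 ≤ w a b c d)
    (hsupp : ∀ a b c d, (a || b) ≠ (c || d) → w a b c d = 0)
    (hpos : ∀ a b c d, 0 < w a b c d → 0 < α a ∧ 0 < β b ∧ 0 < γ c ∧ 0 < δ d) :
    1 / 2 * ∑ a, ∑ b, ∑ c, ∑ d, w a b c d * (theta σ α β a b + theta σ γ δ c d) ≤
      1 / 64 * (EE (∑ b, ∑ d, w false b false d)
            ((∑ a, ∑ b, ∑ c, ∑ d, w a b c d) - ∑ b, ∑ d, w false b false d)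
          + EE (∑ b, ∑ c, w false b c false)
            ((∑ a, ∑ b, ∑ c, ∑ d, w a b c d) - ∑ b, ∑ c, w false b c false)
          + EE (∑ a, ∑ d, w a false false d)
            ((∑ a, ∑ b, ∑ c, ∑ d, w a b c d) - ∑ a, ∑ d, w a false false d)
          + EE (∑ a, ∑ c, w a false c false)
            ((∑ a, ∑ b, ∑ c, ∑ d, w a b c d) - ∑ a, ∑ c, w a false c false))
      + ∑ a, ∑ b, ∑ c, ∑ d,
          (-negMulLog (w a b c d) - w a b c d * log (α a * β b * γ c * δ d))
      + negMulLog (∑ a, ∑ b, ∑ c, ∑ d, w a b c d)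
      + (∑ a, ∑ b, ∑ c, ∑ d, w a b c d) *
          log ((α false + α true) * (β false + β true) * (γ false + γ true) *
            (δ false + δ true)) := by
  by_cases hall : ∀ a b c d, w a b c d = 0
  · simp [hall, EE]
  push Not at hall
  obtain ⟨a0, b0, c0, d0, h0⟩ := hall
  have h0' : 0 < w a0 b0 c0 d0 := lt_of_le_of_ne (hw _ _ _ _) (Ne.symm h0)
  obtain ⟨hαa, hβb, hγc, hδd⟩ := hpos _ _ _ _ h0'
  have tot : ∀ {α : Bool → ℝ}, (∀ b, 0 ≤ α b) → ∀ a, 0 < α a → 0 < α false + α true := by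
    intro α hα a ha
    cases a
    · linarith [hα true]
    · linarith [hα false]
  have hA := tot hα _ hαa
  have hB := tot hβ _ hβb
  have hC := tot hγ _ hγc
  have hD := tot hδ _ hδd
  obtain ⟨x, hx⟩ : ∃ x, x = α false / (α false + α true) := ⟨_, rfl⟩
  obtain ⟨y, hy⟩ : ∃ y, y = β false / (β false + β true) := ⟨_, rfl⟩
  obtain ⟨p, hp⟩ : ∃ p, p = γ false / (γ false + γ true) := ⟨_, rfl⟩
  obtain ⟨q, hq⟩ : ∃ q, q = δ false / (δ false + δ true) := ⟨_, rfl⟩
  obtain ⟨hx0, hx1, hx'⟩ := frac hα hA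
  obtain ⟨hy0, hy1, hy'⟩ := frac hβ hB
  obtain ⟨hp0, hp1, hp'⟩ := frac hγ hC
  obtain ⟨hq0, hq1, hq'⟩ := frac hδ hD
  rw [← hx] at hx0 hx1 hx'
  rw [← hy] at hy0 hy1 hy'
  rw [← hp] at hp0 hp1 hp'
  rw [← hq] at hq0 hq1 hq'
  -- the weights on the product
  let w' : Bool × Bool × Bool × Bool → ℝ := fun k => w k.1 k.2.1 k.2.2.1 k.2.2.2
  let r : Bool × Bool × Bool × Bool → ℝ := rr α β γ δ
  have hv := fun a b c d => rr_vals hx hx' hy hy' hp hp' hq hq' a b c d
  have hw' : ∀ k, 0 ≤ w' k := fun k => hw _ _ _ _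
  have hr' : ∀ k, 0 ≤ r k := by
    intro k
    show 0 ≤ rr α β γ δ k
    unfold rr
    split_ifs
    · have e1 : ∀ {α β : Bool → ℝ}, (∀ b, 0 ≤ α b) → (∀ b, 0 ≤ β b) →
          0 < α false + α true → 0 < β false + β true → ∀ a b, 0 ≤ PP α β a b := by
        intro α β hα hβ hA hB a b
        unfold PP
        exact mul_nonneg (div_nonneg (hα _) hA.le) (div_nonneg (hβ _) hB.le)
      exact div_nonneg (mul_nonneg (e1 hα hβ hA hB _ _) (e1 hγ hδ hC hD _ _)) (Real.sqrt_nonneg _)
    · exact le_rfl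
  have hsup' : ∀ a b c d, 0 < w a b c d → (a || b) = (c || d) := by
    intro a b c d h
    by_contra hcon
    rw [hsupp a b c d hcon] at h
    exact lt_irrefl _ h
  have hPpos : ∀ {α β : Bool → ℝ}, 0 < α false + α true → 0 < β false + β true →
      ∀ a b, 0 < α a → 0 < β b → 0 < PP α β a b := by
    intro α β hA hB a b ha hb
    unfold PP
    positivity
  have hpr : ∀ k, 0 < w' k → 0 < r k := by
    rintro ⟨a, b, c, d⟩ h
    have h' : 0 < w a b c d := h
    obtain ⟨h1, h2, h3, h4⟩ := hpos _ _ _ _ h'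
    show 0 < rr α β γ δ (a, b, c, d)
    unfold rr
    rw [if_pos (hsup' _ _ _ _ h')]
    have e1 := hPpos hA hB a b h1 h2
    have e2 := hPpos hC hD c d h3 h4
    have e3 := NNb_pos hα hβ a b h1 h2
    have e4 := NNb_pos hγ hδ c d h3 h4
    positivity
  have eW : ∑ k, w' k = ∑ a, ∑ b, ∑ c, ∑ d, w a b c d := by
    simp only [Fintype.sum_prod_type, w']
  have eF : ∑ k, (-negMulLog (w' k) - w' k * log (r k)) =
      ∑ a, ∑ b, ∑ c, ∑ d, (-negMulLog (w a b c d) - w a b c d * log (rr α β γ δ (a, b, c, d))) := by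
    simp only [Fintype.sum_prod_type, w', r]
  obtain ⟨S, hS⟩ : ∃ S, S = √(x * y * (p * q)) + √((1 - x * y) * (1 - p * q)) := ⟨_, rfl⟩
  have hS' : S = x * y * (p * q) / √(x * y * (p * q)) +
      (1 - x * y) * (1 - p * q) / √((1 - x * y) * (1 - p * q)) := by
    rw [Real.div_sqrt, Real.div_sqrt, hS]
  have eS : ∑ k, r k = S := by
    simp only [Fintype.sum_prod_type, Fintype.sum_bool, r, hv]
    simp only [Bool.or_self, Bool.or_true, Bool.or_false, if_true, cond_true,
      cond_false, reduceCtorEq, if_false]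
    rw [hS']
    ring
  have hSpos : 0 < ∑ k, r k :=
    Finset.sum_pos' (fun k _ => hr' k) ⟨(a0, b0, c0, d0), Finset.mem_univ _, hpr _ h0'⟩
  -- the four blocks
  have b1 := block lemQ' (Finset.univ.filter fun k : Bool × Bool × Bool × Bool =>
    k.1 = false ∧ k.2.2.1 = false) w' r hw' hr' hpr hSpos
  have b2 := block lemQ' (Finset.univ.filter fun k : Bool × Bool × Bool × Bool =>
    k.1 = false ∧ k.2.2.2 = false) w' r hw' hr' hpr hSpos
  have b3 := block lemQ' (Finset.univ.filter fun k : Bool × Bool × Bool × Bool =>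
    k.2.1 = false ∧ k.2.2.1 = false) w' r hw' hr' hpr hSpos
  have b4 := block lemQ' (Finset.univ.filter fun k : Bool × Bool × Bool × Bool =>
    k.2.1 = false ∧ k.2.2.2 = false) w' r hw' hr' hpr hSpos
  have w1 : ∑ k ∈ Finset.univ.filter (fun k : Bool × Bool × Bool × Bool =>
      k.1 = false ∧ k.2.2.1 = false), w' k = ∑ b, ∑ d, w false b false d := by
    simp [Finset.sum_filter, Fintype.sum_prod_type, w']
  have w2 : ∑ k ∈ Finset.univ.filter (fun k : Bool × Bool × Bool × Bool =>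
      k.1 = false ∧ k.2.2.2 = false), w' k = ∑ b, ∑ c, w false b c false := by
    simp [Finset.sum_filter, Fintype.sum_prod_type, w']
  have w3 : ∑ k ∈ Finset.univ.filter (fun k : Bool × Bool × Bool × Bool =>
      k.2.1 = false ∧ k.2.2.1 = false), w' k = ∑ a, ∑ d, w a false false d := by
    simp [Finset.sum_filter, Fintype.sum_prod_type, w']
  have w4 : ∑ k ∈ Finset.univ.filter (fun k : Bool × Bool × Bool × Bool =>
      k.2.1 = false ∧ k.2.2.2 = false), w' k = ∑ a, ∑ c, w a false c false := by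
    simp [Finset.sum_filter, Fintype.sum_prod_type, w']
  have r1 : ∑ k ∈ Finset.univ.filter (fun k : Bool × Bool × Bool × Bool =>
      k.1 = false ∧ k.2.2.1 = false), r k = √(x * y * (p * q)) +
        x * (1 - y) * (p * (1 - q)) / √((1 - x * y) * (1 - p * q)) := by
    simp [Finset.sum_filter, Fintype.sum_prod_type, r, hv]
    ring
  have r2 : ∑ k ∈ Finset.univ.filter (fun k : Bool × Bool × Bool × Bool =>
      k.1 = false ∧ k.2.2.2 = false), r k = √(x * y * (p * q)) +
        x * (1 - y) * (q * (1 - p)) / √((1 - x * y) * (1 - p * q)) := by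
    simp [Finset.sum_filter, Fintype.sum_prod_type, r, hv]
    ring
  have r3 : ∑ k ∈ Finset.univ.filter (fun k : Bool × Bool × Bool × Bool =>
      k.2.1 = false ∧ k.2.2.1 = false), r k = √(x * y * (p * q)) +
        y * (1 - x) * (p * (1 - q)) / √((1 - x * y) * (1 - p * q)) := by
    simp [Finset.sum_filter, Fintype.sum_prod_type, r, hv]
    ring
  have r4 : ∑ k ∈ Finset.univ.filter (fun k : Bool × Bool × Bool × Bool =>
      k.2.1 = false ∧ k.2.2.2 = false), r k = √(x * y * (p * q)) +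
        y * (1 - x) * (q * (1 - p)) / √((1 - x * y) * (1 - p * q)) := by
    simp [Finset.sum_filter, Fintype.sum_prod_type, r, hv]
    ring
  rw [eW, eS, w1, r1, eF] at b1
  rw [eW, eS, w2, r2, eF] at b2
  rw [eW, eS, w3, r3, eF] at b3
  rw [eW, eS, w4, r4, eF] at b4
  rw [eS] at hSpos
  have hψ := psi hx0 hx1 hy0 hy1 hp0 hp1 hq0 hq1 hS hSpos rfl rfl rfl rfl hσ
  have hWnn : 0 ≤ ∑ a, ∑ b, ∑ c, ∑ d, w a b c d :=
    Finset.sum_nonneg fun a _ => Finset.sum_nonneg fun b _ => Finset.sum_nonneg fun c _ =>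
      Finset.sum_nonneg fun d _ => hw a b c d
  have hψ' := mul_le_mul_of_nonneg_left hψ hWnn
  -- the pointwise identity
  have hpt : ∀ a b c d, w a b c d * (theta σ α β a b + theta σ γ δ c d) =
      2 * (w a b c d * log (rr α β γ δ (a, b, c, d))) -
      2 * (w a b c d * log (α a * β b * γ c * δ d)) +
      w a b c d * (2 * log ((α false + α true) * (β false + β true) * (γ false + γ true) *
        (δ false + δ true)) + σ * (433 / 10000) * (Gk x y + Gk p q)) := by
    intro a b c d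
    rcases eq_or_lt_of_le (hw a b c d) with h | h
    · rw [← h]; ring
    · obtain ⟨h1, h2, h3, h4⟩ := hpos _ _ _ _ h
      have e1 := hPpos hA hB a b h1 h2
      have e2 := hPpos hC hD c d h3 h4
      have e3 := NNb_pos hα hβ a b h1 h2
      have e4 := NNb_pos hγ hδ c d h3 h4
      have t1 : theta σ α β a b = -log (NNb α β (a || b)) + σ * (433 / 10000) * Gk x y := by
        rw [hx, hy]; rfl
      have t2 : theta σ γ δ c d = -log (NNb γ δ (c || d)) + σ * (433 / 10000) * Gk p q := by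
        rw [hp, hq]; rfl
      have t3 : log (rr α β γ δ (a, b, c, d)) = log (α a) - log (α false + α true) +
          (log (β b) - log (β false + β true)) + (log (γ c) - log (γ false + γ true)) +
          (log (δ d) - log (δ false + δ true)) -
          (log (NNb α β (a || b)) + log (NNb γ δ (c || d))) / 2 := by
        unfold rr
        rw [if_pos (hsup' _ _ _ _ h)]
        simp only
        rw [Real.log_div (by positivity) (by positivity), Real.log_sqrt (by positivity),
          Real.log_mul e3.ne' e4.ne', Real.log_mul e1.ne' e2.ne']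
        unfold PP
        rw [Real.log_mul (by positivity) (by positivity),
          Real.log_mul (by positivity) (by positivity), Real.log_div h1.ne' hA.ne',
          Real.log_div h2.ne' hB.ne', Real.log_div h3.ne' hC.ne', Real.log_div h4.ne' hD.ne']
        ring
      have t4 : log (α a * β b * γ c * δ d) = log (α a) + log (β b) + log (γ c) + log (δ d) := by
        rw [Real.log_mul (by positivity) (by positivity),
          Real.log_mul (by positivity) (by positivity),
          Real.log_mul (by positivity) (by positivity)]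
      have t5 : log ((α false + α true) * (β false + β true) * (γ false + γ true) *
          (δ false + δ true)) = log (α false + α true) + log (β false + β true) +
          log (γ false + γ true) + log (δ false + δ true) := by
        rw [Real.log_mul (by positivity) (by positivity),
          Real.log_mul (by positivity) (by positivity),
          Real.log_mul (by positivity) (by positivity)]
      rw [t1, t2, t3, t4, t5]
      ring
  have hL : ∑ a, ∑ b, ∑ c, ∑ d, w a b c d * (theta σ α β a b + theta σ γ δ c d) =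
      2 * (∑ a, ∑ b, ∑ c, ∑ d, w a b c d * log (rr α β γ δ (a, b, c, d))) -
      2 * (∑ a, ∑ b, ∑ c, ∑ d, w a b c d * log (α a * β b * γ c * δ d)) +
      (∑ a, ∑ b, ∑ c, ∑ d, w a b c d) * (2 * log ((α false + α true) * (β false + β true) *
        (γ false + γ true) * (δ false + δ true)) + σ * (433 / 10000) * (Gk x y + Gk p q)) := by
    simp_rw [hpt]
    simp only [Finset.sum_add_distrib, Finset.sum_sub_distrib, ← Finset.mul_sum, ← Finset.sum_mul]
  have hF1 : ∑ a, ∑ b, ∑ c, ∑ d,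
      (-negMulLog (w a b c d) - w a b c d * log (rr α β γ δ (a, b, c, d))) =
      (∑ a, ∑ b, ∑ c, ∑ d, -negMulLog (w a b c d)) -
      ∑ a, ∑ b, ∑ c, ∑ d, w a b c d * log (rr α β γ δ (a, b, c, d)) := by
    simp only [Finset.sum_sub_distrib]
  have hF2 : ∑ a, ∑ b, ∑ c, ∑ d,
      (-negMulLog (w a b c d) - w a b c d * log (α a * β b * γ c * δ d)) =
      (∑ a, ∑ b, ∑ c, ∑ d, -negMulLog (w a b c d)) -
      ∑ a, ∑ b, ∑ c, ∑ d, w a b c d * log (α a * β b * γ c * δ d) := by
    simp only [Finset.sum_sub_distrib]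
  rw [hF1] at b1 b2 b3 b4
  rw [hL, hF2]
  exact fin_aux _ _ _ _ _ _ _ _ _ _ _ _ _ _ _ _ _ _ b1 b2 b3 b4 hψ'

end Pool.Agent.H724R2.UCT12
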